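import Pool.Agent.Q85.SW.Stmts

/-! Last step of the assembly for MP_27eeb4_an. -/

set_option autoImplicit false

open MeasureTheory Filter Topology Set
open scoped SchwartzMap FourierTransform ContDiff Real

noncomputable section

namespace Pool.Agent.Q85.SW.Fin

open Pool.Agent.Q85.SW

theorem main (h1 : TaskGSchwartz) (h2 : TaskBasis) (h3 : TaskFT) (h4 : TaskGSupp) : Goal := by
  obtain ⟨F, hF⟩ := h1
  obtain ⟨b, hb⟩ := h2
  obtain ⟨b', hb'⟩ := h3 F b (fun j k => by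
    refine (hb j k).trans (Filter.Eventually.of_forall fun x => ?_)
    simp only [E, hF])
  refine ⟨𝓕⁻ F, ⟨b', hb'⟩, ?_⟩
  have e1 : 𝓕 ((𝓕⁻ F : 𝓢(ℝ, ℂ)) : ℝ → ℂ) = (F : ℝ → ℂ) := by
    rw [← SchwartzMap.fourier_coe]
    simp
  rw [e1]
  have e2 : (F : ℝ → ℂ) = G := funext hF
  rw [e2]
  exact h4

end Pool.Agent.Q85.SW.Fin
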