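import Pool.Agent.Q85.SW.Stmts

set_option autoImplicit false

open Set Filter Topology
open scoped ContDiff

namespace Pool.Agent.Q85.SW

theorem taskFract : TaskFract := by
  intro f hf h0 h1
  rw [contDiff_iff_contDiffAt]
  intro x₀
  have hg : ContDiffAt ℝ ∞ (fun x : ℝ => f (x - (⌊x₀⌋ : ℝ))) x₀ :=
    (hf.comp (contDiff_id.sub contDiff_const)).contDiffAt
  refine hg.congr_of_eventuallyEq ?_
  have hl := Int.floor_le x₀
  have hr := Int.lt_floor_add_one x₀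
  filter_upwards [Ioo_mem_nhds (show (⌊x₀⌋ : ℝ) - 1 / 2 < x₀ by linarith)
    (show x₀ < (⌊x₀⌋ : ℝ) + 1 by linarith)] with x hx
  rcases le_or_gt (⌊x₀⌋ : ℝ) x with h | h
  · have e : ⌊x⌋ = ⌊x₀⌋ := Int.floor_eq_iff.2 ⟨h, hx.2⟩
    rw [Int.fract, e]
  · have e : ⌊x⌋ = ⌊x₀⌋ - 1 := by
      rw [Int.floor_eq_iff]
      push_cast
      exact ⟨by linarith [hx.1], by linarith⟩
    rw [Int.fract, e]
    push_cast
    rw [h1 _ (by linarith [hx.1]), h0 _ (by linarith)]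

end Pool.Agent.Q85.SW
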