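import Pool.Agent.Q85.SW.Stmts

/-! `SW.TaskFract` (helper230, second proof). -/

set_option autoImplicit false

open MeasureTheory Filter Topology Set
open scoped ContDiff

noncomputable section

namespace Pool.Agent.Q85.SW.FractFb230

theorem main : Pool.Agent.Q85.SW.TaskFract := by
  intro f hf h0 h1
  rw [contDiff_iff_contDiffAt]
  intro x
  obtain ⟨n, hn⟩ : ∃ n : ℤ, n = ⌊x⌋ := ⟨_, rfl⟩
  have hx1 : (n : ℝ) - 1 / 2 < x := by
    have := Int.floor_le x
    rw [← hn] at this
    linarith
  have hx2 : x < n + 1 := by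
    have := Int.lt_floor_add_one x
    rw [← hn] at this
    exact this
  have hnear : (fun y => f (Int.fract y)) =ᶠ[𝓝 x] fun y => f (y - n) := by
    filter_upwards [Ioo_mem_nhds hx1 hx2] with y hy
    by_cases hyn : (n : ℝ) ≤ y
    · have : ⌊y⌋ = n := Int.floor_eq_iff.2 ⟨hyn, hy.2⟩
      rw [Int.fract, this]
    · have hyn' : y < n := lt_of_not_ge hyn
      have : ⌊y⌋ = n - 1 := Int.floor_eq_iff.2
        ⟨by push_cast; linarith [hy.1], by push_cast; linarith⟩
      rw [Int.fract, this, h0 (y - n) (by linarith), h1]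
      push_cast
      linarith [hy.1]
  have h2 : ContDiff ℝ ∞ (fun y : ℝ => f (y - n)) :=
    hf.comp (contDiff_id.sub contDiff_const)
  exact h2.contDiffAt.congr_of_eventuallyEq hnear

end Pool.Agent.Q85.SW.FractFb230
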