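import Pool.Agent.Q85.SW.Stmts

set_option autoImplicit false

open MeasureTheory Filter Topology Set

namespace Pool.Agent.Q85.SW.RefB

open Pool.Agent.Q85.SW

theorem main (h1 : TaskLim) : TaskRef := by
  intro x
  have e : ∀ n, P (n + 1) (2 * x) = m x * P n x := by
    intro n
    unfold P
    rw [Finset.prod_range_succ']
    have e0 : m (2 * x / 2 ^ (0 + 1)) = m x := by congr 1; simp
    rw [e0, mul_comm]
    congr 1
    refine Finset.prod_congr rfl fun j _ => ?_
    congr 1
    field_simp
    ring
  have l1 : Tendsto (fun n => P (n + 1) (2 * x)) atTop (𝓝 (h (2 * x))) :=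
    (h1 (2 * x)).comp (tendsto_add_atTop_nat 1)
  have l2 : Tendsto (fun n => P (n + 1) (2 * x)) atTop (𝓝 (m x * h x)) := by
    simp_rw [e]
    exact (h1 x).const_mul _
  exact tendsto_nhds_unique l1 l2

end Pool.Agent.Q85.SW.RefB
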