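import Pool.Agent.Q85.SW.Stmts

/-! `SW.TaskRef` (helper230, second proof). -/

set_option autoImplicit false

open MeasureTheory Filter Topology Set

noncomputable section

namespace Pool.Agent.Q85.SW.RefFb230

theorem main (hLim : TaskLim) : Pool.Agent.Q85.SW.TaskRef := by
  intro x
  have e : ∀ n : ℕ, P (n + 1) (2 * x) = m x * P n x := by
    intro n
    unfold P
    rw [Finset.prod_range_succ']
    have e1 : ∀ j : ℕ, 2 * x / 2 ^ (j + 1 + 1) = x / 2 ^ (j + 1) := by
      intro j
      rw [pow_succ (2 : ℝ) (j + 1)]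
      field_simp
    have e2 : 2 * x / 2 ^ (0 + 1) = x := by
      norm_num
    simp only [e1]
    rw [e2, mul_comm]
  have h1 := (hLim (2 * x)).comp (tendsto_add_atTop_nat 1)
  have h2 := (hLim x).const_mul (m x)
  have h3 : Tendsto (fun n => m x * P n x) atTop (𝓝 (h (2 * x))) := by
    refine h1.congr (fun n => ?_)
    exact e n
  exact tendsto_nhds_unique h3 h2

end Pool.Agent.Q85.SW.RefFb230
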