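import Mathlib

/-!
Blueprint for MP_27eeb4_an: an orthonormal wavelet in the Schwartz class whose Fourier transform has no compact support.

Low pass filter `m = cos θ`, `θ (x + 1/2) = π/2 - θ x`, `θ = ` Meyer's phase `+ κ x - κ (x + 1/2)`, `κ` a smooth function
which is flat at `0` and not zero exactly on `∪ 2^{-j} (0.09, 0.12)` (modulo `1`). `h = ∏ m (x / 2^j)` is the Fourier
transform of the scaling function, `G x = e^{π i x} m (x/2 + 1/2) h (x/2)` that of the wavelet.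
-/

set_option autoImplicit false

open MeasureTheory Filter Topology Set
open scoped SchwartzMap FourierTransform ContDiff Real

noncomputable section

namespace Pool.Agent.Q85.SW

/-- `{η ≠ 0} = (0.09, 0.12)`. -/
def eta (x : ℝ) : ℝ := expNegInvGlue (x - 9 / 100) * expNegInvGlue (12 / 100 - x)

/-- coefficients -/
def a (j : ℕ) : ℝ := (1 / 2 : ℝ) ^ (j ^ 2)

/-- flat at `0`, `{κ₀ ≠ 0} = ∪_{j ≥ 0} 2^{-j} (0.09, 0.12)` -/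
def kap0 (x : ℝ) : ℝ := ∑' j : ℕ, a j * eta (2 ^ j * x)

def kap (x : ℝ) : ℝ := kap0 (Int.fract x)

def th (x : ℝ) : ℝ :=
  π / 2 * Real.smoothTransition (1 / 2 - Real.cos (2 * π * x)) + kap x - kap (x + 1 / 2)

/-- the low pass filter -/
def m (x : ℝ) : ℝ := Real.cos (th x)

/-- partial products -/
def P (n : ℕ) (x : ℝ) : ℝ := ∏ j ∈ Finset.range n, m (x / 2 ^ (j + 1))

/-- Fourier transform of the scaling function -/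
def h (x : ℝ) : ℝ := limUnder atTop (fun n => P n x)

/-- Fourier transform of the wavelet -/
def G (x : ℝ) : ℂ := Complex.exp (π * x * Complex.I) * ((m (x / 2 + 1 / 2) * h (x / 2) : ℝ) : ℂ)

/-- Fourier transform of the wavelet `ψ_{j,k}` -/
def E (j k : ℤ) (x : ℝ) : ℂ :=
  (((2 : ℝ) ^ (-(j : ℝ) / 2) : ℝ) : ℂ) * G ((2 : ℝ) ^ (-j) * x) *
    Complex.exp (-2 * π * k * ((2 : ℝ) ^ (-j) * x : ℝ) * Complex.I)

/-- weighted sum of the derivatives of order at most `k` -/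
def J (k : ℕ) (f : ℝ → ℝ) (x : ℝ) : ℝ :=
  ∑ i ∈ Finset.range (k + 1), |iteratedDeriv i f x| / (i.factorial : ℝ)

/-- dilation -/
def Dl (j : ℤ) (g : ℝ → ℂ) (x : ℝ) : ℂ := (((2 : ℝ) ^ ((j : ℝ) / 2) : ℝ) : ℂ) * g ((2 : ℝ) ^ j * x)

/-- periodization -/
def per (u : ℝ → ℂ) (x : ℝ) : ℂ := ∑' n : ℤ, u (x + n)

def PP (g : ℝ → ℂ) : ℝ := ∫ x in (0 : ℝ)..1, ‖per (fun y => g y * (h y : ℂ)) x‖ ^ 2

def QQ (g : ℝ → ℂ) : ℝ := ∫ x in (0 : ℝ)..1, ‖per (fun y => g y * (starRingEnd ℂ) (G y)) x‖ ^ 2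

/-! ### the filter -/

/-- `expNegInvGlue.contDiff`; on `(0.09, 0.12)` the first factor is `exp (-1/(x - 0.09)) ≤ exp (-33) ≤ 1/2`, the
other at most `1`; the derivatives vanish off the compact `[0.09, 0.12]`. -/
def TaskEta : Prop := ContDiff ℝ ∞ eta ∧ (∀ x, 0 ≤ eta x ∧ eta x ≤ 1 / 2) ∧
  (∀ x, eta x ≠ 0 ↔ 9 / 100 < x ∧ x < 12 / 100) ∧
  ∀ k : ℕ, ∃ C : ℝ, ∀ x, |iteratedDeriv k eta x| ≤ C

/-- the sum has at most one nonzero term (`2 * 0.09 > 0.12`). -/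
def TaskKapVal : Prop :=
  (∀ (j : ℕ) (x : ℝ), 9 / 100 < 2 ^ j * x → 2 ^ j * x < 12 / 100 → kap0 x = a j * eta (2 ^ j * x)) ∧
  (∀ x : ℝ, (∀ j : ℕ, ¬ (9 / 100 < 2 ^ j * x ∧ 2 ^ j * x < 12 / 100)) → kap0 x = 0) ∧
  (∀ x, 0 ≤ kap0 x ∧ kap0 x ≤ 1 / 2) ∧ (∀ x : ℝ, x ≤ 0 → kap0 x = 0) ∧ (∀ x : ℝ, 1 / 8 ≤ x → kap0 x = 0)

/-- `contDiff_tsum`: the `k`-th derivative of the `j`-th term is at most `2^{-j²} 2^{jk} C_k`. -/
def TaskKapSmooth : Prop := ContDiff ℝ ∞ kap0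

/-- flat functions: induction on `N`, mean value inequality (all derivatives vanish at `0`). -/
def TaskFlatGen : Prop := ∀ f : ℝ → ℝ, ContDiff ℝ ∞ f → (∀ x : ℝ, x ≤ 0 → f x = 0) → ∀ i N : ℕ,
  ∃ C : ℝ, 0 ≤ C ∧ ∀ x : ℝ, |x| ≤ 1 → |iteratedDeriv i f x| ≤ C * |x| ^ N

/-- away from the closed intervals the function `sin κ₀` vanishes in a neighbourhood (for `x > 0`; the closed intervals
`2^{-j}[0.09, 0.12]` are locally finite in `x > 0`), for `x ≤ 0` all derivatives vanish. -/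
def TaskKapZero : Prop := ∀ (i : ℕ) (x : ℝ), (∀ j : ℕ, ¬ (9 / 100 ≤ 2 ^ j * x ∧ 2 ^ j * x ≤ 12 / 100)) →
  iteratedDeriv i (fun y => Real.sin (kap0 y)) x = 0

/-- locally `f (fract x) = f (x - n)`, also at the integers. -/
def TaskFract : Prop := ∀ f : ℝ → ℝ, ContDiff ℝ ∞ f → (∀ x : ℝ, x ≤ 0 → f x = 0) → (∀ x : ℝ, 1 / 8 ≤ x → f x = 0) →
  ContDiff ℝ ∞ (fun x => f (Int.fract x))

/-- smoothness of the filter -/
def TaskMSmooth : Prop := ContDiff ℝ ∞ m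

/-- `kap` has period one, `smoothTransition x + smoothTransition (1 - x) = 1`, so `th (x + 1/2) = π/2 - th x`. -/
def TaskMPer : Prop := (∀ x, m (x + 1) = m x) ∧ (∀ (x : ℝ) (n : ℤ), m (x + n) = m x) ∧
  (∀ x, m x ^ 2 + m (x + 1 / 2) ^ 2 = 1) ∧ ∀ x, |m x| ≤ 1

/-- for `|x| ≤ 1/6` the first term of `th` is `0`, `kap x ≤ 1/2` and `kap (x + 1/2) = 0`; for `1/6 < |x| < 1/3` both
`kap` terms are `0` and the first term is `< π/2`. -/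
def TaskMPos : Prop := m 0 = 1 ∧ ∀ x : ℝ, |x| < 1 / 3 → 0 < m x

/-- here the first term of `th` is `π/2` -/
def TaskMZone : Prop := ∀ (n : ℤ) (x : ℝ), |x| ≤ 1 / 6 → m (n + 1 / 2 + x) = Real.sin (kap0 x)

/-- periodic and smooth -/
def TaskMBd : Prop := ∀ k : ℕ, ∃ C : ℝ, 0 ≤ C ∧ ∀ x, |iteratedDeriv k m x| ≤ C

/-- the derivatives of `m` in the zone (from `TaskMZone`; at `|e| = 1/6` by continuity) -/
def TaskMDer : Prop := ∀ (i : ℕ) (n : ℤ) (e : ℝ), |e| ≤ 1 / 6 →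
  iteratedDeriv i m (n + 1 / 2 + e) = iteratedDeriv i (fun y => Real.sin (kap0 y)) e

/-- KEY. Let `j₀` be minimal with `|ξ| / 2^j₀ ≤ 2/3`; then `ξ / 2^j₀ = n + 1/2 + e`, `n ∈ {0, -1}`, `|e| ≤ 1/6`. If
`e` is in no `2^{-p} [0.09, 0.12]` take `j = j₀` (all derivatives are `0` by `TaskMDer`, `TaskKapZero`). If it is and
`p + 2 < j₀` take `j = j₀ - p - 2`: `ξ / 2^j ≡ 2^(p+2) e ∈ [0.36, 0.48]` modulo `1`, all derivatives are `0` there.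
If `p + 2 ≥ j₀` take `j = j₀`, `|e| |ξ| ≤ 1` and use `TaskFlatGen` for `sin κ₀`. -/
def TaskFlat : Prop := ∀ k N : ℕ, ∃ C : ℝ, ∀ ξ : ℝ, 1 ≤ |ξ| → ∃ j : ℕ, 1 ≤ j ∧
  ∀ i ≤ k, |iteratedDeriv i m (ξ / 2 ^ j)| * |ξ| ^ N ≤ C

/-! ### the infinite product -/

/-- Leibniz rule (`iteratedDeriv_mul` / `iteratedDeriv_fun_mul`) -/
def TaskJMul : Prop := ∀ f g : ℝ → ℝ, ContDiff ℝ ∞ f → ContDiff ℝ ∞ g → ∀ (k : ℕ) (x : ℝ),
  J k (fun y => f y * g y) x ≤ J k f x * J k g x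

/-- `iteratedDeriv_comp_const_mul` -/
def TaskJScale : Prop := ∀ f : ℝ → ℝ, ContDiff ℝ ∞ f → ∀ (k j : ℕ) (x : ℝ),
  J k (fun y => f (y / 2 ^ j)) x ≤ |f (x / 2 ^ j)| + (1 / 2) ^ j * J k f (x / 2 ^ j) ∧
  J k (fun y => f (y / 2 ^ j)) x ≤ J k f (x / 2 ^ j)

/-- product of the bounds `1 + 2^{-j} C ≤ exp (2^{-j} C)`; `J k 1 x = 1` -/
def TaskJProd : Prop := ∀ k : ℕ, ∃ C : ℝ, 0 ≤ C ∧ ∀ (n : ℕ) (x : ℝ), J k (P n) x ≤ C ∧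
  ∀ j : ℕ, 1 ≤ j → j ≤ n → J k (P n) x ≤ C * J k (fun y => m (y / 2 ^ j)) x

/-- `P (n+1) - P n = P n * (m (x / 2^(n+1)) - 1)` and `|m y - 1| ≤ C |y|` -/
def TaskDiffBd : Prop := ∀ (i : ℕ) (R : ℝ), ∃ C : ℝ, ∀ (n : ℕ) (x : ℝ), |x| ≤ R →
  |iteratedDeriv i (P (n + 1)) x - iteratedDeriv i (P n) x| ≤ C * (1 / 2) ^ n

/-- the product converges (`TaskDiffBd` with `i = 0`, `cauchySeq_of_le_geometric`) -/
def TaskLim : Prop := ∀ x, Tendsto (fun n => P n x) atTop (𝓝 (h x))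

/-- smooth limits: induction with `hasDerivAt_of_tendstoLocallyUniformlyOn` (or `hasDerivAt_tsum_of_isPreconnected`) -/
def TaskSeq : Prop := ∀ (f : ℕ → ℝ → ℝ) (g : ℝ → ℝ), (∀ n, ContDiff ℝ ∞ (f n)) →
  (∀ x, Tendsto (fun n => f n x) atTop (𝓝 (g x))) →
  (∀ (i : ℕ) (R : ℝ), ∃ C : ℝ, ∀ (n : ℕ) (x : ℝ), |x| ≤ R →
    |iteratedDeriv i (f (n + 1)) x - iteratedDeriv i (f n) x| ≤ C * (1 / 2) ^ n) →
  ContDiff ℝ ∞ g ∧ ∀ (i : ℕ) (x : ℝ), Tendsto (fun n => iteratedDeriv i (f n) x) atTop (𝓝 (iteratedDeriv i g x))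

/-- from `TaskSeq` -/
def TaskHSmooth : Prop := ContDiff ℝ ∞ h ∧
  ∀ (i : ℕ) (x : ℝ), Tendsto (fun n => iteratedDeriv i (P n) x) atTop (𝓝 (iteratedDeriv i h x))

/-- `|iteratedDeriv i f x| ≤ i! J i f x`; for `|x| ≥ 1` take `j` from `TaskFlat`, `TaskJProd`, `TaskJScale`, limit in `n` -/
def TaskHDecay : Prop := ∀ i N : ℕ, ∃ C : ℝ, ∀ x : ℝ, |x| ^ N * |iteratedDeriv i h x| ≤ C

/-- the refinement equation: `P (n+1) (2 x) = m x * P n x` -/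
def TaskRef : Prop := ∀ x, h (2 * x) = m x * h x

/-- `h 0 = 1`; near `0` positive by continuity, then by `TaskRef` -/
def TaskHPos : Prop := h 0 = 1 ∧ (∀ x, |h x| ≤ 1) ∧ ∀ x : ℝ, |x| < 2 / 3 → 0 < h x

/-- induction: `P (n+1) x = m (x/2) ... `; substitute `x = 2^n y`, the integrand is periodic in `y`; `∫_0^1 m(y)² F(2y) dy =
∫_0^{1/2} (m(y)² + m(y+1/2)²) F(2y) dy = (1/2) ∫_0^1 F` for periodic `F` -/
def TaskPInt : Prop := ∀ n : ℕ, ∫ x in (-(2 ^ n / 2 : ℝ))..(2 ^ n / 2), P n x ^ 2 = 1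

/-- dominated convergence: `h x = P n x * h (x / 2^n)`, so `|P n x| ≤ |h x| / c` for `|x| ≤ 2^n / 2`, `c = min_{[-1/2,1/2]} h` -/
def TaskHNorm : Prop := ∫ x, h x ^ 2 = 1

/-! ### the wavelet on the Fourier side -/

/-- Schwartz function; e.g. `SchwartzMap.bilinLeftCLM` / `HasTemperateGrowth`, or directly from the bounds -/
def TaskGSchwartz : Prop := ∃ F : 𝓢(ℝ, ℂ), ∀ x, F x = G x

/-- `∫ |G|² = 2 ∫ (1 - m²) h² = 2 ∫ h² - 2 ∫ h(2x)² = ∫ h²` -/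
def TaskGNorm : Prop := ∫ x, ‖G x‖ ^ 2 = 1

/-- `G (2 (2^(n-1) + 0.1)) ≠ 0` for `n ≥ 1`: `2^(n-1) + 0.1 = 2^n (1/2 + 0.1/2^n)`; `h` of it is
`∏_{i<n} m (2^i (1/2 + 0.1/2^n)) * h (1/2 + 0.1/2^n)`, the factor `i = 0` is `sin (κ₀ (0.1/2^n)) > 0`, the others are
`m (0.1/2^(n-i)) > 0` -/
def TaskGSupp : Prop := ¬ HasCompactSupport G

/-- `x = 2 y`, split the sum over even and odd integers: `PP g = 2 ∫_0^{1/2} |a A₀ + b A₁|²`, `QQ g = 2 ∫_0^{1/2} |b A₀ - a A₁|²`,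
`a = m y`, `b = m (y + 1/2)`, `A₀ = ∑ g (2 (y + l)) h (y + l)`, `A₁ = ∑ g (2 (y + 1/2 + l)) h (y + 1/2 + l)` -/
def TaskStep : Prop := ∀ g : ℝ → ℂ, Continuous g → HasCompactSupport g →
  PP (fun x => ((Real.sqrt 2 : ℝ) : ℂ) * g (2 * x)) = PP g + QQ g

/-- for large `n` the support of `Dl n g` is in `(-1/2, 1/2)`, so `PP = ∫ |g y|² h(y/2^n)² dy`; dominated convergence -/
def TaskTop : Prop := ∀ g : ℝ → ℂ, Continuous g → HasCompactSupport g →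
  Tendsto (fun n : ℕ => PP (Dl n g)) atTop (𝓝 (∫ x, ‖g x‖ ^ 2))

/-- `|per| ≤ 2^{-n/2} sup |g| * sup_x ∑_l |h (x + l)| ≤ C 2^{-n/2}` -/
def TaskBot : Prop := ∀ g : ℝ → ℂ, Continuous g → HasCompactSupport g →
  Tendsto (fun n : ℕ => PP (Dl (-(n : ℤ)) g)) atTop (𝓝 0)

/-- `Dl (j+1) g x = √2 (Dl j g) (2x)`, telescoping over `ℤ`, `QQ ≥ 0` -/
def TaskTele : Prop := ∀ g : ℝ → ℂ, Continuous g → HasCompactSupport g →
  HasSum (fun j : ℤ => QQ (Dl j g)) (∫ x, ‖g x‖ ^ 2)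

/-- Parseval on the circle for the periodization (`hasSum_sq_fourierCoeff`, `Real.fourierCoeff_tsum_comp_add`) -/
def TaskFou : Prop := ∀ u : ℝ → ℂ, Continuous u → HasCompactSupport u →
  HasSum (fun k : ℤ => ‖∫ x, u x * Complex.exp (2 * π * k * x * Complex.I)‖ ^ 2)
    (∫ x in (0 : ℝ)..1, ‖per u x‖ ^ 2)

/-- substitution `x = 2^j y` -/
def TaskCoef : Prop := ∀ g : ℝ → ℂ, Continuous g → HasCompactSupport g → ∀ j k : ℤ,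
  ∫ x, (starRingEnd ℂ) (E j k x) * g x =
    ∫ y, (Dl j g y * (starRingEnd ℂ) (G y)) * Complex.exp (2 * π * k * y * Complex.I)

/-- from `TaskTele`, `TaskFou`, `TaskCoef` -/
def TaskPars : Prop := ∀ g : ℝ → ℂ, Continuous g → HasCompactSupport g →
  HasSum (fun p : ℤ × ℤ => ‖∫ x, (starRingEnd ℂ) (E p.1 p.2 x) * g x‖ ^ 2) (∫ x, ‖g x‖ ^ 2)

/-- unit vectors with Parseval's identity on a dense set are a Hilbert basis -/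
def TaskAbsH : Prop := ∀ (H : Type) [NormedAddCommGroup H] [InnerProductSpace ℂ H] [CompleteSpace H]
  (v : ℤ × ℤ → H) (D : Set H), (∀ p, ‖v p‖ = 1) → Dense D →
  (∀ f ∈ D, HasSum (fun p => ‖inner ℂ (v p) f‖ ^ 2) (‖f‖ ^ 2)) →
  ∃ b : HilbertBasis (ℤ × ℤ) ℂ H, ∀ p, b p = v p

/-- the norms of the `E j k` -/
def TaskENorm : Prop := ∀ j k : ℤ, MemLp (E j k) 2 volume ∧ ∫ x, ‖E j k x‖ ^ 2 = 1

/-- the basis on the Fourier side; `D` = classes of continuous functions with compact support -/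
def TaskBasis : Prop := ∃ b : HilbertBasis (ℤ × ℤ) ℂ (Lp ℂ 2 (volume : Measure ℝ)),
  ∀ j k : ℤ, (b (j, k) : ℝ → ℂ) =ᵐ[volume] E j k

/-- dilation, translation and the Fourier transform -/
def TaskFTcalc : Prop := ∀ (F : 𝓢(ℝ, ℂ)) (j k : ℤ), ∃ U V : 𝓢(ℝ, ℂ),
  (∀ x, U x = (((2 : ℝ) ^ ((j : ℝ) / 2) : ℝ) : ℂ) * (𝓕⁻ F) ((2 : ℝ) ^ j * x - k)) ∧
  (∀ x, V x = (((2 : ℝ) ^ (-(j : ℝ) / 2) : ℝ) : ℂ) * F ((2 : ℝ) ^ (-j) * x) *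
    Complex.exp (-2 * π * k * ((2 : ℝ) ^ (-j) * x : ℝ) * Complex.I)) ∧ 𝓕 U = V

/-- transfer by Plancherel's theorem (`MeasureTheory.Lp.fourierTransformₗᵢ`) -/
def TaskFT : Prop := ∀ (F : 𝓢(ℝ, ℂ)) (b : HilbertBasis (ℤ × ℤ) ℂ (Lp ℂ 2 (volume : Measure ℝ))),
  (∀ j k : ℤ, (b (j, k) : ℝ → ℂ) =ᵐ[volume] fun x => (((2 : ℝ) ^ (-(j : ℝ) / 2) : ℝ) : ℂ) * F ((2 : ℝ) ^ (-j) * x) *
    Complex.exp (-2 * π * k * ((2 : ℝ) ^ (-j) * x : ℝ) * Complex.I)) →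
  ∃ b' : HilbertBasis (ℤ × ℤ) ℂ (Lp ℂ 2 (volume : Measure ℝ)),
    ∀ j k : ℤ, (b' (j, k) : ℝ → ℂ) =ᵐ[volume]
      fun x => (((2 : ℝ) ^ ((j : ℝ) / 2) : ℝ) : ℂ) * (𝓕⁻ F) ((2 : ℝ) ^ j * x - k)

/-- the answer -/
def Goal : Prop := ∃ ψ : 𝓢(ℝ, ℂ),
  (∃ b : HilbertBasis (ℤ × ℤ) ℂ (Lp ℂ 2 (volume : Measure ℝ)), ∀ j k : ℤ,
    (b (j, k) : ℝ → ℂ) =ᵐ[volume] fun x => (((2 : ℝ) ^ ((j : ℝ) / 2) : ℝ) : ℂ) * ψ ((2 : ℝ) ^ j * x - k)) ∧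
  ¬ HasCompactSupport (𝓕 (ψ : ℝ → ℂ))

end Pool.Agent.Q85.SW
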