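import Pool.Agent.Q85.SW.Stmts

set_option autoImplicit false

open MeasureTheory Filter Topology Set

namespace Pool.Agent.Q85.SW.TaskAbsH

open Pool.Agent.Q85.SW

theorem main : Pool.Agent.Q85.SW.TaskAbsH := by
  intro H _ _ _ v D hv hD hP
  have bes : ∀ (s : Finset (ℤ × ℤ)) (f : H), ∑ p ∈ s, ‖inner ℂ (v p) f‖ ^ 2 ≤ ‖f‖ ^ 2 := by
    intro s f
    have hc : IsClosed {f : H | ∑ p ∈ s, ‖inner ℂ (v p) f‖ ^ 2 ≤ ‖f‖ ^ 2} :=
      isClosed_le (by fun_prop) (by fun_prop)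
    exact hc.closure_subset_iff.2
      (fun f hf => sum_le_hasSum s (fun _ _ => by positivity) (hP f hf)) (hD f)
  have ort : Orthonormal ℂ v := by
    refine ⟨hv, fun p q hpq => ?_⟩
    have h1 := bes {p, q} (v q)
    have h2 : ‖inner ℂ (v q) (v q)‖ = 1 := by
      rw [inner_self_eq_norm_sq_to_K, hv]
      simp
    rw [Finset.sum_pair hpq, h2, hv] at h1
    have h3 : ‖inner ℂ (v p) (v q)‖ ^ 2 ≤ 0 := by linarith
    exact norm_eq_zero.1 ((pow_eq_zero_iff two_ne_zero).1 (le_antisymm h3 (by positivity)))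
  have hbot : (Submodule.span ℂ (Set.range v))ᗮ = ⊥ := by
    rw [Submodule.eq_bot_iff]
    intro f hf
    have h0 : ∀ p, inner ℂ (v p) f = 0 := fun p =>
      (Submodule.mem_orthogonal _ _).1 hf _ (Submodule.subset_span ⟨p, rfl⟩)
    have hc : IsClosed {g : H | ‖g‖ ^ 2 ≤ ‖g - f‖ ^ 2} := isClosed_le (by fun_prop) (by fun_prop)
    have hsub : D ⊆ {g : H | ‖g‖ ^ 2 ≤ ‖g - f‖ ^ 2} := by
      intro g hg
      refine hasSum_le_of_sum_le (hP g hg) fun s => ?_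
      have h4 : ∑ p ∈ s, ‖inner ℂ (v p) g‖ ^ 2 = ∑ p ∈ s, ‖inner ℂ (v p) (g - f)‖ ^ 2 := by
        refine Finset.sum_congr rfl fun p _ => ?_
        rw [inner_sub_right, h0 p, sub_zero]
      rw [h4]
      exact bes s _
    have h1 : ‖f‖ ^ 2 ≤ ‖f - f‖ ^ 2 := hc.closure_subset_iff.2 hsub (hD f)
    rw [sub_self, norm_zero] at h1
    have h5 : ‖f‖ ^ 2 = 0 := le_antisymm (by simpa using h1) (by positivity)
    exact norm_eq_zero.1 ((pow_eq_zero_iff two_ne_zero).1 h5)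
  refine ⟨HilbertBasis.mkOfOrthogonalEqBot ort hbot, fun p => ?_⟩
  rw [HilbertBasis.coe_mkOfOrthogonalEqBot]

end Pool.Agent.Q85.SW.TaskAbsH
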