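import Pool.Agent.Q85.SW.Stmts

set_option autoImplicit false

open MeasureTheory Filter Topology Set
open scoped SchwartzMap FourierTransform ContDiff Real ENNReal

noncomputable section

namespace Pool.Agent.Q85.SW.TaskBasis

open Pool.Agent.Q85.SW

theorem norm_sq_toLp (f : ℝ → ℂ) (hf : MemLp f 2 volume) :
    ‖(hf.toLp f : Lp ℂ 2 (volume : Measure ℝ))‖ ^ 2 = ∫ x, ‖f x‖ ^ 2 := by
  have h1 := @inner_self_eq_norm_sq_to_K ℂ _ _ _ _ (hf.toLp f : Lp ℂ 2 (volume : Measure ℝ))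
  rw [MeasureTheory.L2.inner_def] at h1
  have h2 : ∫ x, inner ℂ ((hf.toLp f : Lp ℂ 2 (volume : Measure ℝ)) x)
      ((hf.toLp f : Lp ℂ 2 (volume : Measure ℝ)) x) = ∫ x, ((‖f x‖ ^ 2 : ℝ) : ℂ) := by
    apply integral_congr_ae
    filter_upwards [hf.coeFn_toLp] with x hx
    rw [hx, inner_self_eq_norm_sq_to_K]
    push_cast
    rfl
  have h5 : ∫ x, ((‖f x‖ ^ 2 : ℝ) : ℂ) = ((∫ x, ‖f x‖ ^ 2 : ℝ) : ℂ) := integral_ofReal
  rw [h2, h5] at h1
  have h3 : ((∫ x, ‖f x‖ ^ 2 : ℝ) : ℂ) =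
      ((‖(hf.toLp f : Lp ℂ 2 (volume : Measure ℝ))‖ ^ 2 : ℝ) : ℂ) := by
    rw [h1]; push_cast; rfl
  exact_mod_cast h3.symm

theorem main (h1 : TaskPars) (h2 : TaskAbsH) (h3 : TaskENorm) : TaskBasis := by
  let v : ℤ × ℤ → Lp ℂ 2 (volume : Measure ℝ) := fun p => (h3 p.1 p.2).1.toLp (E p.1 p.2)
  let D : Set (Lp ℂ 2 (volume : Measure ℝ)) :=
    {f | ∃ (g : ℝ → ℂ) (hg : MemLp g 2 volume), Continuous g ∧ HasCompactSupport g ∧ f = hg.toLp g}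
  have hA : ∀ p, ‖v p‖ = 1 := by
    intro p
    have h5 := norm_sq_toLp (E p.1 p.2) (h3 p.1 p.2).1
    have hn : (0 : ℝ) ≤ ‖v p‖ := norm_nonneg _
    have h6 : ‖v p‖ ^ 2 = 1 := h5.trans (h3 p.1 p.2).2
    nlinarith [h6]
  have hB : Dense D := by
    rw [Metric.dense_iff]
    intro f r hr
    have hf : MemLp (f : ℝ → ℂ) 2 volume := Lp.memLp f
    obtain ⟨g, hgs, hgd, hgc, hgm⟩ := hf.exists_hasCompactSupport_eLpNorm_sub_le (by norm_num)
      (ε := ENNReal.ofReal (r / 2)) (by simpa using hr)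
    refine ⟨hgm.toLp g, ?_, g, hgm, hgc, hgs, rfl⟩
    rw [Metric.mem_ball, dist_comm, dist_eq_norm]
    have h4 : ‖f - hgm.toLp g‖ = (eLpNorm ((f : ℝ → ℂ) - g) 2 volume).toReal := by
      rw [Lp.norm_def]
      congr 1
      apply eLpNorm_congr_ae
      filter_upwards [Lp.coeFn_sub f (hgm.toLp g), hgm.coeFn_toLp] with x hx1 hx2
      rw [hx1, Pi.sub_apply, hx2, Pi.sub_apply]
    rw [h4]
    have h5 := ENNReal.toReal_mono ENNReal.ofReal_ne_top hgd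
    rw [ENNReal.toReal_ofReal (by positivity)] at h5
    linarith
  have hC : ∀ f ∈ D, HasSum (fun p => ‖inner ℂ (v p) f‖ ^ 2) (‖f‖ ^ 2) := by
    rintro f ⟨g, hg, hgc, hgs, rfl⟩
    have h4 := h1 g hgc hgs
    rw [norm_sq_toLp g hg]
    have h7 : ∀ p, inner ℂ (v p) (hg.toLp g : Lp ℂ 2 (volume : Measure ℝ)) =
        ∫ x, (starRingEnd ℂ) (E p.1 p.2 x) * g x := by
      intro p
      rw [MeasureTheory.L2.inner_def]
      apply integral_congr_ae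
      filter_upwards [hg.coeFn_toLp, (h3 p.1 p.2).1.coeFn_toLp] with x hx1 hx2
      rw [hx1]
      change inner ℂ (((h3 p.1 p.2).1.toLp (E p.1 p.2) : Lp ℂ 2 (volume : Measure ℝ)) x) (g x) = _
      rw [hx2, RCLike.inner_apply, mul_comm]
    simp only [h7]
    exact h4
  obtain ⟨b, hb⟩ := h2 (Lp ℂ 2 (volume : Measure ℝ)) v D hA hB hC
  refine ⟨b, fun j k => ?_⟩
  rw [hb (j, k)]
  exact (h3 j k).1.coeFn_toLp

end Pool.Agent.Q85.SW.TaskBasis
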