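import Pool.Agent.Q85.SW.Stmts

set_option autoImplicit false

open MeasureTheory Filter Topology Set
open scoped Real

noncomputable section

namespace Pool.Agent.Q85.SW.TaskBot

open Pool.Agent.Q85.SW

theorem summable_aux : Summable (fun l : ℤ => 1 / (1 + (l : ℝ) ^ 2)) := by
  have h1 : Summable (fun l : ℤ => 1 / (l : ℝ) ^ 2) :=
    Real.summable_one_div_int_pow.2 (by norm_num)
  have h2 : Summable (fun l : ℤ => if l = 0 then (1 : ℝ) else 0) :=
    (hasSum_ite_eq (0 : ℤ) (1 : ℝ)).summable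
  refine Summable.of_nonneg_of_le (fun l => by positivity) (fun l => ?_) (h1.add h2)
  by_cases hl : l = 0
  · subst hl
    simp
  · rw [if_neg hl, add_zero]
    have : (0 : ℝ) < (l : ℝ) ^ 2 := by positivity
    exact one_div_le_one_div_of_le this (by linarith)

theorem main (hD : TaskHDecay) : Pool.Agent.Q85.SW.TaskBot := by
  intro g hg hgc
  obtain ⟨M, hM⟩ : ∃ M : ℝ, ∀ x, ‖g x‖ ≤ M := hgc.exists_bound_of_continuous hg
  have hM0 : 0 ≤ M := (norm_nonneg _).trans (hM 0)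
  obtain ⟨C0, hC0⟩ := hD 0 0
  obtain ⟨C2, hC2⟩ := hD 0 2
  simp only [pow_zero, one_mul, iteratedDeriv_zero] at hC0
  simp only [iteratedDeriv_zero, sq_abs] at hC2
  set K : ℝ := C0 + C2 with hK
  have hK1 : ∀ x, (1 + x ^ 2) * |h x| ≤ K := by
    intro x
    have h1 := hC0 x
    have h2 := hC2 x
    linarith
  have hK0 : 0 ≤ K := le_trans (by positivity) (hK1 0)
  have hl : ∀ x ∈ Icc (0 : ℝ) 1, ∀ l : ℤ, |h (x + l)| ≤ 3 * K * (1 / (1 + (l : ℝ) ^ 2)) := by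
    intro x hx l
    have h1 := hK1 (x + l)
    have h2 : 1 + (l : ℝ) ^ 2 ≤ 3 * (1 + (x + l) ^ 2) := by
      nlinarith [sq_nonneg (x + l + x), hx.1, hx.2, mul_nonneg hx.1 (sub_nonneg.2 hx.2)]
    have h3 : (0 : ℝ) < 1 + (l : ℝ) ^ 2 := by positivity
    rw [mul_one_div, le_div_iff₀ h3]
    have h4 : |h (x + l)| * (1 + (l : ℝ) ^ 2) ≤ |h (x + l)| * (3 * (1 + (x + l) ^ 2)) :=
      mul_le_mul_of_nonneg_left h2 (abs_nonneg _)
    linarith
  set S : ℝ := ∑' l : ℤ, 3 * K * (1 / (1 + (l : ℝ) ^ 2)) with hS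
  have hsum : Summable (fun l : ℤ => 3 * K * (1 / (1 + (l : ℝ) ^ 2))) :=
    summable_aux.mul_left _
  have hS0 : 0 ≤ S := tsum_nonneg fun l => by positivity
  have hper : ∀ (n : ℕ) (x : ℝ), x ∈ Icc (0 : ℝ) 1 →
      ‖per (fun y => Dl (-(n : ℤ)) g y * (h y : ℂ)) x‖ ^ 2 ≤ (1 / 2) ^ n * (M * S) ^ 2 := by
    intro n x hx
    have h1 : ‖per (fun y => Dl (-(n : ℤ)) g y * (h y : ℂ)) x‖ ≤
        (2 : ℝ) ^ (-(n : ℝ) / 2) * M * S := by
      unfold per
      have hb : ∀ l : ℤ, ‖Dl (-(n : ℤ)) g (x + l) * (h (x + l) : ℂ)‖ ≤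
          (2 : ℝ) ^ (-(n : ℝ) / 2) * M * (3 * K * (1 / (1 + (l : ℝ) ^ 2))) := by
        intro l
        rw [norm_mul]
        have e1 : ‖Dl (-(n : ℤ)) g (x + l)‖ ≤ (2 : ℝ) ^ (-(n : ℝ) / 2) * M := by
          unfold Dl
          rw [norm_mul, Complex.norm_real, Real.norm_of_nonneg (by positivity)]
          have e2 : (((-(n : ℤ) : ℤ) : ℝ)) = -(n : ℝ) := by push_cast; ring
          rw [e2]
          exact mul_le_mul_of_nonneg_left (hM _) (by positivity)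
        have e3 : ‖(h (x + l) : ℂ)‖ ≤ 3 * K * (1 / (1 + (l : ℝ) ^ 2)) := by
          rw [Complex.norm_real, Real.norm_eq_abs]
          exact hl x hx l
        exact mul_le_mul e1 e3 (norm_nonneg _) (by positivity)
      have hs2 : HasSum (fun l : ℤ => (2 : ℝ) ^ (-(n : ℝ) / 2) * M *
          (3 * K * (1 / (1 + (l : ℝ) ^ 2)))) ((2 : ℝ) ^ (-(n : ℝ) / 2) * M * S) :=
        hsum.hasSum.mul_left _
      exact tsum_of_norm_bounded hs2 hb
    have h2 : ((2 : ℝ) ^ (-(n : ℝ) / 2)) ^ 2 = (1 / 2) ^ n := by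
      rw [← Real.rpow_natCast, ← Real.rpow_mul (by norm_num)]
      have : -(n : ℝ) / 2 * ((2 : ℕ) : ℝ) = -(n : ℝ) := by push_cast; ring
      rw [this, Real.rpow_neg (by norm_num), Real.rpow_natCast, one_div, inv_pow]
    calc ‖per (fun y => Dl (-(n : ℤ)) g y * (h y : ℂ)) x‖ ^ 2
        ≤ ((2 : ℝ) ^ (-(n : ℝ) / 2) * M * S) ^ 2 := pow_le_pow_left₀ (norm_nonneg _) h1 2
      _ = (1 / 2) ^ n * (M * S) ^ 2 := by
          rw [mul_assoc, mul_pow, h2]
  have hPP : ∀ n : ℕ, ‖PP (Dl (-(n : ℤ)) g)‖ ≤ (1 / 2) ^ n * (M * S) ^ 2 := by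
    intro n
    unfold PP
    have := intervalIntegral.norm_integral_le_of_norm_le_const (a := (0 : ℝ)) (b := 1)
      (f := fun x => ‖per (fun y => Dl (-(n : ℤ)) g y * (h y : ℂ)) x‖ ^ 2)
      (C := (1 / 2) ^ n * (M * S) ^ 2) (by
        intro x hx
        rw [uIoc_of_le (by norm_num)] at hx
        rw [Real.norm_of_nonneg (by positivity)]
        exact hper n x ⟨hx.1.le, hx.2⟩)
    simpa using this
  refine squeeze_zero_norm hPP ?_
  have h5 : Tendsto (fun n : ℕ => ((1 : ℝ) / 2) ^ n * (M * S) ^ 2) atTop (𝓝 (0 * (M * S) ^ 2)) :=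
    (tendsto_pow_atTop_nhds_zero_of_lt_one (by norm_num) (by norm_num)).mul_const _
  rwa [zero_mul] at h5

end Pool.Agent.Q85.SW.TaskBot
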