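import Pool.Agent.Q85.SW.Stmts

set_option autoImplicit false

open MeasureTheory Filter Topology Set
open scoped SchwartzMap FourierTransform ContDiff Real

namespace Pool.Agent.Q85.SW

theorem taskCoef : TaskCoef := by
  intro g _ _ j k
  set F : ℝ → ℂ := fun y => (Dl j g y * (starRingEnd ℂ) (G y)) * Complex.exp (2 * π * k * y * Complex.I) with hF
  have hpos : (0 : ℝ) < (2 : ℝ) ^ (-j) := by positivity
  have key : (∫ x, F ((2 : ℝ) ^ (-j) * x)) = |((2 : ℝ) ^ (-j))⁻¹| • ∫ y, F y :=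
    Measure.integral_comp_mul_left F ((2 : ℝ) ^ (-j))
  have h1 : ∫ y, F y = ∫ x, ((2 : ℝ) ^ (-j)) • F ((2 : ℝ) ^ (-j) * x) := by
    rw [integral_smul, key, abs_of_pos (inv_pos.mpr hpos), smul_smul, mul_inv_cancel₀ hpos.ne', one_smul]
  rw [show (∫ y, (Dl j g y * (starRingEnd ℂ) (G y)) * Complex.exp (2 * π * k * y * Complex.I)) = ∫ y, F y from rfl, h1]
  congr 1
  funext x
  have h2 : (2 : ℝ) ^ j * ((2 : ℝ) ^ (-j) * x) = x := by
    rw [← mul_assoc, ← zpow_add₀ (two_ne_zero), add_neg_cancel, zpow_zero, one_mul]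
  have h3 : (2 : ℝ) ^ (-j) * (2 : ℝ) ^ ((j : ℝ) / 2) = (2 : ℝ) ^ (-(j : ℝ) / 2) := by
    rw [← Real.rpow_intCast, ← Real.rpow_add two_pos]
    congr 1
    push_cast
    ring
  simp only [hF, Dl, E, h2, map_mul, Complex.conj_ofReal, ← Complex.exp_conj, Complex.real_smul, ← h3, map_neg,
    Complex.conj_I, map_ofNat, map_intCast]
  push_cast
  ring_nf
end Pool.Agent.Q85.SW
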