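import Pool.Agent.Q85.SW.Stmts

set_option autoImplicit false

open MeasureTheory Filter Topology Set
open scoped SchwartzMap FourierTransform ContDiff Real

namespace Pool.Agent.Q85.SW.TaskDiffBd

open Pool.Agent.Q85.SW

private theorem J_nonneg (k : ℕ) (f : ℝ → ℝ) (x : ℝ) : 0 ≤ J k f x :=
  Finset.sum_nonneg fun i _ => by positivity

private theorem le_J (k : ℕ) (f : ℝ → ℝ) (x : ℝ) : |iteratedDeriv k f x| ≤ k.factorial * J k f x := by
  have h1 : |iteratedDeriv k f x| / (k.factorial : ℝ) ≤ J k f x :=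
    Finset.single_le_sum (f := fun i => |iteratedDeriv i f x| / (i.factorial : ℝ))
      (fun i _ => by positivity) (Finset.mem_range.2 (Nat.lt_succ_self k))
  have h2 : (0 : ℝ) < k.factorial := by exact_mod_cast k.factorial_pos
  rw [div_le_iff₀ h2] at h1
  linarith

theorem main (hJMul : TaskJMul) (hJScale : TaskJScale) (hJProd : TaskJProd) (hm : TaskMSmooth)
    (hMBd : TaskMBd) (hMPos : TaskMPos) : TaskDiffBd := by
  intro i R
  have hm' : ContDiff ℝ ∞ m := hm
  obtain ⟨C0, hC0, hP⟩ := hJProd i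
  choose Cm hCm0 hCm using hMBd
  let u : ℝ → ℝ := fun y => m y - 1
  have hu : ContDiff ℝ ∞ u := hm'.sub contDiff_const
  have hJu : ∀ y, J i u y ≤ ∑ k ∈ Finset.range (i + 1), (Cm k + 1) := by
    intro y
    refine Finset.sum_le_sum (fun k _ => ?_)
    have h1 : iteratedDeriv k u y = iteratedDeriv k m y - iteratedDeriv k (fun _ : ℝ => (1 : ℝ)) y :=
      iteratedDeriv_sub (f := m) (g := fun _ : ℝ => (1 : ℝ)) (contDiff_infty.1 hm' k).contDiffAt
        contDiff_const.contDiffAt
    have h2 : |iteratedDeriv k (fun _ : ℝ => (1 : ℝ)) y| ≤ 1 := by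
      rw [iteratedDeriv_const]
      split_ifs <;> simp
    have h3 : |iteratedDeriv k u y| ≤ Cm k + 1 := by
      rw [h1]
      exact (abs_sub _ _).trans (add_le_add (hCm k y) h2)
    have h4 : (1 : ℝ) ≤ k.factorial := by exact_mod_cast k.factorial_pos
    exact (div_le_self (abs_nonneg _) h4).trans h3
  have hlip : ∀ y, |u y| ≤ Cm 1 * |y| := by
    intro y
    have h1 := Convex.norm_image_sub_le_of_norm_deriv_le (f := m) (C := Cm 1) (s := Set.univ) (x := 0)
      (y := y) (fun z _ => (hm'.differentiable (by simp)).differentiableAt)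
      (fun z _ => by
        have := hCm 1 z
        rw [iteratedDeriv_one] at this
        exact this) convex_univ (Set.mem_univ _) (Set.mem_univ _)
    rw [hMPos.1, sub_zero] at h1
    exact h1
  have hPs : ∀ n, ContDiff ℝ ∞ (P n) := by
    intro n
    unfold P
    exact contDiff_prod fun j _ => hm'.comp (contDiff_id.div_const _)
  refine ⟨i.factorial * (C0 * (Cm 1 * R + ∑ k ∈ Finset.range (i + 1), (Cm k + 1))), ?_⟩
  intro n x hx
  have hR : 0 ≤ R := (abs_nonneg x).trans hx
  let w : ℝ → ℝ := fun y => u (y / 2 ^ (n + 1))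
  have hw : ContDiff ℝ ∞ w := hu.comp (contDiff_id.div_const _)
  have e1 : iteratedDeriv i (P (n + 1)) x - iteratedDeriv i (P n) x =
      iteratedDeriv i (fun y => P n y * w y) x := by
    rw [← iteratedDeriv_sub (contDiff_infty.1 (hPs (n + 1)) i).contDiffAt
      (contDiff_infty.1 (hPs n) i).contDiffAt]
    congr 1
    funext y
    show P (n + 1) y - P n y = P n y * (m (y / 2 ^ (n + 1)) - 1)
    unfold P
    rw [Finset.prod_range_succ]
    ring
  rw [e1]
  have hS0 : (0 : ℝ) ≤ ∑ k ∈ Finset.range (i + 1), (Cm k + 1) :=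
    Finset.sum_nonneg fun k _ => by have := hCm0 k; linarith
  have hw1 : J i w x ≤ (Cm 1 * R + ∑ k ∈ Finset.range (i + 1), (Cm k + 1)) * (1 / 2) ^ n := by
    have h1 := (hJScale u hu i (n + 1) x).1
    have h2 := hlip (x / 2 ^ (n + 1))
    have h3 := hJu (x / 2 ^ (n + 1))
    have h4 : |x / 2 ^ (n + 1)| = |x| * (1 / 2) ^ (n + 1) := by
      rw [abs_div, abs_of_pos (by positivity : (0 : ℝ) < 2 ^ (n + 1)), one_div, inv_pow]
      rfl
    have h5 : (1 / 2 : ℝ) ^ (n + 1) ≤ (1 / 2) ^ n :=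
      pow_le_pow_of_le_one (by norm_num) (by norm_num) (Nat.le_succ n)
    have h6 : (0 : ℝ) ≤ (1 / 2) ^ (n + 1) := by positivity
    calc J i w x ≤ |u (x / 2 ^ (n + 1))| + (1 / 2) ^ (n + 1) * J i u (x / 2 ^ (n + 1)) := h1
      _ ≤ Cm 1 * (R * (1 / 2) ^ (n + 1)) +
          (1 / 2) ^ (n + 1) * ∑ k ∈ Finset.range (i + 1), (Cm k + 1) := by
          refine add_le_add (h2.trans ?_) (mul_le_mul_of_nonneg_left h3 h6)
          rw [h4]
          exact mul_le_mul_of_nonneg_left (mul_le_mul_of_nonneg_right hx h6) (hCm0 1)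
      _ = (Cm 1 * R + ∑ k ∈ Finset.range (i + 1), (Cm k + 1)) * (1 / 2) ^ (n + 1) := by ring
      _ ≤ _ := mul_le_mul_of_nonneg_left h5 (add_nonneg (mul_nonneg (hCm0 1) hR) hS0)
  calc |iteratedDeriv i (fun y => P n y * w y) x|
      ≤ i.factorial * J i (fun y => P n y * w y) x := le_J _ _ _
    _ ≤ i.factorial * (J i (P n) x * J i w x) :=
        mul_le_mul_of_nonneg_left (hJMul (P n) w (hPs n) hw i x) (by positivity)
    _ ≤ i.factorial * (C0 * ((Cm 1 * R + ∑ k ∈ Finset.range (i + 1), (Cm k + 1)) * (1 / 2) ^ n)) :=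
        mul_le_mul_of_nonneg_left
          (mul_le_mul (hP n x).1 hw1 (J_nonneg _ _ _) hC0) (by positivity)
    _ = _ := by ring

end Pool.Agent.Q85.SW.TaskDiffBd
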