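import Pool.Agent.Q85.SW.Stmts

set_option autoImplicit false

open MeasureTheory Filter Topology Set
open scoped SchwartzMap FourierTransform ContDiff Real

namespace Pool.Agent.Q85.SW.TaskENorm

open Pool.Agent.Q85.SW

private theorem normE (j k : ℤ) (x : ℝ) :
    ‖E j k x‖ ^ 2 = (2 : ℝ) ^ (-j) * ‖G ((2 : ℝ) ^ (-j) * x)‖ ^ 2 := by
  have h1 : ‖Complex.exp (-2 * π * k * ((2 : ℝ) ^ (-j) * x : ℝ) * Complex.I)‖ = 1 := by
    have : (-2 * π * k * ((2 : ℝ) ^ (-j) * x : ℝ) * Complex.I : ℂ) =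
        ((-2 * π * k * ((2 : ℝ) ^ (-j) * x) : ℝ) : ℂ) * Complex.I := by
      push_cast
      ring
    rw [this, Complex.norm_exp_ofReal_mul_I]
  have h2 : (0 : ℝ) < (2 : ℝ) ^ (-(j : ℝ) / 2) := Real.rpow_pos_of_pos two_pos _
  have h3 : ((2 : ℝ) ^ (-(j : ℝ) / 2)) ^ 2 = (2 : ℝ) ^ (-j) := by
    rw [← Real.rpow_natCast, ← Real.rpow_mul two_pos.le, ← Real.rpow_intCast]
    congr 1
    push_cast
    ring
  unfold E
  rw [norm_mul, norm_mul, h1, Complex.norm_real, Real.norm_eq_abs, abs_of_pos h2, mul_one, mul_pow,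
    h3]

theorem main (h1 : TaskGNorm) (h2 : TaskGSchwartz) : Pool.Agent.Q85.SW.TaskENorm := by
  intro j k
  obtain ⟨F, hF⟩ := h2
  have hGF : G = fun x => F x := funext fun x => (hF x).symm
  have hc : (2 : ℝ) ^ (-j) ≠ 0 := zpow_ne_zero _ two_ne_zero
  have hcont : Continuous G := by
    rw [hGF]
    exact F.continuous
  have hint : Integrable (fun x => ‖G x‖ ^ 2) := by
    have hm : MemLp (fun x => F x) 2 (volume : Measure ℝ) := F.memLp 2
    have := (memLp_two_iff_integrable_sq_norm hm.1).1 hm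
    rw [hGF]
    exact this
  have hEc : Continuous (E j k) := by
    unfold E
    fun_prop
  have hint2 : Integrable (fun x => ‖E j k x‖ ^ 2) := by
    simp only [normE]
    exact (hint.comp_mul_left' hc).const_mul _
  refine ⟨(memLp_two_iff_integrable_sq_norm hEc.aestronglyMeasurable).2 hint2, ?_⟩
  simp only [normE]
  rw [integral_const_mul, Measure.integral_comp_mul_left (fun y => ‖G y‖ ^ 2), h1, smul_eq_mul,
    mul_one, abs_of_pos (inv_pos.2 (zpow_pos two_pos _)), mul_inv_cancel₀ hc]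

end Pool.Agent.Q85.SW.TaskENorm
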