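import Pool.Agent.Q85.SW.Stmts

open MeasureTheory Filter Topology Set
open scoped SchwartzMap FourierTransform ContDiff Real
open Pool.Agent.Q85.SW

namespace Pool.Agent.Q85.SW.TaskEta

theorem glue_le_one (x : ℝ) : expNegInvGlue x ≤ 1 := by
  unfold expNegInvGlue
  split_ifs with h
  · norm_num
  · push Not at h
    apply Real.exp_le_one_iff.2
    have := inv_pos.2 h
    linarith

theorem glue_le_half {x : ℝ} (hx : x ≤ 3 / 100) : expNegInvGlue x ≤ 1 / 2 := by
  unfold expNegInvGlue
  split_ifs with h
  · norm_num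
  · push Not at h
    have h1 : (1 : ℝ) ≤ x⁻¹ := by
      rw [one_le_inv₀ h]; linarith
    have h2 : (2 : ℝ) ≤ Real.exp (x⁻¹) := by
      have := Real.add_one_le_exp (x⁻¹)
      linarith
    rw [Real.exp_neg]
    rw [one_div]
    exact inv_anti₀ (by norm_num) h2

theorem eta_contDiff : ContDiff ℝ ∞ eta := by
  unfold eta
  apply ContDiff.mul
  · exact expNegInvGlue.contDiff.comp (contDiff_id.sub contDiff_const)
  · exact expNegInvGlue.contDiff.comp (contDiff_const.sub contDiff_id)

theorem eta_zero {x : ℝ} (hx : x ≤ 9 / 100 ∨ 12 / 100 ≤ x) : eta x = 0 := by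
  unfold eta
  rcases hx with h | h
  · rw [expNegInvGlue.zero_of_nonpos (by linarith)]; simp
  · rw [expNegInvGlue.zero_of_nonpos (x := 12 / 100 - x) (by linarith)]; simp

theorem eta_ne (x : ℝ) : eta x ≠ 0 ↔ 9 / 100 < x ∧ x < 12 / 100 := by
  constructor
  · intro h
    by_contra hc
    apply h
    apply eta_zero
    by_contra hd
    push Not at hd
    exact hc hd
  · rintro ⟨h1, h2⟩
    unfold eta
    have a1 := expNegInvGlue.pos_of_pos (x := x - 9 / 100) (by linarith)
    have a2 := expNegInvGlue.pos_of_pos (x := 12 / 100 - x) (by linarith)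
    positivity

theorem eta_nonneg (x : ℝ) : 0 ≤ eta x := by
  unfold eta
  exact mul_nonneg (expNegInvGlue.nonneg _) (expNegInvGlue.nonneg _)

theorem eta_le (x : ℝ) : eta x ≤ 1 / 2 := by
  by_cases h : 9 / 100 < x ∧ x < 12 / 100
  · unfold eta
    have a1 := glue_le_half (x := x - 9 / 100) (by linarith [h.2])
    have a2 := glue_le_one (12 / 100 - x)
    have a3 := expNegInvGlue.nonneg (x - 9 / 100)
    have a4 := expNegInvGlue.nonneg (12 / 100 - x)
    nlinarith
  · have : eta x = 0 := by
      by_contra hc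
      exact h ((eta_ne x).1 hc)
    rw [this]; norm_num

theorem eta_compact : HasCompactSupport eta := by
  apply HasCompactSupport.of_support_subset_isCompact (K := Icc (9 / 100 : ℝ) (12 / 100)) isCompact_Icc
  intro x hx
  have := (eta_ne x).1 hx
  exact ⟨this.1.le, this.2.le⟩

theorem eta_der (k : ℕ) : ∃ C : ℝ, ∀ x, |iteratedDeriv k eta x| ≤ C := by
  have hc : Continuous (iteratedDeriv k eta) :=
    (eta_contDiff.continuous_iteratedDeriv k (by exact_mod_cast le_top))
  have hs : HasCompactSupport (iteratedDeriv k eta) := by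
    induction k with
    | zero => simpa using eta_compact
    | succ n ih =>
      rw [iteratedDeriv_succ]
      exact (ih (eta_contDiff.continuous_iteratedDeriv n (by exact_mod_cast le_top))).deriv
  obtain ⟨C, hC⟩ := hs.exists_bound_of_continuous hc
  exact ⟨C, fun x => by simpa [Real.norm_eq_abs] using hC x⟩

theorem main : TaskEta := ⟨eta_contDiff, fun x => ⟨eta_nonneg x, eta_le x⟩, eta_ne, eta_der⟩

end Pool.Agent.Q85.SW.TaskEta
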