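import Pool.Agent.Q85.SW.Stmts

set_option autoImplicit false

open MeasureTheory Filter Topology Set
open scoped SchwartzMap FourierTransform ContDiff Real

noncomputable section

namespace Pool.Agent.Q85.SW.TaskFT

open Pool.Agent.Q85.SW

theorem main (hc : TaskFTcalc) : TaskFT := by
  intro F b hb
  let W := Lp.fourierTransformₗᵢ ℝ ℂ
  refine ⟨HilbertBasis.ofRepr (W.trans b.repr), fun j k => ?_⟩
  obtain ⟨U, V, hU, hV, hUV⟩ := hc F j k
  have h1 : b (j, k) = V.toLp 2 := by
    apply Lp.ext
    refine (hb j k).trans ?_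
    refine EventuallyEq.trans ?_ (V.coeFn_toLp 2 volume).symm
    filter_upwards with x
    rw [hV]
  have h2 : W (U.toLp 2) = V.toLp 2 := by
    rw [← hUV]
    exact SchwartzMap.toLp_fourier_eq U
  have h3 : (HilbertBasis.ofRepr (W.trans b.repr)) (j, k) = U.toLp 2 := by
    have e1 : (HilbertBasis.ofRepr (W.trans b.repr)) (j, k) = W.symm (b (j, k)) := by
      classical
      rw [← HilbertBasis.repr_symm_single, ← HilbertBasis.repr_symm_single]
      rfl
    rw [e1, h1, ← h2, LinearIsometryEquiv.symm_apply_apply]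
  rw [h3]
  refine (U.coeFn_toLp 2 volume).trans ?_
  filter_upwards with x
  rw [hU]

end Pool.Agent.Q85.SW.TaskFT
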