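import Pool.Agent.Q85.SW.Stmts

set_option autoImplicit false

open MeasureTheory Filter Topology Set
open scoped SchwartzMap FourierTransform ContDiff Real

noncomputable section

namespace Pool.Agent.Q85.SW.TaskFTcalc

theorem main : TaskFTcalc := by
  intro F j k
  have ha : (2 : ℝ) ^ j ≠ 0 := by positivity
  have hapos : (0 : ℝ) < (2 : ℝ) ^ j := by positivity
  set a : ℝ := (2 : ℝ) ^ j with hadef
  have hainv : (2 : ℝ) ^ (-j) = a⁻¹ := by rw [zpow_neg]
  let f : 𝓢(ℝ, ℂ) := 𝓕⁻ F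
  let e : ℝ ≃L[ℝ] ℝ := ContinuousLinearEquiv.smulLeft (Units.mk0 a ha)
  have he : ∀ x, e x = a * x := fun x => rfl
  let U : 𝓢(ℝ, ℂ) := (((2 : ℝ) ^ ((j : ℝ) / 2) : ℝ) : ℂ) •
    SchwartzMap.compCLMOfContinuousLinearEquiv ℂ e (SchwartzMap.compSubConstCLM ℂ (k : ℝ) f)
  have hU : ∀ x, U x = (((2 : ℝ) ^ ((j : ℝ) / 2) : ℝ) : ℂ) * f (a * x - k) := fun x => rfl
  refine ⟨U, 𝓕 U, fun x => ?_, fun x => ?_, rfl⟩
  · exact hU x
  · have hF : F (a⁻¹ * x) = ∫ v : ℝ, Complex.exp (↑(-2 * π * v * (a⁻¹ * x)) * Complex.I) • f v := by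
      have h1 : F = 𝓕 f := (FourierTransform.fourier_fourierInv_eq F).symm
      conv_lhs => rw [h1]
      rw [SchwartzMap.fourier_coe, Real.fourier_real_eq_integral_exp_smul]
    rw [hainv, SchwartzMap.fourier_coe, Real.fourier_real_eq_integral_exp_smul]
    have h2 : ∀ v : ℝ, Complex.exp (↑(-2 * π * v * x) * Complex.I) • U v =
        (fun z : ℝ => (((2 : ℝ) ^ ((j : ℝ) / 2) : ℝ) : ℂ) *
          Complex.exp (-2 * π * k * (a⁻¹ * x : ℝ) * Complex.I) *
            (Complex.exp (↑(-2 * π * (z - k) * (a⁻¹ * x)) * Complex.I) • f (z - k))) (a * v) := by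
      intro v
      simp only [hU, smul_eq_mul]
      have h3 : Complex.exp (↑(-2 * π * v * x) * Complex.I) =
          Complex.exp (-2 * π * k * (a⁻¹ * x : ℝ) * Complex.I) *
          Complex.exp (↑(-2 * π * (a * v - k) * (a⁻¹ * x)) * Complex.I) := by
        rw [← Complex.exp_add]
        congr 1
        have h4 : (a : ℂ) ≠ 0 := by exact_mod_cast ha
        push_cast
        field_simp
        ring
      rw [h3]
      ring
    simp_rw [h2]
    rw [MeasureTheory.Measure.integral_comp_mul_left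
      (fun z : ℝ => (((2 : ℝ) ^ ((j : ℝ) / 2) : ℝ) : ℂ) *
          Complex.exp (-2 * π * k * (a⁻¹ * x : ℝ) * Complex.I) *
            (Complex.exp (↑(-2 * π * (z - k) * (a⁻¹ * x)) * Complex.I) • f (z - k))) a]
    rw [integral_sub_right_eq_self (fun z : ℝ => (((2 : ℝ) ^ ((j : ℝ) / 2) : ℝ) : ℂ) *
          Complex.exp (-2 * π * k * (a⁻¹ * x : ℝ) * Complex.I) *
            (Complex.exp (↑(-2 * π * z * (a⁻¹ * x)) * Complex.I) • f z)) (k : ℝ)]
    rw [integral_const_mul, ← hF, abs_of_pos (inv_pos.2 hapos)]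
    have h5 : (a⁻¹ : ℝ) * (2 : ℝ) ^ ((j : ℝ) / 2) = (2 : ℝ) ^ (-(j : ℝ) / 2) := by
      rw [hadef, ← Real.rpow_intCast, ← Real.rpow_neg (by norm_num), ← Real.rpow_add (by norm_num)]
      congr 1
      ring
    rw [← h5]
    simp only [Complex.real_smul]
    push_cast
    ring

end Pool.Agent.Q85.SW.TaskFTcalc
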