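import Pool.Agent.Q85.SW.Stmts

set_option autoImplicit false

open MeasureTheory Filter Topology Set
open scoped ContDiff Real

namespace Pool.Agent.Q85.SW.TaskFlat

/-- a point whose distance part is in no closed interval: all derivatives of the filter vanish -/
theorem zero_at (hD : TaskMDer) (hZ : TaskKapZero) (i : ℕ) (n : ℤ) (e x : ℝ) (he : |e| ≤ 1 / 6)
    (hx : x = n + 1 / 2 + e) (h : ∀ j : ℕ, ¬ (9 / 100 ≤ 2 ^ j * e ∧ 2 ^ j * e ≤ 12 / 100)) :
    iteratedDeriv i m x = 0 := by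
  rw [hx, hD i n e he, hZ i e h]

theorem main (hD : TaskMDer) (hZ : TaskKapZero) (hG : TaskFlatGen) (hS : TaskKapSmooth)
    (hV : TaskKapVal) : Pool.Agent.Q85.SW.TaskFlat := by
  intro k N
  have hs : ContDiff ℝ ∞ (fun y => Real.sin (kap0 y)) := Real.contDiff_sin.comp hS
  have h0 : ∀ x : ℝ, x ≤ 0 → Real.sin (kap0 x) = 0 := fun x hx => by
    rw [hV.2.2.2.1 x hx, Real.sin_zero]
  choose C hC0 hC using fun i => hG _ hs h0 i N
  refine ⟨∑ i ∈ Finset.range (k + 1), C i, ?_⟩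
  have hCs : 0 ≤ ∑ i ∈ Finset.range (k + 1), C i := Finset.sum_nonneg fun i _ => hC0 i
  intro ξ hξ
  have hex : ∃ j : ℕ, |ξ| ≤ 2 / 3 * 2 ^ j := by
    obtain ⟨j, hj⟩ := pow_unbounded_of_one_lt (3 / 2 * |ξ|) (one_lt_two : (1 : ℝ) < 2)
    exact ⟨j, by linarith⟩
  classical
  set J := Nat.find hex with hJ
  have hJ1 : |ξ| ≤ 2 / 3 * 2 ^ J := Nat.find_spec hex
  have hJ0 : 1 ≤ J := by
    by_contra hc
    have : J = 0 := by omega
    rw [this] at hJ1
    norm_num at hJ1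
    linarith
  have hJ2 : 2 / 3 * 2 ^ (J - 1) < |ξ| := by
    have := Nat.find_min hex (m := J - 1) (by omega)
    push Not at this
    exact this
  have hJ3 : 1 / 3 * 2 ^ J < |ξ| := by
    have e : (2 : ℝ) ^ J = 2 * 2 ^ (J - 1) := by
      rw [← pow_succ']
      congr 1
      omega
    rw [e]
    linarith
  have hp : (0 : ℝ) < 2 ^ J := by positivity
  obtain ⟨n, e, he, hx⟩ : ∃ (n : ℤ) (e : ℝ), |e| ≤ 1 / 6 ∧ ξ / 2 ^ J = n + 1 / 2 + e := by
    rcases le_total 0 ξ with h | h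
    · rw [abs_of_nonneg h] at hJ1 hJ3
      refine ⟨0, ξ / 2 ^ J - 1 / 2, ?_, by push_cast; ring⟩
      have h1 : ξ / 2 ^ J ≤ 2 / 3 := by rw [div_le_iff₀ hp]; exact hJ1
      have h2 : 1 / 3 < ξ / 2 ^ J := by rw [lt_div_iff₀ hp]; exact hJ3
      rw [abs_le]
      constructor <;> linarith
    · rw [abs_of_nonpos h] at hJ1 hJ3
      refine ⟨-1, ξ / 2 ^ J + 1 / 2, ?_, by push_cast; ring⟩
      have h1 : -(2 / 3) ≤ ξ / 2 ^ J := by rw [le_div_iff₀ hp]; linarith
      have h2 : ξ / 2 ^ J < -(1 / 3) := by rw [div_lt_iff₀ hp]; linarith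
      rw [abs_le]
      constructor <;> linarith
  by_cases hA : ∀ p : ℕ, ¬ (9 / 100 ≤ 2 ^ p * e ∧ 2 ^ p * e ≤ 12 / 100)
  · refine ⟨J, hJ0, fun i _ => ?_⟩
    rw [zero_at hD hZ i n e _ he hx hA, abs_zero, zero_mul]
    exact hCs
  push Not at hA
  obtain ⟨p, hp1, hp2⟩ := hA
  by_cases hB : p + 2 < J
  · refine ⟨J - (p + 2), by omega, fun i _ => ?_⟩
    have hq : ξ / 2 ^ (J - (p + 2)) = 2 ^ (p + 2) * (ξ / 2 ^ J) := by
      have : (2 : ℝ) ^ J = 2 ^ (J - (p + 2)) * 2 ^ (p + 2) := by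
        rw [← pow_add]
        congr 1
        omega
      rw [this]
      field_simp
    have h4 : (2 : ℝ) ^ (p + 2) * e = 4 * (2 ^ p * e) := by ring
    rw [zero_at hD hZ i (2 ^ (p + 2) * n + 2 ^ (p + 1)) (2 ^ (p + 2) * e - 1 / 2) _ ?_ ?_ ?_,
      abs_zero, zero_mul]
    · exact hCs
    · rw [h4, abs_le]
      constructor <;> linarith
    · rw [hq, hx]
      push_cast
      ring
    · intro j hj
      have h5 : (2 : ℝ) ^ (p + 2) * e - 1 / 2 < 0 := by rw [h4]; linarith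
      have h6 : (2 : ℝ) ^ j * (2 ^ (p + 2) * e - 1 / 2) < 0 :=
        mul_neg_of_pos_of_neg (by positivity) h5
      linarith [hj.1]
  · refine ⟨J, hJ0, fun i hi => ?_⟩
    rw [hx, hD i n e he]
    have h7 : |e| * |ξ| ≤ 1 := by
      have he0 : 0 < e := by
        by_contra hc
        push Not at hc
        have : (2 : ℝ) ^ p * e ≤ 0 := mul_nonpos_of_nonneg_of_nonpos (by positivity) hc
        linarith
      rw [abs_of_pos he0]
      have h8 : (2 : ℝ) ^ J ≤ 2 ^ (p + 2) := pow_le_pow_right₀ (by norm_num) (by omega)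
      calc e * |ξ| ≤ e * (2 / 3 * 2 ^ J) := by gcongr
        _ ≤ e * (2 / 3 * 2 ^ (p + 2)) := by gcongr
        _ = 8 / 3 * (2 ^ p * e) := by ring
        _ ≤ 1 := by linarith
    have h9 := hC i e (by linarith)
    calc |iteratedDeriv i (fun y => Real.sin (kap0 y)) e| * |ξ| ^ N
        ≤ C i * |e| ^ N * |ξ| ^ N := by gcongr
      _ = C i * (|e| * |ξ|) ^ N := by rw [mul_pow, mul_assoc]
      _ ≤ C i * 1 := by
          gcongr
          · exact hC0 i
          · exact pow_le_one₀ (by positivity) h7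
      _ ≤ ∑ i ∈ Finset.range (k + 1), C i := by
          rw [mul_one]
          exact Finset.single_le_sum (f := C) (fun i _ => hC0 i) (Finset.mem_range.2 (by omega))

end Pool.Agent.Q85.SW.TaskFlat
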