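import Pool.Agent.Q85.SW.Stmts

open Filter Topology Set Pool.Agent.Q85.SW
open scoped ContDiff

namespace Pool.Agent.Q85.SW.TaskFlatGen

theorem main : Pool.Agent.Q85.SW.TaskFlatGen := by
  intro f hf h0 i N
  induction N generalizing i with
  | zero =>
    have hc : Continuous (iteratedDeriv i f) := hf.continuous_iteratedDeriv i (by exact_mod_cast le_top)
    obtain ⟨C, hC⟩ := (isCompact_Icc (a := (-1:ℝ)) (b := 1)).exists_bound_of_continuousOn
      hc.continuousOn
    refine ⟨|C|, abs_nonneg _, fun x hx => ?_⟩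
    have h1 := hC x (abs_le.1 hx)
    rw [Real.norm_eq_abs] at h1
    rw [pow_zero, mul_one]
    exact h1.trans (le_abs_self C)
  | succ N ih =>
    obtain ⟨C, hC0, hC⟩ := ih (i + 1)
    refine ⟨C, hC0, fun x hx => ?_⟩
    have hc : Continuous (iteratedDeriv i f) := hf.continuous_iteratedDeriv i (by exact_mod_cast le_top)
    have hg : Differentiable ℝ (iteratedDeriv i f) :=
      hf.differentiable_iteratedDeriv i (by exact_mod_cast WithTop.coe_lt_top _)
    have hz : ∀ x < 0, iteratedDeriv i f x = 0 := by
      intro x hx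
      have h1 : f =ᶠ[𝓝 x] fun _ => (0 : ℝ) := by
        filter_upwards [Iio_mem_nhds hx] with y hy using h0 y (le_of_lt hy)
      rw [h1.iteratedDeriv_eq i]
      simp
    have hg0 : iteratedDeriv i f 0 = 0 := by
      have h2 : closure (Iio (0:ℝ)) ⊆ {x | iteratedDeriv i f x = 0} :=
        closure_minimal (fun x hx => hz x hx) (isClosed_eq hc continuous_const)
      rw [closure_Iio] at h2
      exact h2 (mem_Iic.2 (le_refl (0:ℝ)))
    have h3 := Convex.norm_image_sub_le_of_norm_deriv_le (f := iteratedDeriv i f)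
      (s := Metric.closedBall (0:ℝ) |x|) (x := 0) (y := x) (C := C * |x| ^ N)
      (fun y _ => hg y) (fun y hy => by
        rw [← iteratedDeriv_succ, Real.norm_eq_abs]
        rw [Metric.mem_closedBall, dist_zero_right, Real.norm_eq_abs] at hy
        refine (hC y (hy.trans hx)).trans ?_
        exact mul_le_mul_of_nonneg_left (pow_le_pow_left₀ (abs_nonneg _) hy N) hC0)
      (convex_closedBall _ _) (by simp) (by simp)
    rw [hg0, sub_zero, sub_zero, Real.norm_eq_abs, Real.norm_eq_abs] at h3
    rw [pow_succ]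
    linarith

end Pool.Agent.Q85.SW.TaskFlatGen
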