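import Pool.Agent.Q85.SW.Stmts

set_option autoImplicit false

open MeasureTheory Filter Topology Set
open scoped SchwartzMap FourierTransform ContDiff Real

noncomputable section

namespace Pool.Agent.Q85.SW.TaskFou

open Pool.Agent.Q85.SW

lemma summ (f : C(ℝ, ℂ)) (hc : HasCompactSupport f) (K : TopologicalSpace.Compacts ℝ) :
    Summable fun n : ℤ => ‖(f.comp (ContinuousMap.addRight (n : ℝ))).restrict K‖ := by
  obtain ⟨R, hR⟩ := K.isCompact.isBounded.subset_closedBall (0 : ℝ)
  obtain ⟨M, hM⟩ := hc.isCompact.isBounded.subset_closedBall (0 : ℝ)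
  obtain ⟨N, hN⟩ := exists_nat_gt (R + M)
  refine summable_of_ne_finset_zero (s := Finset.Icc (-(N : ℤ)) N) fun n hn => ?_
  rw [norm_eq_zero]
  ext x
  simp only [ContinuousMap.restrict_apply, ContinuousMap.comp_apply, ContinuousMap.coe_addRight,
    ContinuousMap.zero_apply]
  by_contra h
  have h1 : (x : ℝ) + n ∈ Metric.closedBall (0 : ℝ) M :=
    hM (subset_tsupport _ (Function.mem_support.2 h))
  have h2 : (x : ℝ) ∈ Metric.closedBall (0 : ℝ) R := hR x.2
  rw [mem_closedBall_zero_iff, Real.norm_eq_abs] at h1 h2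
  have h3 : |(n : ℝ)| < N := by
    have : (n : ℝ) = ((x : ℝ) + n) - x := by ring
    rw [this]
    have := abs_sub ((x : ℝ) + n) x
    linarith
  apply hn
  rw [abs_lt] at h3
  rw [Finset.mem_Icc]
  constructor
  · have : (-(N : ℤ) : ℝ) < n := by push_cast; linarith [h3.1]
    exact_mod_cast this.le
  · exact_mod_cast h3.2.le

theorem main : Pool.Agent.Q85.SW.TaskFou := by
  intro u hu hc
  obtain ⟨f, rfl⟩ : ∃ f : C(ℝ, ℂ), u = f := ⟨⟨u, hu⟩, rfl⟩
  have hf := summ f hc
  have hper : ∀ x, per f x = (∑' n : ℤ, f.comp (ContinuousMap.addRight (n : ℝ))) x := by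
    intro x
    rw [← ContinuousMap.tsum_apply (ContinuousMap.summable_of_locally_summable_norm hf)]
    rfl
  have hcont : Continuous (per f) := by
    have : per f = ⇑(∑' n : ℤ, f.comp (ContinuousMap.addRight (n : ℝ))) := funext hper
    rw [this]
    exact map_continuous _
  obtain ⟨C, hC⟩ := (isCompact_Icc (a := (0 : ℝ)) (b := 1)).exists_bound_of_continuousOn
    hcont.continuousOn
  have hL : MemLp (per f) 2 (volume.restrict (Ioc (0 : ℝ) 1)) :=
    MemLp.of_bound hcont.aestronglyMeasurable C ((ae_restrict_iff' measurableSet_Ioc).2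
      (Eventually.of_forall fun x hx => hC x (Ioc_subset_Icc_self hx)))
  have h := hasSum_sq_fourierCoeffOn (zero_lt_one : (0 : ℝ) < 1) hL
  have hk : ∀ m : ℤ, fourierCoeffOn (zero_lt_one : (0 : ℝ) < 1) (per f) m =
      ∫ x, f x * Complex.exp (2 * π * ((-m : ℤ) : ℂ) * x * Complex.I) := by
    intro m
    have h1 := Real.fourierCoeff_tsum_comp_add hf m
    rw [fourierCoeff_eq_intervalIntegral _ m 0] at h1
    rw [fourierCoeffOn_eq_integral]
    have h2 : (∫ x, f x * Complex.exp (2 * π * ((-m : ℤ) : ℂ) * x * Complex.I)) =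
        𝓕 (f : ℝ → ℂ) m := by
      rw [Real.fourier_real_eq_integral_exp_smul]
      congr 1
      funext x
      rw [smul_eq_mul, mul_comm]
      refine congrArg (fun z => z * f x) (congrArg Complex.exp ?_)
      push_cast
      ring
    rw [h2, ← h1]
    simp only [zero_add, sub_zero]
    congr 1
    refine intervalIntegral.integral_congr fun x _ => ?_
    simp only [Function.Periodic.lift_coe, zsmul_one]
    rw [hper x]
    simp only [fourier_coe_apply, sub_zero]
  have h3 := (Equiv.neg ℤ).hasSum_iff.2 h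
  convert h3 using 1
  · funext k
    rw [Function.comp_apply, Equiv.neg_apply, hk, neg_neg]
  · simp

end Pool.Agent.Q85.SW.TaskFou
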