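import Mathlib
import Pool.Agent.Q85.SW.Stmts

set_option autoImplicit false

open MeasureTheory Filter Topology Set
open scoped ContDiff Real
open Pool.Agent.Q85.SW

noncomputable section

namespace Pool.Agent.Q85.SW.TaskGNorm

theorem main (hN : TaskHNorm) (hR : TaskRef) (hM : TaskMPer) : TaskGNorm := by
  have hN' : ∫ x, h x ^ 2 = 1 := hN
  have hint : Integrable (fun x => h x ^ 2) := by
    by_contra hc
    have := integral_undef hc
    rw [hN'] at this
    exact one_ne_zero this
  have key : ∀ x, ‖G x‖ ^ 2 = h (x / 2) ^ 2 - h x ^ 2 := by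
    intro x
    have h1 := hR (x / 2)
    have h2 : 2 * (x / 2) = x := by ring
    rw [h2] at h1
    have h3 := hM.2.2.1 (x / 2)
    have h4 : ‖G x‖ = |m (x / 2 + 1 / 2) * h (x / 2)| := by
      unfold G
      rw [norm_mul, Complex.norm_real, Real.norm_eq_abs]
      have : ‖Complex.exp (π * x * Complex.I)‖ = 1 := by
        have : (π * x * Complex.I : ℂ) = ((π * x : ℝ) : ℂ) * Complex.I := by push_cast; ring
        rw [this, Complex.norm_exp_ofReal_mul_I]
      rw [this, one_mul]
    rw [h4, sq_abs, h1]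
    have : m (x / 2 + 1 / 2) ^ 2 = 1 - m (x / 2) ^ 2 := by linarith
    rw [mul_pow, mul_pow, this]
    ring
  show ∫ x, ‖G x‖ ^ 2 = 1
  simp_rw [key]
  have hint2 : Integrable (fun x => h (x / 2) ^ 2) := hint.comp_div two_ne_zero
  rw [integral_sub hint2 hint]
  have h5 : ∫ x, h (x / 2) ^ 2 = 2 := by
    have := MeasureTheory.Measure.integral_comp_div (fun x => h x ^ 2) 2
    rw [this, hN']
    norm_num
  rw [h5, hN']
  norm_num

end Pool.Agent.Q85.SW.TaskGNorm
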