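import Pool.Agent.Q85.SW.Stmts

set_option autoImplicit false

open MeasureTheory Filter Topology Set
open scoped SchwartzMap FourierTransform ContDiff Real

noncomputable section

namespace Pool.Agent.Q85.SW.TaskGSchwartz

open Pool.Agent.Q85.SW

lemma iter_exp (n : ℕ) : iteratedDeriv n (fun x : ℝ => Complex.exp (π * x * Complex.I)) =
    fun x : ℝ => (π * Complex.I) ^ n * Complex.exp (π * x * Complex.I) := by
  induction n with
  | zero => simp
  | succ n ih =>
    rw [iteratedDeriv_succ, ih]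
    funext x
    have h1 : HasDerivAt (fun x : ℝ => (π : ℂ) * x * Complex.I) (π * 1 * Complex.I) x :=
      ((Complex.ofRealCLM.hasDerivAt (x := x)).const_mul (π : ℂ)).mul_const Complex.I
    have h2 := (h1.cexp).const_mul (((π : ℂ) * Complex.I) ^ n)
    rw [h2.deriv]
    ring

lemma tg_exp : (fun x : ℝ => Complex.exp (π * x * Complex.I)).HasTemperateGrowth := by
  have c0 : ContDiff ℝ ∞ (fun x : ℝ => Complex.exp (π * x * Complex.I)) := by
    have e1 : ContDiff ℝ ∞ (fun x : ℝ => (x : ℂ)) := Complex.ofRealCLM.contDiff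
    exact ((contDiff_const.mul e1).mul contDiff_const).cexp
  refine ⟨c0, fun n => ⟨0, π ^ n, fun x => ?_⟩⟩
  rw [norm_iteratedFDeriv_eq_norm_iteratedDeriv, iter_exp]
  have : ‖Complex.exp (π * x * Complex.I)‖ = 1 := by
    rw [Complex.norm_exp]; simp
  rw [norm_mul, this, norm_pow, norm_mul, Complex.norm_I, Complex.norm_real, Real.norm_eq_abs,
    abs_of_pos Real.pi_pos]
  simp

lemma tg_m (h1 : TaskMSmooth) (h2 : TaskMBd) : m.HasTemperateGrowth := by
  refine ⟨h1, fun n => ?_⟩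
  obtain ⟨C, -, hC⟩ := h2 n
  refine ⟨0, C, fun x => ?_⟩
  rw [norm_iteratedFDeriv_eq_norm_iteratedDeriv, pow_zero, mul_one]
  exact hC x

/-- the Schwartz function `h` -/
def hS (h1 : TaskHSmooth) (h2 : TaskHDecay) : 𝓢(ℝ, ℝ) where
  toFun := h
  smooth' := h1.1
  decay' := fun k n => by
    obtain ⟨C, hC⟩ := h2 n k
    refine ⟨C, fun x => ?_⟩
    rw [norm_iteratedFDeriv_eq_norm_iteratedDeriv]
    exact hC x

theorem main (h1 : TaskHSmooth) (h2 : TaskHDecay) (h3 : TaskMSmooth) (h4 : TaskMBd) :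
    Pool.Agent.Q85.SW.TaskGSchwartz := by
  have a1 : (fun x : ℝ => x / 2).HasTemperateGrowth := by
    have : (fun x : ℝ => x / 2) = fun x : ℝ => ((1 / 2 : ℝ) • ContinuousLinearMap.id ℝ ℝ) x := by
      funext x; simp; ring
    rw [this]
    exact ContinuousLinearMap.hasTemperateGrowth _
  have a2 : (fun x : ℝ => x / 2 + 1 / 2).HasTemperateGrowth :=
    a1.add (Function.HasTemperateGrowth.const (1 / 2))
  have a3 : (fun x : ℝ => m (x / 2 + 1 / 2)).HasTemperateGrowth := (tg_m h3 h4).comp a2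
  have a4 : (fun x : ℝ => ((m (x / 2 + 1 / 2) : ℝ) : ℂ)).HasTemperateGrowth :=
    Function.HasTemperateGrowth.comp (Complex.ofRealCLM.hasTemperateGrowth) a3
  have a5 : (fun x : ℝ => Complex.exp (π * x * Complex.I) * ((m (x / 2 + 1 / 2) : ℝ) : ℂ)).HasTemperateGrowth :=
    tg_exp.mul a4
  let e : ℝ ≃L[ℝ] ℝ := ContinuousLinearEquiv.unitsEquivAut ℝ (Units.mk0 (1 / 2 : ℝ) (by norm_num))
  let g : 𝓢(ℝ, ℝ) := SchwartzMap.compCLMOfContinuousLinearEquiv ℝ e (hS h1 h2)
  have hg : ∀ x, g x = h (x / 2) := by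
    intro x
    show h (e x) = h (x / 2)
    congr 1
    show x * (1 / 2) = x / 2
    ring
  let gc : 𝓢(ℝ, ℂ) := SchwartzMap.postcompCLM Complex.ofRealCLM g
  refine ⟨SchwartzMap.smulLeftCLM ℂ (fun x : ℝ => Complex.exp (π * x * Complex.I) * ((m (x / 2 + 1 / 2) : ℝ) : ℂ)) gc,
    fun x => ?_⟩
  rw [SchwartzMap.smulLeftCLM_apply_apply a5]
  have : gc x = ((h (x / 2) : ℝ) : ℂ) := by
    show ((g x : ℝ) : ℂ) = _
    rw [hg]
  rw [this, G, smul_eq_mul]
  push_cast
  ring

end Pool.Agent.Q85.SW.TaskGSchwartz
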