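import Pool.Agent.Q85.SW.Stmts

set_option autoImplicit false

open MeasureTheory Filter Topology Set
open scoped Real

namespace Pool.Agent.Q85.SW.TaskGSupp

theorem main (hRef : TaskRef) (hHPos : TaskHPos) (hMPos : TaskMPos) (hMZone : TaskMZone)
    (hMPer : TaskMPer) (hKap : TaskKapVal) (hEta : TaskEta) : Pool.Agent.Q85.SW.TaskGSupp := by
  obtain ⟨-, hE2, hE3, -⟩ := hEta
  obtain ⟨hK1, -, hK3, -, -⟩ := hKap
  have hEpos : 0 < eta (1 / 10) :=
    lt_of_le_of_ne (hE2 _).1 (Ne.symm ((hE3 _).2 ⟨by norm_num, by norm_num⟩))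
  have hkpos : ∀ n : ℕ, 0 < kap0 (1 / 10 / 2 ^ n) := by
    intro n
    have h2 : (2 : ℝ) ^ n * (1 / 10 / 2 ^ n) = 1 / 10 := by field_simp
    rw [hK1 n (1 / 10 / 2 ^ n) (by rw [h2]; norm_num) (by rw [h2]; norm_num), h2]
    unfold a
    positivity
  have hsin : ∀ n : ℕ, 0 < Real.sin (kap0 (1 / 10 / 2 ^ n)) := by
    intro n
    apply Real.sin_pos_of_pos_of_lt_pi (hkpos n)
    have := (hK3 (1 / 10 / 2 ^ n)).2
    linarith [Real.pi_gt_three]
  have hle : ∀ n : ℕ, (1 : ℝ) / 10 / 2 ^ n ≤ 1 / 10 := by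
    intro n
    apply div_le_self (by norm_num)
    exact one_le_pow₀ (by norm_num)
  have hge : ∀ n : ℕ, (0 : ℝ) < 1 / 10 / 2 ^ n := fun n => by positivity
  -- the filter at the points
  have hm : ∀ n i : ℕ, i < n → m (2 ^ i * (1 / 2 + 1 / 10 / 2 ^ n)) ≠ 0 := by
    intro n i hi
    rcases i with _ | k
    · have h1 := hMZone 0 (1 / 10 / 2 ^ n) (by
        rw [abs_of_pos (hge n)]; linarith [hle n])
      rw [pow_zero, one_mul]
      rw [Int.cast_zero, zero_add] at h1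
      rw [h1]
      exact (hsin n).ne'
    · obtain ⟨l, rfl⟩ := Nat.exists_eq_add_of_lt hi
      have h1 : (2 : ℝ) ^ (k + 1) * (1 / 2 + 1 / 10 / 2 ^ (k + 1 + l + 1)) =
          1 / 10 / 2 ^ (l + 1) + ((2 ^ k : ℤ) : ℝ) := by
        push_cast
        have h2 : (2 : ℝ) ^ k ≠ 0 := by positivity
        have h3 : (2 : ℝ) ^ l ≠ 0 := by positivity
        rw [show k + 1 + l + 1 = k + l + 2 by ring, pow_add, pow_add, pow_add, pow_add]
        field_simp
        ring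
      rw [h1, hMPer.2.1]
      exact (hMPos.2 _ (by rw [abs_of_pos (hge _)]; linarith [hle (l + 1)])).ne'
  have hh : ∀ n i : ℕ, i ≤ n → h (2 ^ i * (1 / 2 + 1 / 10 / 2 ^ n)) ≠ 0 ∨ n = 0 := by
    intro n i hi
    rcases Nat.eq_zero_or_pos n with h0 | h0
    · exact Or.inr h0
    left
    induction i with
    | zero =>
      rw [pow_zero, one_mul]
      refine (hHPos.2.2 _ ?_).ne'
      rw [abs_of_pos (by linarith [hge n])]
      linarith [hle n]
    | succ i ih =>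
      rw [pow_succ, mul_comm ((2 : ℝ) ^ i) 2, mul_assoc, hRef]
      exact mul_ne_zero (hm n i (by omega)) (ih (by omega))
  have hG : ∀ k : ℕ, G (2 * ((2 : ℝ) ^ k + 1 / 10)) ≠ 0 := by
    intro k
    have e1 : (2 : ℝ) ^ (k + 1) * (1 / 2 + 1 / 10 / 2 ^ (k + 1)) = 2 ^ k + 1 / 10 := by
      have h2 : (2 : ℝ) ^ k ≠ 0 := by positivity
      rw [pow_succ]
      field_simp
    have e2 : h ((2 : ℝ) ^ k + 1 / 10) ≠ 0 := by
      have := hh (k + 1) (k + 1) le_rfl
      rw [e1] at this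
      simpa using this
    have e3 : m ((2 : ℝ) ^ k + 1 / 10 + 1 / 2) ≠ 0 := by
      have h1 := hMZone (2 ^ k) (1 / 10) (by norm_num [abs_of_pos])
      push_cast at h1
      rw [show (2 : ℝ) ^ k + 1 / 10 + 1 / 2 = 2 ^ k + 1 / 2 + 1 / 10 by ring, h1]
      have := hsin 0
      simpa using this.ne'
    unfold G
    rw [mul_div_cancel_left₀ _ (two_ne_zero' ℝ)]
    refine mul_ne_zero (Complex.exp_ne_zero _) ?_
    exact_mod_cast mul_ne_zero e3 e2
  intro hc
  obtain ⟨R, hR, hR2⟩ := hc.exists_pos_le_norm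
  obtain ⟨k, hk⟩ := pow_unbounded_of_one_lt R (one_lt_two : (1 : ℝ) < 2)
  apply hG k
  apply hR2
  rw [Real.norm_eq_abs, abs_of_pos (by positivity)]
  linarith [pow_pos (two_pos : (0 : ℝ) < 2) k]

end Pool.Agent.Q85.SW.TaskGSupp
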