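import Pool.Agent.Q85.SW.Stmts

/-! # TaskHDecay: the derivatives of the Fourier transform of the scaling function decay fast (by helper252) -/

set_option autoImplicit false

open MeasureTheory Filter Topology Set
open scoped ContDiff Real

namespace Pool.Agent.Q85.SW.TaskHDecay
open Pool.Agent.Q85.SW

theorem le_J (k i : ℕ) (hi : i ≤ k) (f : ℝ → ℝ) (x : ℝ) :
    |iteratedDeriv i f x| ≤ (i.factorial : ℝ) * J k f x := by
  unfold J
  have hpos : (0 : ℝ) < (i.factorial : ℝ) := by exact_mod_cast Nat.factorial_pos i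
  have h1 : |iteratedDeriv i f x| / (i.factorial : ℝ) ≤
      ∑ i ∈ Finset.range (k + 1), |iteratedDeriv i f x| / (i.factorial : ℝ) :=
    Finset.single_le_sum (f := fun i : ℕ => |iteratedDeriv i f x| / (i.factorial : ℝ))
      (fun j _ => by positivity) (Finset.mem_range.2 (by omega))
  rw [div_le_iff₀ hpos] at h1
  rw [mul_comm]
  exact h1

theorem main (h1 : TaskHSmooth) (h2 : TaskJProd) (h3 : TaskJScale) (h4 : TaskFlat)
    (h5 : TaskMSmooth) : TaskHDecay := by
  intro i N
  obtain ⟨CP, hCP0, hCP⟩ := h2 i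
  obtain ⟨CF, hCF⟩ := h4 i N
  have hf0 : (0 : ℝ) ≤ (i.factorial : ℝ) * CP := by positivity
  have hf1 : (0 : ℝ) ≤ ((i : ℝ) + 1) * |CF| := by positivity
  refine ⟨(i.factorial : ℝ) * CP * (1 + ((i : ℝ) + 1) * |CF|), fun x => ?_⟩
  have hlim := h1.2 i x
  have hlim' : Tendsto (fun n => |x| ^ N * |iteratedDeriv i (P n) x|) atTop
      (𝓝 (|x| ^ N * |iteratedDeriv i h x|)) := (hlim.abs).const_mul _
  rcases lt_or_ge |x| 1 with hx | hx
  · refine le_of_tendsto' hlim' fun n => ?_
    have hJ := (hCP n x).1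
    calc |x| ^ N * |iteratedDeriv i (P n) x| ≤ 1 * ((i.factorial : ℝ) * J i (P n) x) := by
          apply mul_le_mul (pow_le_one₀ (abs_nonneg x) hx.le) (le_J i i le_rfl _ _)
            (abs_nonneg _) zero_le_one
      _ ≤ 1 * ((i.factorial : ℝ) * CP) := by gcongr
      _ ≤ (i.factorial : ℝ) * CP * (1 + ((i : ℝ) + 1) * |CF|) := by
          nlinarith [mul_nonneg hf0 hf1]
  · obtain ⟨j, hj1, hj⟩ := hCF x hx
    refine le_of_tendsto hlim' ?_
    filter_upwards [eventually_ge_atTop j] with n hn
    have hA := (hCP n x).2 j hj1 hn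
    have hB := (h3 m h5 i j x).2
    have hC : |x| ^ N * J i m (x / 2 ^ j) ≤ ((i : ℝ) + 1) * |CF| := by
      unfold J
      rw [Finset.mul_sum]
      calc ∑ l ∈ Finset.range (i + 1),
            |x| ^ N * (|iteratedDeriv l m (x / 2 ^ j)| / (l.factorial : ℝ))
          ≤ ∑ l ∈ Finset.range (i + 1), |CF| := by
            apply Finset.sum_le_sum
            intro l hl
            have hl' : l ≤ i := by have := Finset.mem_range.1 hl; omega
            have h6 := hj l hl'
            have hfl : (1 : ℝ) ≤ (l.factorial : ℝ) := by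
              exact_mod_cast Nat.one_le_iff_ne_zero.2 (Nat.factorial_ne_zero l)
            calc |x| ^ N * (|iteratedDeriv l m (x / 2 ^ j)| / (l.factorial : ℝ))
                ≤ |x| ^ N * |iteratedDeriv l m (x / 2 ^ j)| :=
                  mul_le_mul_of_nonneg_left (div_le_self (abs_nonneg _) hfl) (by positivity)
              _ = |iteratedDeriv l m (x / 2 ^ j)| * |x| ^ N := mul_comm _ _
              _ ≤ CF := h6
              _ ≤ |CF| := le_abs_self _
        _ = ((i : ℝ) + 1) * |CF| := by
            rw [Finset.sum_const, Finset.card_range, nsmul_eq_mul]; push_cast; ring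
    calc |x| ^ N * |iteratedDeriv i (P n) x|
        ≤ |x| ^ N * ((i.factorial : ℝ) * J i (P n) x) :=
          mul_le_mul_of_nonneg_left (le_J i i le_rfl _ _) (by positivity)
      _ ≤ |x| ^ N * ((i.factorial : ℝ) * (CP * J i m (x / 2 ^ j))) := by
          refine mul_le_mul_of_nonneg_left (mul_le_mul_of_nonneg_left ?_ (by positivity))
            (by positivity)
          exact hA.trans (mul_le_mul_of_nonneg_left hB hCP0)
      _ = (i.factorial : ℝ) * CP * (|x| ^ N * J i m (x / 2 ^ j)) := by ring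
      _ ≤ (i.factorial : ℝ) * CP * (((i : ℝ) + 1) * |CF|) :=
          mul_le_mul_of_nonneg_left hC hf0
      _ ≤ (i.factorial : ℝ) * CP * (1 + ((i : ℝ) + 1) * |CF|) :=
          mul_le_mul_of_nonneg_left (by linarith) hf0

end Pool.Agent.Q85.SW.TaskHDecay
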