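import Pool.Agent.Q85.SW.Stmts

set_option autoImplicit false

open MeasureTheory Filter Topology Set
open scoped Real

namespace Pool.Agent.Q85.SW.TaskHNorm

open Pool.Agent.Q85.SW

theorem factor (hRef : TaskRef) (n : ℕ) (x : ℝ) : h x = P n x * h (x / 2 ^ n) := by
  induction n with
  | zero => simp [P]
  | succ n ih =>
    have e : x / 2 ^ n = 2 * (x / 2 ^ (n + 1)) := by
      rw [pow_succ]
      field_simp
    have h2 : h (x / 2 ^ n) = m (x / 2 ^ (n + 1)) * h (x / 2 ^ (n + 1)) := by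
      rw [e]
      exact hRef _
    have h3 : P (n + 1) x = P n x * m (x / 2 ^ (n + 1)) := by
      unfold P
      rw [Finset.prod_range_succ]
    calc h x = P n x * h (x / 2 ^ n) := ih
      _ = _ := by rw [h2, h3]; ring

theorem main (hPInt : TaskPInt) (hLim : TaskLim) (hHPos : TaskHPos) (hHS : TaskHSmooth)
    (hRef : TaskRef) (hDec : TaskHDecay) : Pool.Agent.Q85.SW.TaskHNorm := by
  have hcont : Continuous h := hHS.1.continuous
  obtain ⟨h0, -, hpos⟩ := hHPos
  -- lower bound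
  obtain ⟨x0, hx0, hmin⟩ := (isCompact_Icc (a := (-(1 / 2) : ℝ)) (b := 1 / 2)).exists_isMinOn
    ⟨0, by norm_num, by norm_num⟩ hcont.continuousOn
  have hc0 : 0 < h x0 := hpos x0 (by rw [abs_lt]; constructor <;> linarith [hx0.1, hx0.2])
  obtain ⟨c, hc⟩ : ∃ c, h x0 = c := ⟨_, rfl⟩
  rw [hc] at hc0
  have hlow : ∀ y : ℝ, -(1 / 2) ≤ y → y ≤ 1 / 2 → c ≤ h y := by
    intro y h1 h2
    rw [← hc]
    exact hmin ⟨h1, h2⟩
  have hscale : ∀ (n : ℕ) (x : ℝ), x ∈ Ioc (-(2 ^ n / 2 : ℝ)) (2 ^ n / 2) → c ≤ h (x / 2 ^ n) := by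
    intro n x hx
    have h2 : (0 : ℝ) < 2 ^ n := by positivity
    apply hlow
    · rw [le_div_iff₀ h2]
      linarith [hx.1]
    · rw [div_le_iff₀ h2]
      linarith [hx.2]
  -- the sequence
  set F : ℕ → ℝ → ℝ := fun n => (Ioc (-(2 ^ n / 2 : ℝ)) (2 ^ n / 2)).indicator
    (fun x => (h x / h (x / 2 ^ n)) ^ 2) with hF
  have hFP : ∀ (n : ℕ) (x : ℝ), x ∈ Ioc (-(2 ^ n / 2 : ℝ)) (2 ^ n / 2) →
      (h x / h (x / 2 ^ n)) ^ 2 = P n x ^ 2 := by
    intro n x hx
    have h1 := hscale n x hx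
    have h2 : h (x / 2 ^ n) ≠ 0 := by linarith
    rw [eq_comm, factor hRef n x, mul_div_assoc, div_self h2, mul_one]
  have hint : ∀ n, ∫ x, F n x = 1 := by
    intro n
    rw [← hPInt n, intervalIntegral.integral_of_le (by linarith [show (0 : ℝ) < 2 ^ n by positivity]),
      hF]
    simp only
    rw [integral_indicator measurableSet_Ioc]
    exact setIntegral_congr_fun measurableSet_Ioc fun x hx => hFP n x hx
  obtain ⟨C0, hC0⟩ := hDec 0 0
  obtain ⟨C1, hC1⟩ := hDec 0 1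
  simp only [pow_zero, one_mul, pow_one, iteratedDeriv_zero] at hC0 hC1
  have hbd : ∀ x, h x ^ 2 ≤ (C0 ^ 2 + C1 ^ 2) * (1 + x ^ 2)⁻¹ := by
    intro x
    have h1 : 0 < 1 + x ^ 2 := by positivity
    rw [← div_eq_mul_inv, le_div_iff₀ h1]
    have a1 : h x ^ 2 ≤ C0 ^ 2 := by
      rw [← sq_abs]
      exact pow_le_pow_left₀ (abs_nonneg _) (hC0 x) 2
    have a2 : (|x| * |h x|) ^ 2 ≤ C1 ^ 2 := pow_le_pow_left₀ (by positivity) (hC1 x) 2
    rw [mul_pow, sq_abs, sq_abs] at a2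
    linarith
  have hFb : ∀ n x, ‖F n x‖ ≤ (1 / c ^ 2 * (C0 ^ 2 + C1 ^ 2)) * (1 + x ^ 2)⁻¹ := by
    intro n x
    have h1 : 0 < 1 + x ^ 2 := by positivity
    simp only [hF]
    by_cases hx : x ∈ Ioc (-(2 ^ n / 2 : ℝ)) (2 ^ n / 2)
    · rw [indicator_of_mem hx, Real.norm_eq_abs, abs_of_nonneg (by positivity), div_pow]
      have h2 := hscale n x hx
      have h3 : c ^ 2 ≤ h (x / 2 ^ n) ^ 2 := pow_le_pow_left₀ hc0.le h2 2
      calc h x ^ 2 / h (x / 2 ^ n) ^ 2 ≤ h x ^ 2 / c ^ 2 :=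
            div_le_div_of_nonneg_left (by positivity) (by positivity) h3
        _ = 1 / c ^ 2 * h x ^ 2 := by ring
        _ ≤ 1 / c ^ 2 * ((C0 ^ 2 + C1 ^ 2) * (1 + x ^ 2)⁻¹) :=
            mul_le_mul_of_nonneg_left (hbd x) (by positivity)
        _ = _ := by ring
    · rw [indicator_of_notMem hx, norm_zero]
      positivity
  have hlim : Tendsto (fun n => ∫ x, F n x) atTop (𝓝 (∫ x, h x ^ 2)) := by
    refine tendsto_integral_of_dominated_convergence
      (fun x => (1 / c ^ 2 * (C0 ^ 2 + C1 ^ 2)) * (1 + x ^ 2)⁻¹) ?_ ?_ ?_ ?_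
    · intro n
      refine Measurable.aestronglyMeasurable ?_
      refine Measurable.indicator ?_ measurableSet_Ioc
      have m1 : Measurable fun x : ℝ => h (x / 2 ^ n) :=
        (hcont.comp (continuous_id.div_const _)).measurable
      exact (hcont.measurable.div m1).pow_const 2
    · exact integrable_inv_one_add_sq.const_mul _
    · intro n
      exact Eventually.of_forall (hFb n)
    · refine Eventually.of_forall fun x => ?_
      have h1 : Tendsto (fun n => P n x ^ 2) atTop (𝓝 (h x ^ 2)) := (hLim x).pow 2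
      refine h1.congr' ?_
      have h2 : Tendsto (fun n : ℕ => (2 : ℝ) ^ n / 2) atTop atTop :=
        (tendsto_pow_atTop_atTop_of_one_lt one_lt_two).atTop_div_const two_pos
      filter_upwards [h2.eventually_gt_atTop |x|] with n hn
      have hx : x ∈ Ioc (-(2 ^ n / 2 : ℝ)) (2 ^ n / 2) := by
        rw [abs_lt] at hn
        exact ⟨hn.1, hn.2.le⟩
      simp only [hF]
      rw [indicator_of_mem hx, hFP n x hx]
  have h1 : Tendsto (fun n => ∫ x, F n x) atTop (𝓝 1) := by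
    simp only [hint]
    exact tendsto_const_nhds
  exact tendsto_nhds_unique hlim h1

end Pool.Agent.Q85.SW.TaskHNorm
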