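import Pool.Agent.Q85.SW.Stmts

set_option autoImplicit false

open MeasureTheory Filter Topology Set
open scoped ContDiff Real

namespace Pool.Agent.Q85.SW.TaskHPos

open Pool.Agent.Q85.SW

theorem main (hLim : TaskLim) (hSm : TaskHSmooth) (hRef : TaskRef) (hMPos : TaskMPos)
    (hMPer : TaskMPer) : Pool.Agent.Q85.SW.TaskHPos := by
  have h0 : h 0 = 1 := by
    have h1 := hLim 0
    have h2 : ∀ n, P n 0 = 1 := by
      intro n
      unfold P
      refine Finset.prod_eq_one fun j _ => ?_
      rw [zero_div]
      exact hMPos.1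
    simp only [h2] at h1
    exact tendsto_nhds_unique h1 tendsto_const_nhds
  refine ⟨h0, ?_, ?_⟩
  · intro x
    refine le_of_tendsto' (hLim x).abs fun n => ?_
    unfold P
    rw [Finset.abs_prod]
    exact Finset.prod_le_one (fun _ _ => abs_nonneg _) fun _ _ => hMPer.2.2.2 _
  · have hc : ContinuousAt h 0 := hSm.1.continuous.continuousAt
    have hev : ∀ᶠ y in 𝓝 (0 : ℝ), 0 < h y := by
      refine hc.eventually (lt_mem_nhds ?_)
      rw [h0]
      norm_num
    have key : ∀ (n : ℕ) (x : ℝ), |x| < 2 / 3 → 0 < h (x / 2 ^ n) → 0 < h x := by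
      intro n
      induction n with
      | zero => intro x _ hx; simpa using hx
      | succ n ih =>
        intro x hx hpos
        have hx2 : |x / 2| < 1 / 3 := by
          rw [abs_div, abs_of_pos (by norm_num : (0 : ℝ) < 2)]
          linarith
        have h1 : 0 < h (x / 2) := by
          refine ih (x / 2) (by linarith) ?_
          have e : x / 2 / 2 ^ n = x / 2 ^ (n + 1) := by
            rw [div_div, ← pow_succ']
          rw [e]
          exact hpos
        have h2 := hRef (x / 2)
        rw [mul_div_cancel₀ x (by norm_num : (2 : ℝ) ≠ 0)] at h2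
        rw [h2]
        exact mul_pos (hMPos.2 _ hx2) h1
    intro x hx
    have ht : Tendsto (fun n : ℕ => x / 2 ^ n) atTop (𝓝 0) := by
      have h1 : Tendsto (fun n : ℕ => x * (1 / 2 : ℝ) ^ n) atTop (𝓝 (x * 0)) :=
        (tendsto_pow_atTop_nhds_zero_of_lt_one (by norm_num) (by norm_num)).const_mul x
      rw [mul_zero] at h1
      refine h1.congr fun n => ?_
      rw [one_div, inv_pow, div_eq_mul_inv]
    obtain ⟨n, hn⟩ := (ht.eventually hev).exists
    exact key n x hx hn

end Pool.Agent.Q85.SW.TaskHPos
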