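import Pool.Agent.Q85.SW.Stmts

set_option autoImplicit false

open MeasureTheory Filter Topology Set
open scoped SchwartzMap FourierTransform ContDiff Real

namespace Pool.Agent.Q85.SW.TaskHSmooth

open Pool.Agent.Q85.SW

theorem main (h1 : TaskSeq) (h2 : TaskLim) (h3 : TaskDiffBd) (h4 : TaskMSmooth) : TaskHSmooth := by
  refine h1 P h ?_ h2 h3
  intro n
  show ContDiff ℝ ∞ (fun x => ∏ j ∈ Finset.range n, m (x / 2 ^ (j + 1)))
  refine contDiff_prod fun j _ => ?_
  have h5 : ContDiff ℝ ∞ m := h4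
  have h6 : ContDiff ℝ ∞ (fun x : ℝ => x / 2 ^ (j + 1)) := contDiff_id.div_const _
  exact ContDiff.comp (g := m) h5 h6

end Pool.Agent.Q85.SW.TaskHSmooth
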