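import Pool.Agent.Q85.SW.Stmts

set_option autoImplicit false

open MeasureTheory Filter Topology Set
open scoped ContDiff

noncomputable section

namespace Pool.Agent.Q85.SW.TaskJMul

open Pool.Agent.Q85.SW

theorem conv_le (a b : ℕ → ℝ) (ha : ∀ i, 0 ≤ a i) (hb : ∀ i, 0 ≤ b i) (n : ℕ) :
    ∑ i ∈ Finset.range n, ∑ l ∈ Finset.range (i + 1), a l * b (i - l) ≤
      (∑ l ∈ Finset.range n, a l) * ∑ r ∈ Finset.range n, b r := by
  rw [Finset.sum_range_diag_flip n (fun l r => a l * b r), Finset.sum_mul_sum]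
  refine Finset.sum_le_sum fun l _ => ?_
  exact Finset.sum_le_sum_of_subset_of_nonneg (Finset.range_mono (Nat.sub_le n l))
    fun r _ _ => mul_nonneg (ha l) (hb r)

theorem leib (f g : ℝ → ℝ) (hf : ContDiff ℝ ∞ f) (hg : ContDiff ℝ ∞ g) (i : ℕ) (x : ℝ) :
    |iteratedDeriv i (fun y => f y * g y) x| / (i.factorial : ℝ) ≤
      ∑ l ∈ Finset.range (i + 1), (|iteratedDeriv l f x| / (l.factorial : ℝ)) *
        (|iteratedDeriv (i - l) g x| / ((i - l).factorial : ℝ)) := by
  have hi : (0 : ℝ) < (i.factorial : ℝ) := by exact_mod_cast i.factorial_pos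
  have hf' : ContDiffAt ℝ i f x := (hf.of_le (by exact_mod_cast le_top)).contDiffAt
  have hg' : ContDiffAt ℝ i g x := (hg.of_le (by exact_mod_cast le_top)).contDiffAt
  rw [iteratedDeriv_fun_mul hf' hg', div_le_iff₀ hi, Finset.sum_mul]
  refine (Finset.abs_sum_le_sum_abs _ _).trans (Finset.sum_le_sum fun l hl => le_of_eq ?_)
  have hl' : l ≤ i := Nat.lt_succ_iff.1 (Finset.mem_range.1 hl)
  have h1 : (l.factorial : ℝ) ≠ 0 := by exact_mod_cast l.factorial_ne_zero
  have h2 : ((i - l).factorial : ℝ) ≠ 0 := by exact_mod_cast (i - l).factorial_ne_zero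
  have h3 : (i.factorial : ℝ) = (i.choose l : ℝ) * l.factorial * (i - l).factorial := by
    exact_mod_cast (Nat.choose_mul_factorial_mul_factorial hl').symm
  rw [abs_mul, abs_mul, Nat.abs_cast, h3]
  field_simp

theorem main : Pool.Agent.Q85.SW.TaskJMul := by
  intro f g hf hg k x
  unfold J
  refine (Finset.sum_le_sum fun i _ => leib f g hf hg i x).trans ?_
  exact conv_le (fun l => |iteratedDeriv l f x| / (l.factorial : ℝ))
    (fun r => |iteratedDeriv r g x| / (r.factorial : ℝ)) (fun i => by positivity)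
    (fun i => by positivity) (k + 1)

end Pool.Agent.Q85.SW.TaskJMul
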