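import Pool.Agent.Q85.SW.Stmts

/-! MP_27eeb4_an, blueprint of helper85: bounds for the partial products. -/

set_option autoImplicit false

namespace Pool.Agent.Q85.SW.TaskJProd

open Pool.Agent.Q85.SW
open scoped ContDiff

theorem J_nonneg (k : ℕ) (f : ℝ → ℝ) (x : ℝ) : 0 ≤ J k f x := by
  unfold J
  exact Finset.sum_nonneg fun i _ => by positivity

theorem J_one (k : ℕ) (x : ℝ) : J k (fun _ => (1 : ℝ)) x ≤ 1 := by
  unfold J
  rw [Finset.sum_range_succ']
  have h0 : ∑ i ∈ Finset.range k, |iteratedDeriv (i + 1) (fun _ : ℝ => (1 : ℝ)) x| /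
      ((i + 1).factorial : ℝ) = 0 := by
    refine Finset.sum_eq_zero fun i _ => ?_
    rw [iteratedDeriv_const]
    simp
  rw [h0]
  simp

theorem half_sum (n : ℕ) : ∑ i ∈ Finset.range n, (1 / 2 : ℝ) ^ (i + 1) = 1 - (1 / 2) ^ n := by
  induction n with
  | zero => simp
  | succ n ih => rw [Finset.sum_range_succ, ih]; ring

theorem main (hMul : TaskJMul) (hScale : TaskJScale) (hSm : TaskMSmooth) (hBd : TaskMBd)
    (hPer : TaskMPer) : Pool.Agent.Q85.SW.TaskJProd := by
  intro k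
  choose C hC0 hC using hBd
  set K : ℝ := ∑ i ∈ Finset.range (k + 1), C i / (i.factorial : ℝ) with hK
  have hK0 : 0 ≤ K := Finset.sum_nonneg fun i _ => div_nonneg (hC0 i) (by positivity)
  have hJm : ∀ y, J k m y ≤ K := fun y =>
    Finset.sum_le_sum fun i _ => div_le_div_of_nonneg_right (hC i y) (by positivity)
  have hf : ∀ (i : ℕ) (x : ℝ),
      J k (fun y => m (y / 2 ^ (i + 1))) x ≤ Real.exp (K * (1 / 2) ^ (i + 1)) := by
    intro i x
    have h1 := (hScale m hSm k (i + 1) x).1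
    have h2 : |m (x / 2 ^ (i + 1))| ≤ 1 := hPer.2.2.2 _
    have h3 : (1 / 2 : ℝ) ^ (i + 1) * J k m (x / 2 ^ (i + 1)) ≤ (1 / 2) ^ (i + 1) * K :=
      mul_le_mul_of_nonneg_left (hJm _) (by positivity)
    have h4 := Real.add_one_le_exp (K * (1 / 2) ^ (i + 1))
    linarith
  have hsm : ∀ i : ℕ, ContDiff ℝ ∞ (fun y : ℝ => m (y / 2 ^ (i + 1))) := by
    intro i
    have h1 : ContDiff ℝ ∞ m := hSm
    have h2 : ContDiff ℝ ∞ (fun y : ℝ => y / 2 ^ (i + 1)) := contDiff_id.div_const _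
    exact ContDiff.comp (g := m) (f := fun y : ℝ => y / 2 ^ (i + 1)) h1 h2
  have hsmp : ∀ s : Finset ℕ, ContDiff ℝ ∞ (fun y : ℝ => ∏ i ∈ s, m (y / 2 ^ (i + 1))) :=
    fun s => contDiff_prod fun i _ => hsm i
  have hA : ∀ (s : Finset ℕ) (x : ℝ), J k (fun y => ∏ i ∈ s, m (y / 2 ^ (i + 1))) x
      ≤ ∏ i ∈ s, Real.exp (K * (1 / 2) ^ (i + 1)) := by
    intro s x
    induction s using Finset.induction_on with
    | empty => simpa using J_one k x
    | insert a s ha ih =>
      have heq : (fun y => ∏ i ∈ insert a s, m (y / 2 ^ (i + 1)))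
          = fun y => m (y / 2 ^ (a + 1)) * ∏ i ∈ s, m (y / 2 ^ (i + 1)) := by
        funext y
        rw [Finset.prod_insert ha]
      rw [heq, Finset.prod_insert ha]
      exact (hMul _ _ (hsm a) (hsmp s) k x).trans
        (mul_le_mul (hf a x) ih (J_nonneg _ _ _) (Real.exp_pos _).le)
  have hB : ∀ (n : ℕ) (s : Finset ℕ), s ⊆ Finset.range n →
      ∏ i ∈ s, Real.exp (K * (1 / 2) ^ (i + 1)) ≤ Real.exp K := by
    intro n s hs
    rw [← Real.exp_sum]
    apply Real.exp_le_exp.2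
    rw [← Finset.mul_sum]
    have h1 : ∑ i ∈ s, (1 / 2 : ℝ) ^ (i + 1) ≤ 1 := by
      refine (Finset.sum_le_sum_of_subset_of_nonneg hs fun i _ _ => by positivity).trans ?_
      rw [half_sum]
      have : (0 : ℝ) ≤ (1 / 2) ^ n := by positivity
      linarith
    nlinarith
  refine ⟨Real.exp K, (Real.exp_pos _).le, fun n x => ⟨?_, fun j hj1 hjn => ?_⟩⟩
  · exact (hA (Finset.range n) x).trans (hB n _ (Finset.Subset.refl _))
  · obtain ⟨p, rfl⟩ : ∃ p, j = p + 1 := ⟨j - 1, by omega⟩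
    have hp : p ∈ Finset.range n := Finset.mem_range.2 (by omega)
    have heq : P n = fun y => (∏ i ∈ (Finset.range n).erase p, m (y / 2 ^ (i + 1))) *
        m (y / 2 ^ (p + 1)) := by
      funext y
      unfold P
      rw [Finset.prod_erase_mul _ _ hp]
    rw [heq]
    refine (hMul _ _ (hsmp _) (hsm p) k x).trans ?_
    exact mul_le_mul_of_nonneg_right ((hA _ x).trans (hB n _ (Finset.erase_subset _ _)))
      (J_nonneg _ _ _)

end Pool.Agent.Q85.SW.TaskJProd
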