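import Pool.Agent.Q85.SW.Stmts

set_option autoImplicit false

namespace Pool.Agent.Q85.SW.TaskJScale

open Pool.Agent.Q85.SW MeasureTheory Filter Topology Set
open scoped SchwartzMap FourierTransform ContDiff Real

theorem iter_scale_aux (f : ℝ → ℝ) (hf : ContDiff ℝ ∞ f) (j i : ℕ) (x : ℝ) :
    iteratedDeriv i (fun y => f (y / 2 ^ j)) x =
      ((1 / 2 : ℝ) ^ j) ^ i * iteratedDeriv i f (x / 2 ^ j) := by
  have h1 : (fun y : ℝ => f (y / 2 ^ j)) = fun y => f ((1 / 2 : ℝ) ^ j * y) := by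
    funext y
    congr 1
    rw [one_div, inv_pow]
    field_simp
  have h2 := iteratedDeriv_comp_const_mul (n := i) (f := f) (hf.of_le (by exact_mod_cast le_top)) ((1 / 2 : ℝ) ^ j)
  rw [h1, h2]
  have h3 : (1 / 2 : ℝ) ^ j * x = x / 2 ^ j := by
    rw [one_div, inv_pow]
    field_simp
  simp only [h3]

theorem main : Pool.Agent.Q85.SW.TaskJScale := by
  intro f hf k j x
  have hq0 : (0 : ℝ) ≤ (1 / 2 : ℝ) ^ j := by positivity
  have hq1 : (1 / 2 : ℝ) ^ j ≤ 1 := pow_le_one₀ (by norm_num) (by norm_num)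
  have hterm : ∀ i : ℕ, |iteratedDeriv i (fun y => f (y / 2 ^ j)) x| / (i.factorial : ℝ) =
      ((1 / 2 : ℝ) ^ j) ^ i * (|iteratedDeriv i f (x / 2 ^ j)| / (i.factorial : ℝ)) := by
    intro i
    rw [iter_scale_aux f hf, abs_mul, abs_of_nonneg (pow_nonneg hq0 i)]
    ring
  have hnn : ∀ i : ℕ, 0 ≤ |iteratedDeriv i f (x / 2 ^ j)| / (i.factorial : ℝ) := fun i => by positivity
  constructor
  · unfold J
    rw [Finset.sum_congr rfl (fun i _ => hterm i), Finset.sum_range_succ', Finset.mul_sum,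
      Finset.sum_range_succ' (fun i => (1 / 2 : ℝ) ^ j * (|iteratedDeriv i f (x / 2 ^ j)| / (i.factorial : ℝ)))]
    have h0 : ((1 / 2 : ℝ) ^ j) ^ 0 * (|iteratedDeriv 0 f (x / 2 ^ j)| / (Nat.factorial 0 : ℝ)) = |f (x / 2 ^ j)| := by
      simp
    rw [h0]
    have h1 : ∑ i ∈ Finset.range k, ((1 / 2 : ℝ) ^ j) ^ (i + 1) *
        (|iteratedDeriv (i + 1) f (x / 2 ^ j)| / ((i + 1).factorial : ℝ)) ≤
        ∑ i ∈ Finset.range k, (1 / 2 : ℝ) ^ j *
        (|iteratedDeriv (i + 1) f (x / 2 ^ j)| / ((i + 1).factorial : ℝ)) := by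
      refine Finset.sum_le_sum fun i _ => ?_
      refine mul_le_mul_of_nonneg_right ?_ (hnn _)
      calc ((1 / 2 : ℝ) ^ j) ^ (i + 1) ≤ ((1 / 2 : ℝ) ^ j) ^ 1 :=
            pow_le_pow_of_le_one hq0 hq1 (by omega)
        _ = (1 / 2 : ℝ) ^ j := pow_one _
    have h2 : 0 ≤ (1 / 2 : ℝ) ^ j * (|iteratedDeriv 0 f (x / 2 ^ j)| / (Nat.factorial 0 : ℝ)) :=
      mul_nonneg hq0 (hnn 0)
    linarith
  · unfold J
    rw [Finset.sum_congr rfl (fun i _ => hterm i)]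
    refine Finset.sum_le_sum fun i _ => ?_
    calc ((1 / 2 : ℝ) ^ j) ^ i * (|iteratedDeriv i f (x / 2 ^ j)| / (i.factorial : ℝ)) ≤
        1 * (|iteratedDeriv i f (x / 2 ^ j)| / (i.factorial : ℝ)) :=
          mul_le_mul_of_nonneg_right (pow_le_one₀ hq0 hq1) (hnn i)
      _ = _ := one_mul _

end Pool.Agent.Q85.SW.TaskJScale
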