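import Pool.Agent.Q85.SW.Stmts

set_option autoImplicit false

open MeasureTheory Filter Topology Set
open scoped SchwartzMap FourierTransform ContDiff Real
open Pool.Agent.Q85.SW

namespace Pool.Agent.Q85.SW.TaskKapSmooth

theorem key (k j : ℕ) : a j * (2 ^ j) ^ k ≤ (2 : ℝ) ^ ((k + 1) ^ 2) * (1 / 2) ^ j := by
  unfold a
  have h1 : (2 : ℝ) ^ (j * k + j) ≤ 2 ^ ((k + 1) ^ 2 + j ^ 2) := by
    apply pow_le_pow_right₀ (by norm_num)
    rcases le_total j (k + 1) with h | h
    · nlinarith [Nat.mul_le_mul_right (k + 1) h]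
    · nlinarith [Nat.mul_le_mul_left j h]
  rw [pow_add, pow_add, pow_mul] at h1
  have h2 : (0 : ℝ) < 2 ^ (j ^ 2) := by positivity
  have h3 : (0 : ℝ) < 2 ^ j := by positivity
  rw [one_div, inv_pow, inv_pow, inv_mul_le_iff₀ h2, ← mul_assoc, ← div_eq_mul_inv, le_div_iff₀ h3]
  linarith

theorem summable (k : ℕ) (C : ℝ) : Summable fun j : ℕ => a j * (2 ^ j) ^ k * C := by
  apply Summable.mul_right
  refine Summable.of_nonneg_of_le (fun j => ?_) (key k) ?_
  · unfold a
    positivity
  · exact (summable_geometric_of_lt_one (by norm_num) (by norm_num)).mul_left _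

theorem main (hE : TaskEta) : TaskKapSmooth := by
  obtain ⟨hs, -, -, hb⟩ := hE
  choose C hC using hb
  unfold TaskKapSmooth
  have h1 : ContDiff ℝ ((⊤ : ℕ∞) : WithTop ℕ∞) fun x : ℝ => ∑' j : ℕ, a j * eta (2 ^ j * x) := by
    refine contDiff_tsum (v := fun k j => a j * (2 ^ j) ^ k * C k) (fun j => ?_)
      (fun k _ => summable k (C k)) (fun k j x _ => ?_)
    · exact contDiff_const.mul (hs.comp (contDiff_const.mul contDiff_id))
    · rw [norm_iteratedFDeriv_eq_norm_iteratedDeriv]
      have hs' : ContDiff ℝ (k : WithTop ℕ∞) eta := hs.of_le (by exact_mod_cast le_top)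
      have h2 : iteratedDeriv k (fun x : ℝ => a j * eta (2 ^ j * x)) x =
          a j * ((2 ^ j) ^ k * iteratedDeriv k eta (2 ^ j * x)) := by
        rw [iteratedDeriv_const_mul_field]
        congr 1
        rw [iteratedDeriv_comp_const_mul hs']
      rw [h2, Real.norm_eq_abs, abs_mul, abs_mul]
      have h3 : |a j| = a j := abs_of_nonneg (by unfold a; positivity)
      have h4 : |((2 : ℝ) ^ j) ^ k| = (2 ^ j) ^ k := abs_of_nonneg (by positivity)
      rw [h3, h4, ← mul_assoc]
      refine mul_le_mul_of_nonneg_left (hC k _) ?_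
      unfold a
      positivity
  exact h1

end Pool.Agent.Q85.SW.TaskKapSmooth
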