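import Pool.Agent.Q85.SW.Stmts

namespace Pool.Agent.Q85.SW.TaskKapVal
open Pool.Agent.Q85.SW

theorem main (hE : TaskEta) : TaskKapVal := by
  obtain ⟨-, hb, hne, -⟩ := hE
  have hz : ∀ y : ℝ, ¬ (9 / 100 < y ∧ y < 12 / 100) → eta y = 0 := fun y hy => by
    by_contra h
    exact hy ((hne y).1 h)
  have huniq : ∀ (i j : ℕ) (x : ℝ), i < j → 9 / 100 < 2 ^ i * x → ¬ (2 ^ j * x < 12 / 100) := by
    intro i j x hij h1 h2
    obtain ⟨d, rfl⟩ := Nat.exists_eq_add_of_lt hij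
    have h4 : (2 : ℝ) ^ (i + d + 1) * x = (2 ^ i * x) * 2 ^ d * 2 := by ring
    have h3 : (1 : ℝ) ≤ 2 ^ d := one_le_pow₀ (by norm_num)
    rw [h4] at h2
    nlinarith
  have h1 : ∀ (j : ℕ) (x : ℝ), 9 / 100 < 2 ^ j * x → 2 ^ j * x < 12 / 100 →
      kap0 x = a j * eta (2 ^ j * x) := by
    intro j x hj1 hj2
    unfold kap0
    apply tsum_eq_single j
    intro i hi
    rw [hz, mul_zero]
    rintro ⟨h1, h2⟩
    rcases lt_or_gt_of_ne hi with h | h
    · exact huniq i j x h h1 hj2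
    · exact huniq j i x h hj1 h2
  have h2 : ∀ x : ℝ, (∀ j : ℕ, ¬ (9 / 100 < 2 ^ j * x ∧ 2 ^ j * x < 12 / 100)) → kap0 x = 0 := by
    intro x hx
    unfold kap0
    have : ∀ j : ℕ, a j * eta (2 ^ j * x) = 0 := fun j => by rw [hz _ (hx j), mul_zero]
    simp [this]
  refine ⟨h1, h2, ?_, ?_, ?_⟩
  · intro x
    by_cases hx : ∃ j : ℕ, 9 / 100 < 2 ^ j * x ∧ 2 ^ j * x < 12 / 100
    · obtain ⟨j, h3, h4⟩ := hx
      rw [h1 j x h3 h4]
      have ha0 : 0 ≤ a j := by unfold a; positivity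
      have ha1 : a j ≤ 1 := by
        unfold a
        exact pow_le_one₀ (by norm_num) (by norm_num)
      obtain ⟨h5, h6⟩ := hb (2 ^ j * x)
      constructor
      · exact mul_nonneg ha0 h5
      · nlinarith
    · rw [h2 x (fun j h => hx ⟨j, h⟩)]
      norm_num
  · intro x hx
    apply h2
    rintro j ⟨h3, -⟩
    have : (0 : ℝ) < 2 ^ j := by positivity
    nlinarith
  · intro x hx
    apply h2
    rintro j ⟨-, h4⟩
    have : (1 : ℝ) ≤ 2 ^ j := one_le_pow₀ (by norm_num)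
    nlinarith

end Pool.Agent.Q85.SW.TaskKapVal
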