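import Pool.Agent.Q85.SW.Stmts

set_option autoImplicit false

open Filter Topology
open scoped ContDiff

namespace Pool.Agent.Q85.SW.TaskKapZero

theorem main (h1 : TaskKapVal) (h2 : TaskKapSmooth) : Pool.Agent.Q85.SW.TaskKapZero := by
  intro i x hx
  obtain ⟨-, hB, -, hD, -⟩ := h1
  have hg : ContDiff ℝ ∞ (fun y => Real.sin (kap0 y)) := Real.contDiff_sin.comp h2
  have hcont : Continuous (iteratedDeriv i (fun y => Real.sin (kap0 y))) :=
    hg.continuous_iteratedDeriv i (by exact_mod_cast le_top)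
  have hloc : ∀ y, (∀ᶠ z in 𝓝 y, kap0 z = 0) →
      iteratedDeriv i (fun y => Real.sin (kap0 y)) y = 0 := by
    intro y hy
    have h3 : (fun y => Real.sin (kap0 y)) =ᶠ[𝓝 y] (fun _ => (0 : ℝ)) := by
      filter_upwards [hy] with z hz
      rw [hz, Real.sin_zero]
    rw [h3.iteratedDeriv_eq i]
    simp
  have hneg : ∀ y : ℝ, y < 0 → iteratedDeriv i (fun y => Real.sin (kap0 y)) y = 0 := by
    intro y hy
    apply hloc
    filter_upwards [eventually_lt_nhds hy] with z hz
    exact hD z hz.le
  rcases lt_trichotomy x 0 with h | h | h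
  · exact hneg x h
  · subst h
    have h3 : Tendsto (iteratedDeriv i (fun y => Real.sin (kap0 y))) (𝓝[<] (0 : ℝ))
        (𝓝 (iteratedDeriv i (fun y => Real.sin (kap0 y)) 0)) :=
      hcont.continuousAt.tendsto.mono_left nhdsWithin_le_nhds
    have h4 : Tendsto (iteratedDeriv i (fun y => Real.sin (kap0 y))) (𝓝[<] (0 : ℝ)) (𝓝 0) := by
      refine tendsto_const_nhds.congr' ?_
      filter_upwards [self_mem_nhdsWithin] with z hz
      exact (hneg z hz).symm
    exact tendsto_nhds_unique h3 h4
  · apply hloc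
    obtain ⟨J, hJ⟩ := pow_unbounded_of_one_lt (12 / 100 / (x / 2)) (one_lt_two (α := ℝ))
    rw [div_lt_iff₀ (by positivity)] at hJ
    have h3 : ∀ᶠ y in 𝓝 x, ∀ j ∈ Finset.range J, ¬ (9 / 100 < 2 ^ j * y ∧ 2 ^ j * y < 12 / 100) := by
      rw [Filter.eventually_all_finset]
      intro j _
      have hc : ContinuousAt (fun y : ℝ => 2 ^ j * y) x := by fun_prop
      by_cases h5 : 9 / 100 ≤ 2 ^ j * x
      · have h6 : 12 / 100 < 2 ^ j * x := by
          by_contra h7
          exact hx j ⟨h5, not_lt.1 h7⟩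
        filter_upwards [hc.eventually (lt_mem_nhds h6)] with y hy
        intro h8
        exact absurd h8.2 (not_lt.2 (le_of_lt hy))
      · push Not at h5
        filter_upwards [hc.eventually (gt_mem_nhds h5)] with y hy
        intro h8
        exact absurd h8.1 (not_lt.2 (le_of_lt hy))
    filter_upwards [h3, eventually_gt_nhds (show x / 2 < x by linarith)] with y hy hy2
    apply hB
    intro j
    by_cases hj : j < J
    · exact hy j (Finset.mem_range.2 hj)
    · intro h8
      have h9 : (2 : ℝ) ^ J ≤ 2 ^ j := pow_le_pow_right₀ (by norm_num) (not_lt.1 hj)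
      have h10 : (2 : ℝ) ^ J * (x / 2) ≤ 2 ^ j * y :=
        mul_le_mul h9 hy2.le (by positivity) (by positivity)
      linarith [h8.2]

end Pool.Agent.Q85.SW.TaskKapZero
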