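import Pool.Agent.Q85.SW.Stmts

/-!
`TaskLim` from `TaskDiffBd` (blueprint of helper85 for MP_27eeb4_an).
-/

set_option autoImplicit false

open MeasureTheory Filter Topology Set
open scoped SchwartzMap FourierTransform ContDiff Real

namespace Pool.Agent.Q85.SW.TaskLim

open Pool.Agent.Q85.SW

theorem main (hD : TaskDiffBd) : TaskLim := by
  intro x
  obtain ⟨C, hC⟩ := hD 0 |x|
  have hc : CauchySeq (fun n => P n x) := by
    refine cauchySeq_of_le_geometric (1 / 2) C (by norm_num) ?_
    intro n
    have h := hC n x le_rfl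
    rw [iteratedDeriv_zero, iteratedDeriv_zero] at h
    rw [dist_comm, Real.dist_eq]
    exact h
  obtain ⟨a, ha⟩ := cauchySeq_tendsto_of_complete hc
  have : h x = a := ha.limUnder_eq
  rw [this]
  exact ha

end Pool.Agent.Q85.SW.TaskLim
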