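import Pool.Agent.Q85.SW.Stmts

set_option autoImplicit false

open MeasureTheory Filter Topology Set
open scoped SchwartzMap FourierTransform ContDiff Real

namespace Pool.Agent.Q85.SW.TaskMBd

open Pool.Agent.Q85.SW

theorem main (h1 : TaskMSmooth) (h2 : TaskMPer) : Pool.Agent.Q85.SW.TaskMBd := by
  intro k
  have hsm : ContDiff ℝ ∞ m := h1
  have hc : Continuous (iteratedDeriv k m) := hsm.continuous_iteratedDeriv k (by exact_mod_cast le_top)
  obtain ⟨C, hC⟩ := isCompact_Icc.exists_bound_of_continuousOn (s := Set.Icc (0 : ℝ) 1) hc.continuousOn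
  have hper : ∀ (x : ℝ) (n : ℤ), iteratedDeriv k m (x + n) = iteratedDeriv k m x := by
    intro x n
    have h3 : (fun z : ℝ => m (z + n)) = m := funext fun z => h2.2.1 z n
    have h4 := congrFun (iteratedDeriv_comp_add_const k m (n : ℝ)) x
    rw [h3] at h4
    exact h4.symm
  refine ⟨max C 0, le_max_right _ _, fun x => ?_⟩
  have h5 : x = Int.fract x + ⌊x⌋ := (Int.fract_add_floor x).symm
  rw [h5, hper]
  exact (hC _ ⟨Int.fract_nonneg x, (Int.fract_lt_one x).le⟩).trans (le_max_left _ _)

end Pool.Agent.Q85.SW.TaskMBd
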