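import Pool.Agent.Q85.SW.Stmts

set_option autoImplicit false

open MeasureTheory Filter Topology Set
open scoped ContDiff Real

namespace Pool.Agent.Q85.SW.TaskMDer

open Pool.Agent.Q85.SW

theorem main (hZ : TaskMZone) (hS : TaskMSmooth) (hK : TaskKapSmooth) :
    Pool.Agent.Q85.SW.TaskMDer := by
  intro i n e he
  have hK' : ContDiff ℝ ∞ kap0 := hK
  have hS' : ContDiff ℝ ∞ m := hS
  have hg : ContDiff ℝ ∞ (fun y => Real.sin (kap0 y)) := Real.contDiff_sin.comp hK'
  have hf : ContDiff ℝ ∞ (fun y => m ((n : ℝ) + 1 / 2 + y)) :=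
    hS'.comp (contDiff_const.add contDiff_id)
  have h1 : iteratedDeriv i (fun y => m ((n : ℝ) + 1 / 2 + y)) e =
      iteratedDeriv i m ((n : ℝ) + 1 / 2 + e) := by
    rw [iteratedDeriv_comp_const_add]
  rw [← h1]
  have hle : ((i : ℕ) : WithTop ℕ∞) ≤ ∞ := by exact_mod_cast le_top
  have hcf := hf.continuous_iteratedDeriv i hle
  have hcg := hg.continuous_iteratedDeriv i hle
  have hEq : EqOn (iteratedDeriv i (fun y => m ((n : ℝ) + 1 / 2 + y)))
      (iteratedDeriv i (fun y => Real.sin (kap0 y))) (Ioo (-(1 / 6)) (1 / 6)) := by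
    intro x hx
    have hev : (fun y => m ((n : ℝ) + 1 / 2 + y)) =ᶠ[𝓝 x] (fun y => Real.sin (kap0 y)) := by
      filter_upwards [Ioo_mem_nhds hx.1 hx.2] with y hy
      exact hZ n y (abs_le.mpr ⟨hy.1.le, hy.2.le⟩)
    exact hev.iteratedDeriv_eq i
  have h2 := hEq.closure hcf hcg
  rw [closure_Ioo (by norm_num)] at h2
  exact h2 (abs_le.mp he)

end Pool.Agent.Q85.SW.TaskMDer
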