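import Pool.Agent.Q85.SW.Stmts

set_option autoImplicit false

open MeasureTheory Filter Topology Set
open scoped SchwartzMap FourierTransform ContDiff Real

namespace Pool.Agent.Q85.SW.TaskMPer
open Pool.Agent.Q85.SW

theorem kap_one (x : ℝ) : kap (x + 1) = kap x := by
  unfold kap; rw [Int.fract_add_one]

theorem st_symm (x : ℝ) : Real.smoothTransition (1 - x) = 1 - Real.smoothTransition x := by
  have h := Real.smoothTransition.pos_denom x
  have h1 : expNegInvGlue (1 - x) + expNegInvGlue (1 - (1 - x)) =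
      expNegInvGlue x + expNegInvGlue (1 - x) := by
    rw [sub_sub_cancel, add_comm]
  unfold Real.smoothTransition
  rw [h1]
  field_simp
  ring

theorem th_one (x : ℝ) : th (x + 1) = th x := by
  unfold th
  have h1 : Real.cos (2 * π * (x + 1)) = Real.cos (2 * π * x) := by
    rw [show 2 * π * (x + 1) = 2 * π * x + 2 * π by ring, Real.cos_add_two_pi]
  have h2 : kap (x + 1 + 1 / 2) = kap (x + 1 / 2) := by
    rw [show x + 1 + 1 / 2 = x + 1 / 2 + 1 by ring, kap_one]
  rw [h1, h2, kap_one]

theorem th_half (x : ℝ) : th (x + 1 / 2) = π / 2 - th x := by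
  unfold th
  have h1 : Real.cos (2 * π * (x + 1 / 2)) = -Real.cos (2 * π * x) := by
    rw [show 2 * π * (x + 1 / 2) = 2 * π * x + π by ring, Real.cos_add_pi]
  have h2 : kap (x + 1 / 2 + 1 / 2) = kap x := by
    rw [show x + 1 / 2 + 1 / 2 = x + 1 by ring, kap_one]
  have h3 : 1 / 2 - -Real.cos (2 * π * x) = 1 - (1 / 2 - Real.cos (2 * π * x)) := by ring
  rw [h1, h2, h3, st_symm]
  ring

theorem main : Pool.Agent.Q85.SW.TaskMPer := by
  have hp : Function.Periodic m 1 := by
    intro x
    unfold m
    rw [th_one]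
  refine ⟨hp, ?_, ?_, ?_⟩
  · intro x n
    have h := hp.int_mul n x
    rwa [mul_one] at h
  · intro x
    unfold m
    rw [th_half, Real.cos_pi_div_two_sub, Real.cos_sq_add_sin_sq]
  · intro x
    exact Real.abs_cos_le_one _

end Pool.Agent.Q85.SW.TaskMPer
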