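import Mathlib
import Pool.Agent.Q85.SW.Stmts

set_option autoImplicit false

open MeasureTheory Filter Topology Set
open scoped Real

namespace Pool.Agent.Q85.SW.TaskMPos

open Pool.Agent.Q85.SW

theorem main (hK : TaskKapVal) : Pool.Agent.Q85.SW.TaskMPos := by
  obtain ⟨-, -, hb, hneg, hlarge⟩ := hK
  have hπ : 3 < π := Real.pi_gt_three
  have hhalf : ∀ x : ℝ, |x| < 1 / 3 → kap (x + 1 / 2) = 0 := by
    intro x hx
    have h1 := abs_lt.1 hx
    have h2 : Int.fract (x + 1 / 2) = x + 1 / 2 :=
      Int.fract_eq_self.2 ⟨by linarith [h1.1], by linarith [h1.2]⟩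
    unfold kap
    rw [h2]
    exact hlarge _ (by linarith [h1.1])
  have habs : ∀ x : ℝ, Real.cos (2 * π * x) = Real.cos (2 * π * |x|) := by
    intro x
    rw [← Real.cos_abs (2 * π * x), abs_mul, abs_of_pos (by positivity : (0 : ℝ) < 2 * π)]
  refine ⟨?_, fun x hx => ?_⟩
  · have h1 : kap (0 + 1 / 2) = 0 := hhalf 0 (by norm_num)
    have h2 : kap 0 = 0 := by
      unfold kap
      rw [Int.fract_zero]
      exact hneg 0 le_rfl
    unfold m th
    rw [h1, h2, mul_zero, Real.cos_zero,
      Real.smoothTransition.zero_of_nonpos (by norm_num)]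
    simp
  · have h0 := abs_nonneg x
    unfold m
    apply Real.cos_pos_of_mem_Ioo
    unfold th
    rw [hhalf x hx, sub_zero]
    by_cases h6 : |x| ≤ 1 / 6
    · have h1 : Real.smoothTransition (1 / 2 - Real.cos (2 * π * x)) = 0 := by
        apply Real.smoothTransition.zero_of_nonpos
        have h2 : Real.cos (π / 3) ≤ Real.cos (2 * π * |x|) := by
          apply Real.cos_le_cos_of_nonneg_of_le_pi (by positivity) (by linarith)
          nlinarith
        rw [Real.cos_pi_div_three, ← habs] at h2
        linarith
      have h3 : 0 ≤ kap x ∧ kap x ≤ 1 / 2 := hb _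
      rw [h1, mul_zero, zero_add]
      constructor <;> linarith [h3.1, h3.2]
    · push Not at h6
      have h1 : kap x = 0 := by
        unfold kap
        rcases le_or_gt 0 x with hx0 | hx0
        · rw [abs_of_nonneg hx0] at hx h6
          rw [Int.fract_eq_self.2 ⟨hx0, by linarith⟩]
          exact hlarge _ (by linarith)
        · rw [abs_of_neg hx0] at hx h6
          have h2 : Int.fract x = x + 1 := by
            have h3 : Int.fract (x + 1) = Int.fract x := Int.fract_add_one x
            rw [← h3]
            exact Int.fract_eq_self.2 ⟨by linarith, by linarith⟩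
          rw [h2]
          exact hlarge _ (by linarith)
      have h2 : Real.smoothTransition (1 / 2 - Real.cos (2 * π * x)) < 1 := by
        apply Real.smoothTransition.lt_one_of_lt_one
        have h3 : Real.cos (π - π / 3) < Real.cos (2 * π * |x|) := by
          apply Real.cos_lt_cos_of_nonneg_of_le_pi (by positivity) (by linarith)
          nlinarith
        rw [Real.cos_pi_sub, Real.cos_pi_div_three, ← habs] at h3
        linarith
      have h4 := Real.smoothTransition.nonneg (1 / 2 - Real.cos (2 * π * x))
      rw [h1, add_zero]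
      constructor <;> nlinarith

end Pool.Agent.Q85.SW.TaskMPos
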