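import Pool.Agent.Q85.SW.Stmts

set_option autoImplicit false

open MeasureTheory Filter Topology Set
open scoped SchwartzMap FourierTransform ContDiff Real

namespace Pool.Agent.Q85.SW.TaskMSmooth

open Pool.Agent.Q85.SW

theorem main (hv : TaskKapVal) (hs : TaskKapSmooth) (hf : TaskFract) :
    Pool.Agent.Q85.SW.TaskMSmooth := by
  have hk : ContDiff ℝ ∞ kap := hf kap0 hs hv.2.2.2.1 hv.2.2.2.2
  have hk' : ContDiff ℝ ∞ (fun x : ℝ => kap (x + 1 / 2)) := hk.comp (contDiff_id.add contDiff_const)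
  have hc : ContDiff ℝ ∞ (fun x : ℝ => 1 / 2 - Real.cos (2 * π * x)) :=
    contDiff_const.sub (Real.contDiff_cos.comp (contDiff_const.mul contDiff_id))
  have ht : ContDiff ℝ ∞ (fun x : ℝ => Real.smoothTransition (1 / 2 - Real.cos (2 * π * x))) :=
    Real.smoothTransition.contDiff.comp hc
  have hth : ContDiff ℝ ∞ th := ((contDiff_const.mul ht).add hk).sub hk'
  exact Real.contDiff_cos.comp hth

end Pool.Agent.Q85.SW.TaskMSmooth
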