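import Pool.Agent.Q85.SW.Stmts

/-! MP_27eeb4_an, blueprint of helper85: the filter near `1/2` (task TaskMZone). -/

set_option autoImplicit false

open MeasureTheory Filter Topology Set
open scoped SchwartzMap FourierTransform ContDiff Real

namespace Pool.Agent.Q85.SW.TaskMZone

open Pool.Agent.Q85.SW

theorem main (hK : Pool.Agent.Q85.SW.TaskKapVal) : Pool.Agent.Q85.SW.TaskMZone := by
  intro n x hx
  obtain ⟨_, _, _, hneg, hbig⟩ := hK
  rw [abs_le] at hx
  have hpi := Real.pi_pos
  have hcos : Real.cos (2 * π * ((n : ℝ) + 1 / 2 + x)) ≤ -(1 / 2) := by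
    have e : 2 * π * ((n : ℝ) + 1 / 2 + x) = (2 * π * x + π) + n * (2 * π) := by ring
    rw [e, Real.cos_add_int_mul_two_pi, Real.cos_add_pi]
    have h1 : Real.cos (π / 3) ≤ Real.cos |2 * π * x| := by
      apply Real.cos_le_cos_of_nonneg_of_le_pi (abs_nonneg _) (by linarith)
      rw [abs_le]
      constructor <;> nlinarith
    rw [Real.cos_abs, Real.cos_pi_div_three] at h1
    linarith
  have hst : Real.smoothTransition (1 / 2 - Real.cos (2 * π * ((n : ℝ) + 1 / 2 + x))) = 1 :=
    Real.smoothTransition.one_of_one_le (by linarith)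
  have hk1 : kap ((n : ℝ) + 1 / 2 + x) = 0 := by
    unfold kap
    have e : Int.fract ((n : ℝ) + 1 / 2 + x) = 1 / 2 + x := by
      rw [add_assoc, Int.fract_intCast_add, Int.fract_eq_self]
      constructor <;> linarith
    rw [e]
    exact hbig _ (by linarith)
  have hk2 : kap ((n : ℝ) + 1 / 2 + x + 1 / 2) = kap0 x := by
    unfold kap
    have e : (n : ℝ) + 1 / 2 + x + 1 / 2 = ((n + 1 : ℤ) : ℝ) + x := by
      push_cast
      ring
    rw [e, Int.fract_intCast_add]
    rcases le_or_gt 0 x with h | h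
    · rw [Int.fract_eq_self.2 ⟨h, by linarith⟩]
    · have e2 : Int.fract x = 1 + x := by
        rw [Int.fract_eq_iff]
        exact ⟨by linarith, by linarith, -1, by push_cast; ring⟩
      rw [e2, hneg x h.le]
      exact hbig _ (by linarith)
  unfold m th
  rw [hst, hk1, hk2, mul_one, add_zero, Real.cos_pi_div_two_sub]

end Pool.Agent.Q85.SW.TaskMZone
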