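import Pool.Agent.Q85.SW.Stmts

set_option autoImplicit false

open MeasureTheory Filter Topology Set
open scoped SchwartzMap FourierTransform ContDiff Real

namespace Pool.Agent.Q85.SW.TaskPInt

open Pool.Agent.Q85.SW

theorem main (hper : Pool.Agent.Q85.SW.TaskMPer) (hsm : Pool.Agent.Q85.SW.TaskMSmooth) :
    Pool.Agent.Q85.SW.TaskPInt := by
  obtain ⟨_, hZ, hQ, _⟩ := hper
  have hc : Continuous m := hsm.continuous
  have hPc : ∀ n, Continuous (P n) := by
    intro n
    unfold P
    exact continuous_finsetProd _ (fun j _ => hc.comp (continuous_id.div_const _))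
  have hPper : ∀ (n : ℕ) (x : ℝ), P n (x + 2 ^ n) = P n x := by
    intro n x
    unfold P
    apply Finset.prod_congr rfl
    intro j hj
    have hjn : j < n := Finset.mem_range.mp hj
    have h1 : (x + 2 ^ n) / 2 ^ (j + 1) = x / 2 ^ (j + 1) + (((2 ^ (n - (j + 1)) : ℤ)) : ℝ) := by
      have h2 : (2 : ℝ) ^ n = 2 ^ (n - (j + 1)) * 2 ^ (j + 1) := by
        rw [← pow_add]; congr 1; omega
      push_cast
      rw [h2, add_div, mul_div_assoc, div_self (by positivity), mul_one]
    rw [h1, hZ]
  have key : ∀ (n : ℕ) (a : ℝ), ∫ x in a..(a + 2 ^ n), P n x ^ 2 = 1 := by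
    intro n
    induction n with
    | zero =>
      intro a
      simp [P]
    | succ n ih =>
      intro a
      have hcs : Continuous (fun x => P (n + 1) x ^ 2) := (hPc (n + 1)).pow 2
      have e1 : a + 2 ^ (n + 1) = (a + 2 ^ n) + 2 ^ n := by rw [pow_succ]; ring
      rw [e1, ← intervalIntegral.integral_add_adjacent_intervals (b := a + 2 ^ n)
        (hcs.intervalIntegrable _ _) (hcs.intervalIntegrable _ _)]
      have e2 : ∫ x in (a + 2 ^ n)..(a + 2 ^ n + 2 ^ n), P (n + 1) x ^ 2 =
          ∫ x in a..(a + 2 ^ n), P (n + 1) (x + 2 ^ n) ^ 2 := by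
        rw [intervalIntegral.integral_comp_add_right (fun x => P (n + 1) x ^ 2) ((2 : ℝ) ^ n)]
      have hcs' : Continuous (fun x => P (n + 1) (x + 2 ^ n) ^ 2) :=
        ((hPc (n + 1)).comp (continuous_id.add continuous_const)).pow 2
      rw [e2, ← intervalIntegral.integral_add (hcs.intervalIntegrable _ _)
        (hcs'.intervalIntegrable _ _), ← ih a]
      apply intervalIntegral.integral_congr
      intro x _
      have f1 : ∀ y, P (n + 1) y = P n y * m (y / 2 ^ (n + 1)) := by
        intro y; unfold P; rw [Finset.prod_range_succ]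
      have f2 : (x + 2 ^ n) / 2 ^ (n + 1) = x / 2 ^ (n + 1) + 1 / 2 := by
        rw [add_div, pow_succ]
        congr 1
        field_simp
      simp only [f1, f2, hPper]
      have := hQ (x / 2 ^ (n + 1))
      calc (P n x * m (x / 2 ^ (n + 1))) ^ 2 + (P n x * m (x / 2 ^ (n + 1) + 1 / 2)) ^ 2
          = P n x ^ 2 * (m (x / 2 ^ (n + 1)) ^ 2 + m (x / 2 ^ (n + 1) + 1 / 2) ^ 2) := by ring
        _ = P n x ^ 2 := by rw [this, mul_one]
  intro n
  have := key n (-(2 ^ n / 2 : ℝ))
  rwa [show -(2 ^ n / 2 : ℝ) + 2 ^ n = 2 ^ n / 2 by ring] at this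

end Pool.Agent.Q85.SW.TaskPInt
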