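import Pool.Agent.Q85.SW.Stmts

set_option autoImplicit false

open MeasureTheory Filter Topology Set
open scoped SchwartzMap FourierTransform ContDiff Real

namespace Pool.Agent.Q85.SW.TaskPars

open Pool.Agent.Q85.SW

theorem main (hT : TaskTele) (hF : TaskFou) (hC : TaskCoef) (hG : TaskGSchwartz) :
    Pool.Agent.Q85.SW.TaskPars := by
  intro g hg hgc
  obtain ⟨F, hFG⟩ := hG
  have hGc : Continuous G := by
    have h1 : G = F := funext fun x => (hFG x).symm
    rw [h1]
    exact F.continuous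
  have hD : ∀ j : ℤ, Continuous (Dl j g) := by
    intro j
    unfold Dl
    exact continuous_const.mul (hg.comp (continuous_const.mul continuous_id))
  have hDc : ∀ j : ℤ, HasCompactSupport (Dl j g) := by
    intro j
    have hc : (2 : ℝ) ^ j ≠ 0 := zpow_ne_zero _ two_ne_zero
    have h1 : HasCompactSupport (fun x : ℝ => g ((2 : ℝ) ^ j * x)) :=
      hgc.comp_homeomorph (Homeomorph.mulLeft₀ ((2 : ℝ) ^ j) hc)
    exact h1.mul_left
  have hfib : ∀ j : ℤ, HasSum (fun k : ℤ => ‖∫ x, (starRingEnd ℂ) (E j k x) * g x‖ ^ 2)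
      (QQ (Dl j g)) := by
    intro j
    have hu : Continuous (fun y : ℝ => Dl j g y * (starRingEnd ℂ) (G y)) :=
      (hD j).mul (Complex.continuous_conj.comp hGc)
    have huc : HasCompactSupport (fun y : ℝ => Dl j g y * (starRingEnd ℂ) (G y)) :=
      (hDc j).mul_right
    have h1 := hF _ hu huc
    have h2 : (fun k : ℤ => ‖∫ x, (starRingEnd ℂ) (E j k x) * g x‖ ^ 2) =
        fun k : ℤ => ‖∫ x, (Dl j g x * (starRingEnd ℂ) (G x)) *
          Complex.exp (2 * π * k * x * Complex.I)‖ ^ 2 := by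
      funext k
      rw [hC g hg hgc j k]
    rw [h2]
    exact h1
  have hout := hT g hg hgc
  have hsum : Summable (fun p : ℤ × ℤ => ‖∫ x, (starRingEnd ℂ) (E p.1 p.2 x) * g x‖ ^ 2) := by
    rw [summable_prod_of_nonneg (fun p => by positivity)]
    refine ⟨fun j => (hfib j).summable, ?_⟩
    have h3 : (fun j : ℤ => ∑' k : ℤ, ‖∫ x, (starRingEnd ℂ) (E j k x) * g x‖ ^ 2) =
        fun j : ℤ => QQ (Dl j g) := funext fun j => (hfib j).tsum_eq
    exact h3 ▸ hout.summable
  have h4 := hsum.hasSum.prod_fiberwise hfib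
  have h5 := h4.unique hout
  rw [← h5]
  exact hsum.hasSum

end Pool.Agent.Q85.SW.TaskPars
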