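import Pool.Agent.Q85.SW.Stmts

set_option autoImplicit false

open MeasureTheory Filter Topology Set

namespace Pool.Agent.Q85.SW.TaskRefB

open Pool.Agent.Q85.SW

theorem prod_two (n : ℕ) (x : ℝ) : P (n + 1) (2 * x) = m x * P n x := by
  unfold P
  rw [Finset.prod_range_succ', mul_comm]
  congr 1
  · congr 1
    ring
  · refine Finset.prod_congr rfl fun j _ => ?_
    congr 1
    rw [pow_succ (2 : ℝ) (j + 1)]
    field_simp

theorem main (hL : TaskLim) : Pool.Agent.Q85.SW.TaskRef := by
  intro x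
  have h1 : Tendsto (fun n => P n (2 * x)) atTop (𝓝 (h (2 * x))) := hL (2 * x)
  have h2 : Tendsto (fun n => P n x) atTop (𝓝 (h x)) := hL x
  have h3 : Tendsto (fun n => P (n + 1) (2 * x)) atTop (𝓝 (h (2 * x))) := h1.comp (tendsto_add_atTop_nat 1)
  simp only [prod_two] at h3
  exact tendsto_nhds_unique h3 (h2.const_mul (m x))

end Pool.Agent.Q85.SW.TaskRefB
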