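import Pool.Agent.Q85.SW.Stmts

/-! MP_27eeb4_an: task `TaskSeq` of the blueprint in `Pool/Agent/Q85/SW/Stmts.lean`. -/

set_option autoImplicit false

namespace Pool.Agent.Q85.SW.TaskSeq

open MeasureTheory Filter Topology Set
open scoped ContDiff Real
open Pool.Agent.Q85.SW

theorem main : Pool.Agent.Q85.SW.TaskSeq := by
  intro f g hf hg hb
  have hcau : ∀ (i : ℕ) (x : ℝ), ∃ y, Tendsto (fun n => iteratedDeriv i (f n) x) atTop (𝓝 y) := by
    intro i x
    obtain ⟨C, hC⟩ := hb i |x|
    have : CauchySeq (fun n => iteratedDeriv i (f n) x) := by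
      refine cauchySeq_of_le_geometric (1 / 2) C (by norm_num) (fun n => ?_)
      rw [dist_comm, Real.dist_eq]
      exact hC n x le_rfl
    exact cauchySeq_tendsto_of_complete this
  choose Gl hGl using hcau
  have hdist : ∀ (i : ℕ) (R : ℝ), ∃ C : ℝ, ∀ (n : ℕ) (x : ℝ), |x| ≤ R →
      |iteratedDeriv i (f n) x - Gl i x| ≤ C * (1 / 2) ^ n := by
    intro i R
    obtain ⟨C, hC⟩ := hb i R
    refine ⟨2 * C, fun n x hx => ?_⟩
    have h1 := dist_le_of_le_geometric_of_tendsto (1 / 2) C (by norm_num)
      (f := fun n => iteratedDeriv i (f n) x) (fun n => by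
        rw [dist_comm, Real.dist_eq]
        exact hC n x hx) (hGl i x) n
    rw [Real.dist_eq] at h1
    refine h1.trans (le_of_eq ?_)
    ring
  have hunif : ∀ i, TendstoLocallyUniformlyOn (fun n => iteratedDeriv i (f n)) (Gl i) atTop
      univ := by
    intro i
    rw [Metric.tendstoLocallyUniformlyOn_iff]
    intro ε hε x _
    obtain ⟨C, hC⟩ := hdist i (|x| + 1)
    refine ⟨Metric.ball x 1, mem_nhdsWithin_of_mem_nhds (Metric.ball_mem_nhds x one_pos), ?_⟩
    have h0 : Tendsto (fun n : ℕ => C * (1 / 2 : ℝ) ^ n) atTop (𝓝 0) := by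
      simpa using (tendsto_pow_atTop_nhds_zero_of_lt_one (r := (1 / 2 : ℝ)) (by norm_num)
        (by norm_num)).const_mul C
    filter_upwards [h0.eventually (gt_mem_nhds hε)] with n hn y hy
    rw [dist_comm, Real.dist_eq]
    refine (hC n y ?_).trans_lt hn
    rw [Metric.mem_ball, Real.dist_eq] at hy
    have h2 : |y| ≤ |y - x| + |x| := by
      simpa using abs_add_le (y - x) x
    linarith
  have hder : ∀ i x, HasDerivAt (Gl i) (Gl (i + 1) x) x := by
    intro i x
    refine hasDerivAt_of_tendstoLocallyUniformlyOn isOpen_univ (hunif (i + 1)) ?_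
      (fun x _ => hGl i x) (mem_univ x)
    filter_upwards with n y _
    rw [iteratedDeriv_succ]
    have hd : Differentiable ℝ (iteratedDeriv i (f n)) :=
      (hf n).differentiable_iteratedDeriv i (by exact_mod_cast ENat.natCast_lt_top i)
    exact (hd y).hasDerivAt
  have hG0 : Gl 0 = g := by
    funext x
    exact tendsto_nhds_unique (by simpa using hGl 0 x) (hg x)
  have hit : ∀ i, iteratedDeriv i g = Gl i := by
    intro i
    induction i with
    | zero => rw [iteratedDeriv_zero, hG0]
    | succ i ih =>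
      rw [iteratedDeriv_succ, ih]
      funext x
      exact (hder i x).deriv
  refine ⟨contDiff_of_differentiable_iteratedDeriv (fun m _ => ?_), fun i x => ?_⟩
  · rw [hit]
    exact fun x => (hder m x).differentiableAt
  · rw [hit]
    exact hGl i x

end Pool.Agent.Q85.SW.TaskSeq
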