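import Pool.Agent.Q85.SW.Stmts

open MeasureTheory Filter Topology Set
open scoped SchwartzMap FourierTransform ContDiff Real
open Pool.Agent.Q85.SW

noncomputable section

namespace Pool.Agent.Q85.SW.TaskStep

theorem int_even_add_odd {f : ℤ → ℂ} {s t : ℂ} (he : HasSum (fun k => f (2 * k)) s)
    (ho : HasSum (fun k => f (2 * k + 1)) t) : HasSum f (s + t) := by
  have hi := mul_right_injective₀ (two_ne_zero' ℤ)
  replace ho := ((add_left_injective 1).comp hi).hasSum_range_iff.2 ho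
  refine (hi.hasSum_range_iff.2 he).add_isCompl ?_ ho
  simpa [Function.comp_def] using Int.isCompl_even_odd

theorem bound {u : ℝ → ℂ} (hs : HasCompactSupport u) : ∃ R : ℝ, 0 ≤ R ∧ ∀ x, R < |x| → u x = 0 := by
  obtain ⟨R, hR⟩ := hs.isCompact.isBounded.subset_closedBall 0
  refine ⟨max R 0, le_max_right _ _, fun x hx => ?_⟩
  by_contra h
  have h1 := hR (subset_tsupport u h)
  rw [Metric.mem_closedBall, dist_zero_right, Real.norm_eq_abs] at h1
  exact absurd (h1.trans (le_max_left R 0)) (not_le.2 hx)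

/-- finite support of the terms for bounded `x` -/
theorem fin_zero {u : ℝ → ℂ} {R : ℝ} (hR : ∀ x, R < |x| → u x = 0) {B : ℝ} {N : ℤ} (hN : R + B ≤ N) {x : ℝ} (hx : |x| ≤ B)
    {n : ℤ} (hn : n ∉ Finset.Icc (-N) N) : u (x + n) = 0 := by
  apply hR
  have h1 : (N : ℝ) < |(n : ℝ)| := by
    rw [Finset.mem_Icc, not_and_or, not_le, not_le] at hn
    rcases hn with h | h
    · have : (n : ℝ) < -N := by exact_mod_cast h
      exact lt_of_lt_of_le (by linarith) (neg_le_abs _)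
    · have : (N : ℝ) < n := by exact_mod_cast h
      exact lt_of_lt_of_le this (le_abs_self _)
  have h2 : |(n : ℝ)| ≤ |x + n| + |x| := by
    have := abs_sub (x + (n : ℝ)) x
    simpa using this
  linarith

theorem summ {u : ℝ → ℂ} (hs : HasCompactSupport u) (x : ℝ) : Summable fun n : ℤ => u (x + n) := by
  obtain ⟨R, hR0, hR⟩ := bound hs
  obtain ⟨N, hN⟩ := exists_int_gt (R + |x|)
  exact summable_of_ne_finset_zero (s := Finset.Icc (-N) N) fun n hn => fin_zero hR hN.le le_rfl hn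

theorem per_cont {u : ℝ → ℂ} (hc : Continuous u) (hs : HasCompactSupport u) : Continuous (per u) := by
  obtain ⟨R, hR0, hR⟩ := bound hs
  rw [continuous_iff_continuousAt]
  intro x
  obtain ⟨N, hN⟩ := exists_int_gt (R + (|x| + 1))
  have hev : per u =ᶠ[𝓝 x] fun y => ∑ n ∈ Finset.Icc (-N) N, u (y + n) := by
    have : ∀ᶠ y in 𝓝 x, |y - x| < 1 := by
      have := Metric.ball_mem_nhds x one_pos
      filter_upwards [this] with y hy
      rwa [Metric.mem_ball, Real.dist_eq] at hy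
    filter_upwards [this] with y hy
    have hy2 : |y| ≤ |x| + 1 := by
      have := abs_sub_abs_le_abs_sub y x
      linarith
    unfold per
    exact tsum_eq_sum fun n hn => fin_zero hR hN.le hy2 hn
  refine ContinuousAt.congr ?_ hev.symm
  exact (continuous_finsetSum _ fun n _ => hc.comp (by fun_prop)).continuousAt

variable {g : ℝ → ℂ}

def A (g : ℝ → ℂ) (y : ℝ) : ℂ := per (fun z => g (2 * z) * (h z : ℂ)) y

theorem cs2 (hs : HasCompactSupport g) : HasCompactSupport fun z => g (2 * z) := by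
  have : HasCompactSupport (g ∘ (Homeomorph.mulLeft₀ (2:ℝ) two_ne_zero)) := hs.comp_homeomorph _
  exact this

theorem csA (hs : HasCompactSupport g) : HasCompactSupport fun z => g (2 * z) * (h z : ℂ) := (cs2 hs).mul_right

theorem P_eq (h1 : TaskRef) (h2 : TaskMPer) (hs : HasCompactSupport g) (y : ℝ) :
    per (fun y => g y * (h y : ℂ)) (2 * y) = (m y : ℂ) * A g y + (m (y + 1 / 2) : ℂ) * A g (y + 1 / 2) := by
  unfold per
  refine HasSum.tsum_eq (int_even_add_odd ?_ ?_)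
  · have h3 := (summ (csA hs) y).hasSum.mul_left (m y : ℂ)
    refine h3.congr_fun fun k => ?_
    have e1 : 2 * y + ((2 * k : ℤ) : ℝ) = 2 * (y + k) := by push_cast; ring
    have e2 := h1 (y + k)
    have e3 := h2.2.1 y k
    show g (2 * y + ((2 * k : ℤ) : ℝ)) * (h (2 * y + ((2 * k : ℤ) : ℝ)) : ℂ) = (m y : ℂ) * (g (2 * (y + k)) * (h (y + k) : ℂ))
    rw [e1, e2, e3]
    push_cast
    ring
  · have h3 := (summ (csA hs) (y + 1 / 2)).hasSum.mul_left (m (y + 1 / 2) : ℂ)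
    refine h3.congr_fun fun k => ?_
    have e1 : 2 * y + ((2 * k + 1 : ℤ) : ℝ) = 2 * (y + 1 / 2 + k) := by push_cast; ring
    have e2 := h1 (y + 1 / 2 + k)
    have e3 := h2.2.1 (y + 1 / 2) k
    show g (2 * y + ((2 * k + 1 : ℤ) : ℝ)) * (h (2 * y + ((2 * k + 1 : ℤ) : ℝ)) : ℂ) =
      (m (y + 1 / 2) : ℂ) * (g (2 * (y + 1 / 2 + k)) * (h (y + 1 / 2 + k) : ℂ))
    rw [e1, e2, e3]
    push_cast
    ring

theorem conjG (x : ℝ) : (starRingEnd ℂ) (G x) = Complex.exp (-(π * x * Complex.I)) * ((m (x / 2 + 1 / 2) * h (x / 2) : ℝ) : ℂ) := by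
  unfold G
  rw [map_mul, Complex.conj_ofReal, ← Complex.exp_conj, map_mul, map_mul, Complex.conj_ofReal, Complex.conj_ofReal, Complex.conj_I]
  congr 2
  ring

theorem Q_eq (h2 : TaskMPer) (hs : HasCompactSupport g) (y : ℝ) :
    per (fun y => g y * (starRingEnd ℂ) (G y)) (2 * y) =
      Complex.exp (-(2 * π * y * Complex.I)) * ((m (y + 1 / 2) : ℂ) * A g y - (m y : ℂ) * A g (y + 1 / 2)) := by
  unfold per
  rw [mul_sub, sub_eq_add_neg]
  refine HasSum.tsum_eq (int_even_add_odd ?_ ?_)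
  · have h3 := ((summ (csA hs) y).hasSum.mul_left (m (y + 1 / 2) : ℂ)).mul_left (Complex.exp (-(2 * π * y * Complex.I)))
    refine h3.congr_fun fun k => ?_
    have e1 : 2 * y + ((2 * k : ℤ) : ℝ) = 2 * (y + k) := by push_cast; ring
    have e2 : 2 * (y + k) / 2 = y + k := by ring
    have e3 := h2.2.1 (y + 1 / 2) k
    have e4 : y + k + 1 / 2 = y + 1 / 2 + (k : ℝ) := by ring
    have e5 : Complex.exp (-(π * ((2 * (y + k) : ℝ) : ℂ) * Complex.I)) = Complex.exp (-(2 * π * y * Complex.I)) := by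
      have : -(π * ((2 * (y + k) : ℝ) : ℂ) * Complex.I) = -(2 * π * y * Complex.I) + ((-k : ℤ) : ℂ) * (2 * π * Complex.I) := by
        push_cast; ring
      rw [this, Complex.exp_add, Complex.exp_int_mul_two_pi_mul_I, mul_one]
    show g (2 * y + ((2 * k : ℤ) : ℝ)) * (starRingEnd ℂ) (G (2 * y + ((2 * k : ℤ) : ℝ))) =
      Complex.exp (-(2 * π * y * Complex.I)) * ((m (y + 1 / 2) : ℂ) * (g (2 * (y + k)) * (h (y + k) : ℂ)))
    rw [e1, conjG, e2, e4, e3, e5]
    push_cast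
    ring
  · have h3 := (((summ (csA hs) (y + 1 / 2)).hasSum.mul_left (m y : ℂ)).mul_left (Complex.exp (-(2 * π * y * Complex.I)))).neg
    refine h3.congr_fun fun k => ?_
    have e1 : 2 * y + ((2 * k + 1 : ℤ) : ℝ) = 2 * (y + 1 / 2 + k) := by push_cast; ring
    have e2 : 2 * (y + 1 / 2 + k) / 2 = y + 1 / 2 + k := by ring
    have e3 := h2.2.1 y (k + 1)
    have e4 : y + 1 / 2 + k + 1 / 2 = y + ((k + 1 : ℤ) : ℝ) := by push_cast; ring
    have e5 : Complex.exp (-(π * ((2 * (y + 1 / 2 + k) : ℝ) : ℂ) * Complex.I)) = -Complex.exp (-(2 * π * y * Complex.I)) := by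
      have : -(π * ((2 * (y + 1 / 2 + k) : ℝ) : ℂ) * Complex.I) =
          -(2 * π * y * Complex.I) + ((-k : ℤ) : ℂ) * (2 * π * Complex.I) + -(π * Complex.I) := by
        push_cast; ring
      rw [this, Complex.exp_add, Complex.exp_add, Complex.exp_int_mul_two_pi_mul_I, mul_one, Complex.exp_neg (π * Complex.I),
        Complex.exp_pi_mul_I]
      norm_num
    show g (2 * y + ((2 * k + 1 : ℤ) : ℝ)) * (starRingEnd ℂ) (G (2 * y + ((2 * k + 1 : ℤ) : ℝ))) =
      -(Complex.exp (-(2 * π * y * Complex.I)) * ((m y : ℂ) * (g (2 * (y + 1 / 2 + k)) * (h (y + 1 / 2 + k) : ℂ))))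
    rw [e1, conjG, e2, e4, e3, e5]
    push_cast
    ring

theorem alg (a b : ℝ) (hab : a ^ 2 + b ^ 2 = 1) (X Y : ℂ) :
    ‖(a : ℂ) * X + (b : ℂ) * Y‖ ^ 2 + ‖(b : ℂ) * X - (a : ℂ) * Y‖ ^ 2 = ‖X‖ ^ 2 + ‖Y‖ ^ 2 := by
  rw [Complex.sq_norm, Complex.sq_norm, Complex.sq_norm, Complex.sq_norm]
  simp only [Complex.normSq_apply, Complex.add_re, Complex.add_im, Complex.sub_re, Complex.sub_im, Complex.mul_re,
    Complex.mul_im, Complex.ofReal_re, Complex.ofReal_im, zero_mul, sub_zero, add_zero]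
  linear_combination (X.re ^ 2 + X.im ^ 2 + Y.re ^ 2 + Y.im ^ 2) * hab

theorem half (F : ℝ → ℝ) : ∫ x in (0:ℝ)..1, F x = 2 * ∫ y in (0:ℝ)..(1/2), F (2 * y) := by
  rw [intervalIntegral.integral_comp_mul_left F (two_ne_zero)]
  norm_num
  ring

theorem main (h1 : TaskRef) (h2 : TaskMPer) (h3 : TaskHSmooth) (h4 : TaskMSmooth) : TaskStep := by
  intro g hg hs
  have hm : Continuous m := ContDiff.continuous h4
  have hh : Continuous h := ContDiff.continuous h3.1
  have hA : Continuous (A g) := per_cont (by fun_prop) (csA hs)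
  have hAs : Continuous fun y => A g (y + 1 / 2) := hA.comp (by fun_prop)
  -- the left side
  have hL : PP (fun x => ((Real.sqrt 2 : ℝ) : ℂ) * g (2 * x)) = 2 * ∫ y in (0:ℝ)..1, ‖A g y‖ ^ 2 := by
    unfold PP
    rw [← intervalIntegral.integral_const_mul]
    refine intervalIntegral.integral_congr fun x _ => ?_
    have e : per (fun y => ((Real.sqrt 2 : ℝ) : ℂ) * g (2 * y) * (h y : ℂ)) x = ((Real.sqrt 2 : ℝ) : ℂ) * A g x := by
      unfold A per
      rw [← tsum_mul_left]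
      exact tsum_congr fun n => mul_assoc _ _ _
    show ‖per (fun y => ((Real.sqrt 2 : ℝ) : ℂ) * g (2 * y) * (h y : ℂ)) x‖ ^ 2 = 2 * ‖A g x‖ ^ 2
    rw [e, norm_mul, mul_pow, Complex.norm_real, Real.norm_eq_abs, sq_abs, Real.sq_sqrt (by norm_num)]
  have hsplit : ∫ y in (0:ℝ)..1, ‖A g y‖ ^ 2 = ∫ y in (0:ℝ)..(1/2), (‖A g y‖ ^ 2 + ‖A g (y + 1 / 2)‖ ^ 2) := by
    have c1 : Continuous fun y => ‖A g y‖ ^ 2 := by fun_prop
    have c2 : Continuous fun y => ‖A g (y + 1 / 2)‖ ^ 2 := by fun_prop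
    rw [intervalIntegral.integral_add (c1.intervalIntegrable _ _) (c2.intervalIntegrable _ _),
      intervalIntegral.integral_comp_add_right (fun y => ‖A g y‖ ^ 2) (1 / 2 : ℝ),
      ← intervalIntegral.integral_add_adjacent_intervals (c1.intervalIntegrable 0 (1/2)) (c1.intervalIntegrable (1/2) 1)]
    norm_num
  have hP : PP g = 2 * ∫ y in (0:ℝ)..(1/2), ‖(m y : ℂ) * A g y + (m (y + 1 / 2) : ℂ) * A g (y + 1 / 2)‖ ^ 2 := by
    unfold PP
    rw [half]
    congr 1
    refine intervalIntegral.integral_congr fun y _ => ?_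
    show ‖per (fun y => g y * (h y : ℂ)) (2 * y)‖ ^ 2 = _
    rw [P_eq h1 h2 hs]
  have hQ : QQ g = 2 * ∫ y in (0:ℝ)..(1/2), ‖(m (y + 1 / 2) : ℂ) * A g y - (m y : ℂ) * A g (y + 1 / 2)‖ ^ 2 := by
    unfold QQ
    rw [half]
    congr 1
    refine intervalIntegral.integral_congr fun y _ => ?_
    show ‖per (fun y => g y * (starRingEnd ℂ) (G y)) (2 * y)‖ ^ 2 = _
    rw [Q_eq h2 hs, norm_mul]
    have : ‖Complex.exp (-(2 * π * y * Complex.I))‖ = 1 := by
      have := Complex.norm_exp_ofReal_mul_I (-(2 * π * y))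
      rw [← this]
      congr 2
      push_cast
      ring
    rw [this, one_mul]
  have c3 : Continuous fun y => ‖(m y : ℂ) * A g y + (m (y + 1 / 2) : ℂ) * A g (y + 1 / 2)‖ ^ 2 := by fun_prop
  have c4 : Continuous fun y => ‖(m (y + 1 / 2) : ℂ) * A g y - (m y : ℂ) * A g (y + 1 / 2)‖ ^ 2 := by fun_prop
  rw [hL, hsplit, hP, hQ, ← mul_add, ← intervalIntegral.integral_add (c3.intervalIntegrable _ _) (c4.intervalIntegrable _ _)]
  congr 1
  refine intervalIntegral.integral_congr fun y _ => ?_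
  exact (alg (m y) (m (y + 1 / 2)) (h2.2.2.1 y) (A g y) (A g (y + 1 / 2))).symm

end Pool.Agent.Q85.SW.TaskStep
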