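import Pool.Agent.Q85.SW.Stmts

/-! `SW.TaskTele` (helper230). -/

set_option autoImplicit false

open MeasureTheory Filter Topology Set

noncomputable section

namespace Pool.Agent.Q85.SW.TaskTele

theorem dl_cont (g : ℝ → ℂ) (hg : Continuous g) (j : ℤ) : Continuous (Dl j g) := by
  unfold Dl
  exact continuous_const.mul (hg.comp (continuous_const.mul continuous_id))

theorem dl_supp (g : ℝ → ℂ) (hs : HasCompactSupport g) (j : ℤ) : HasCompactSupport (Dl j g) := by
  have h2 : ((2 : ℝ) ^ j) ≠ 0 := zpow_ne_zero _ (by norm_num)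
  have h1 : HasCompactSupport (fun x : ℝ => g ((2 : ℝ) ^ j * x)) := by
    have := hs.comp_homeomorph (Homeomorph.mulLeft₀ ((2 : ℝ) ^ j) h2)
    exact this
  exact h1.mul_left

theorem dl_succ (g : ℝ → ℂ) (j : ℤ) :
    Dl (j + 1) g = fun x => ((Real.sqrt 2 : ℝ) : ℂ) * Dl j g (2 * x) := by
  funext x
  unfold Dl
  have e1 : (2 : ℝ) ^ (((j + 1 : ℤ) : ℝ) / 2) = Real.sqrt 2 * (2 : ℝ) ^ ((j : ℝ) / 2) := by
    rw [Real.sqrt_eq_rpow, ← Real.rpow_add (by norm_num)]
    congr 1
    push_cast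
    ring
  have e2 : (2 : ℝ) ^ (j + 1) * x = (2 : ℝ) ^ j * (2 * x) := by
    rw [zpow_add_one₀ (by norm_num)]
    ring
  rw [e1, e2]
  push_cast
  ring

theorem qq_nonneg (g : ℝ → ℂ) : 0 ≤ QQ g := by
  unfold QQ
  exact intervalIntegral.integral_nonneg (by norm_num) (fun x _ => by positivity)

theorem main (hStep : TaskStep) (hTop : TaskTop) (hBot : TaskBot) :
    Pool.Agent.Q85.SW.TaskTele := by
  intro g hg hs
  have key : ∀ j : ℤ, QQ (Dl j g) = PP (Dl (j + 1) g) - PP (Dl j g) := by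
    intro j
    have := hStep (Dl j g) (dl_cont g hg j) (dl_supp g hs j)
    rw [← dl_succ g j] at this
    rw [this]; ring
  have h1 : HasSum (fun n : ℕ => QQ (Dl (n : ℤ) g)) ((∫ x, ‖g x‖ ^ 2) - PP (Dl 0 g)) := by
    rw [hasSum_iff_tendsto_nat_of_nonneg (fun n => qq_nonneg _)]
    have e : ∀ N : ℕ, ∑ n ∈ Finset.range N, QQ (Dl (n : ℤ) g) = PP (Dl (N : ℤ) g) - PP (Dl 0 g) := by
      intro N
      induction N with
      | zero => simp
      | succ N ih =>
        rw [Finset.sum_range_succ, ih, key]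
        push_cast
        ring
    simp only [e]
    exact (hTop g hg hs).sub_const _
  have h2 : HasSum (fun n : ℕ => QQ (Dl (-((n : ℤ) + 1)) g)) (PP (Dl 0 g) - 0) := by
    rw [hasSum_iff_tendsto_nat_of_nonneg (fun n => qq_nonneg _)]
    have e : ∀ N : ℕ, ∑ n ∈ Finset.range N, QQ (Dl (-((n : ℤ) + 1)) g) =
        PP (Dl 0 g) - PP (Dl (-(N : ℤ)) g) := by
      intro N
      induction N with
      | zero => simp
      | succ N ih =>
        rw [Finset.sum_range_succ, ih, key]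
        have : -((N : ℤ) + 1) + 1 = -(N : ℤ) := by ring
        rw [this]
        push_cast
        ring
    simp only [e]
    exact (hBot g hg hs).const_sub _
  have h3 := HasSum.of_nat_of_neg_add_one (f := fun j : ℤ => QQ (Dl j g)) h1 h2
  have e : (∫ x, ‖g x‖ ^ 2) - PP (Dl 0 g) + (PP (Dl 0 g) - 0) = ∫ x, ‖g x‖ ^ 2 := by ring
  rw [e] at h3
  exact h3

end Pool.Agent.Q85.SW.TaskTele
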