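import Pool.Agent.Q85.SW.Stmts

/-! TaskTop (helper135). -/

set_option autoImplicit false

open MeasureTheory Filter Topology Set
open scoped SchwartzMap FourierTransform ContDiff Real

noncomputable section

namespace Pool.Agent.Q85.SW.TaskTop
open Pool.Agent.Q85.SW

/-- functions supported in `(-1/2, 1/2)` -/
private lemma per_int {u : ℝ → ℂ} (hu : Continuous u) (h0 : ∀ y : ℝ, 1 / 2 ≤ |y| → u y = 0) :
    ∫ x in (0 : ℝ)..1, ‖per u x‖ ^ 2 = ∫ x, ‖u x‖ ^ 2 := by
  have hc : Continuous fun x => ‖u x‖ ^ 2 := hu.norm.pow 2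
  have e1 : ∀ x ∈ Icc (0 : ℝ) (1 / 2), per u x = u x := by
    intro x hx
    unfold per
    rw [tsum_eq_single 0]
    · simp
    · intro n hn
      apply h0
      rcases lt_or_gt_of_ne hn with h | h
      · have h1 : (n : ℝ) ≤ -1 := by exact_mod_cast (by omega : n ≤ -1)
        rw [abs_of_nonpos (by linarith [hx.2])]
        linarith [hx.2]
      · have h1 : (1 : ℝ) ≤ n := by exact_mod_cast (by omega : (1 : ℤ) ≤ n)
        rw [abs_of_nonneg (by linarith [hx.1])]
        linarith [hx.1]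
  have e2 : ∀ x ∈ Icc (1 / 2 : ℝ) 1, per u x = u (x - 1) := by
    intro x hx
    unfold per
    rw [tsum_eq_single (-1)]
    · congr 1
      push_cast
      ring
    · intro n hn
      apply h0
      rcases lt_or_gt_of_ne hn with h | h
      · have h1 : (n : ℝ) ≤ -2 := by exact_mod_cast (by omega : n ≤ -2)
        rw [abs_of_nonpos (by linarith [hx.2])]
        linarith [hx.2]
      · have h1 : (0 : ℝ) ≤ n := by exact_mod_cast (by omega : (0 : ℤ) ≤ n)
        rw [abs_of_nonneg (by linarith [hx.1])]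
        linarith [hx.1]
  have c1 : ∫ x in (0 : ℝ)..(1 / 2), ‖per u x‖ ^ 2 = ∫ x in (0 : ℝ)..(1 / 2), ‖u x‖ ^ 2 := by
    refine intervalIntegral.integral_congr fun x hx => ?_
    rw [uIcc_of_le (by norm_num)] at hx
    simp only [e1 x hx]
  have c2 : ∫ x in (1 / 2 : ℝ)..1, ‖per u x‖ ^ 2 = ∫ x in (-(1 / 2) : ℝ)..0, ‖u x‖ ^ 2 := by
    have : ∫ x in (1 / 2 : ℝ)..1, ‖per u x‖ ^ 2 = ∫ x in (1 / 2 : ℝ)..1, ‖u (x - 1)‖ ^ 2 := by
      refine intervalIntegral.integral_congr fun x hx => ?_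
      rw [uIcc_of_le (by norm_num)] at hx
      simp only [e2 x hx]
    rw [this, intervalIntegral.integral_comp_sub_right (fun x => ‖u x‖ ^ 2) 1]
    norm_num
  have i1 : IntervalIntegrable (fun x => ‖per u x‖ ^ 2) volume 0 (1 / 2) := by
    refine (hc.intervalIntegrable 0 (1 / 2)).congr_ae ?_
    rw [EventuallyEq, ae_restrict_iff' measurableSet_uIoc]
    refine Eventually.of_forall fun x hx => ?_
    rw [uIoc_of_le (by norm_num)] at hx
    simp only [e1 x ⟨hx.1.le, hx.2⟩]
  have i2 : IntervalIntegrable (fun x => ‖per u x‖ ^ 2) volume (1 / 2) 1 := by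
    have hc' : Continuous fun x => ‖u (x - 1)‖ ^ 2 := (hu.comp (continuous_id.sub continuous_const)).norm.pow 2
    refine (hc'.intervalIntegrable (1 / 2) 1).congr_ae ?_
    rw [EventuallyEq, ae_restrict_iff' measurableSet_uIoc]
    refine Eventually.of_forall fun x hx => ?_
    rw [uIoc_of_le (by norm_num)] at hx
    simp only [e2 x ⟨hx.1.le, hx.2⟩]
  rw [← intervalIntegral.integral_add_adjacent_intervals i1 i2, c1, c2, add_comm,
    intervalIntegral.integral_add_adjacent_intervals (hc.intervalIntegrable _ _)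
      (hc.intervalIntegrable _ _)]
  refine intervalIntegral.integral_eq_integral_of_support_subset fun x hx => ?_
  rw [Function.mem_support] at hx
  by_contra hcon
  apply hx
  have : 1 / 2 ≤ |x| := by
    by_contra h1
    push Not at h1
    rw [abs_lt] at h1
    exact hcon ⟨by linarith [h1.1], by linarith [h1.2]⟩
  rw [h0 x this]
  simp

private lemma dct {g : ℝ → ℂ} {k : ℝ → ℝ} (hg : Continuous g) (hgc : HasCompactSupport g)
    (hk : Continuous k) (hk0 : k 0 = 1) (hk1 : ∀ x, |k x| ≤ 1) :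
    Tendsto (fun n : ℕ => ∫ z, ‖g z‖ ^ 2 * k (z / 2 ^ n) ^ 2) atTop (𝓝 (∫ z, ‖g z‖ ^ 2)) := by
  have hpow : Tendsto (fun n : ℕ => (2 : ℝ) ^ n) atTop atTop :=
    tendsto_pow_atTop_atTop_of_one_lt one_lt_two
  have hc2 : HasCompactSupport (fun z => ‖g z‖ ^ 2) :=
    HasCompactSupport.intro hgc.isCompact fun x hx => by
      simp [image_eq_zero_of_notMem_tsupport hx]
  refine tendsto_integral_of_dominated_convergence (fun z => ‖g z‖ ^ 2) ?_ ?_ ?_ ?_
  · intro n
    exact ((hg.norm.pow 2).mul ((hk.comp (continuous_id.div_const _)).pow 2)).aestronglyMeasurable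
  · exact (hg.norm.pow 2).integrable_of_hasCompactSupport hc2
  · intro n
    refine Eventually.of_forall fun z => ?_
    rw [Real.norm_eq_abs, abs_mul, abs_of_nonneg (by positivity : (0 : ℝ) ≤ ‖g z‖ ^ 2), abs_pow]
    have : |k (z / 2 ^ n)| ^ 2 ≤ 1 := pow_le_one₀ (abs_nonneg _) (hk1 _)
    exact mul_le_of_le_one_right (by positivity) this
  · refine Eventually.of_forall fun z => ?_
    have t1 : Tendsto (fun n : ℕ => z / 2 ^ n) atTop (𝓝 0) := tendsto_const_nhds.div_atTop hpow
    have t2 : Tendsto (fun n : ℕ => k (z / 2 ^ n)) atTop (𝓝 1) := by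
      rw [← hk0]
      exact (hk.tendsto 0).comp t1
    have t3 := (t2.pow 2).const_mul (‖g z‖ ^ 2)
    simpa using t3

theorem main (h1 : TaskHPos) (h2 : TaskHSmooth) : Pool.Agent.Q85.SW.TaskTop := by
  intro g hg hgc
  obtain ⟨hh0, hh1, -⟩ := h1
  have hhc : Continuous h := h2.1.continuous
  obtain ⟨R, hR⟩ := hgc.isCompact.isBounded.subset_closedBall 0
  have hgR : ∀ x : ℝ, R < |x| → g x = 0 := by
    intro x hx
    by_contra hne
    have := hR (subset_tsupport _ (Function.mem_support.2 hne))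
    rw [mem_closedBall_zero_iff, Real.norm_eq_abs] at this
    linarith
  have hpow : Tendsto (fun n : ℕ => (2 : ℝ) ^ n) atTop atTop :=
    tendsto_pow_atTop_atTop_of_one_lt one_lt_two
  have hDCT := dct hg hgc hhc hh0 hh1
  refine hDCT.congr' ?_
  filter_upwards [hpow.eventually_gt_atTop (2 * R)] with n hn
  symm
  unfold PP
  rw [per_int]
  · have e : ∀ y : ℝ, ‖Dl (n : ℤ) g y * (h y : ℂ)‖ ^ 2 =
        2 ^ n * (fun z : ℝ => ‖g z‖ ^ 2 * h (z / 2 ^ n) ^ 2) (2 ^ n * y) := by
      intro y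
      have e1 : ((2 : ℝ) ^ (((n : ℤ) : ℝ) / 2)) ^ 2 = 2 ^ n := by
        rw [← Real.rpow_natCast, ← Real.rpow_mul (by norm_num)]
        push_cast
        rw [div_mul_cancel₀ _ (by norm_num : (2 : ℝ) ≠ 0), Real.rpow_natCast]
      have e2 : (2 : ℝ) ^ n * y / 2 ^ n = y := by field_simp
      simp only [Dl, norm_mul, mul_pow, zpow_natCast, e2]
      rw [Complex.norm_real, Complex.norm_real, Real.norm_eq_abs, Real.norm_eq_abs, sq_abs, sq_abs,
        e1]
      ring
    simp_rw [e]
    rw [integral_const_mul, Measure.integral_comp_mul_left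
      (fun z : ℝ => ‖g z‖ ^ 2 * h (z / 2 ^ n) ^ 2) (2 ^ n : ℝ), smul_eq_mul,
      abs_of_pos (by positivity : (0 : ℝ) < (2 ^ n)⁻¹), ← mul_assoc,
      mul_inv_cancel₀ (by positivity : (2 : ℝ) ^ n ≠ 0), one_mul]
  · have : Continuous (Dl (n : ℤ) g) := by
      unfold Dl
      exact continuous_const.mul (hg.comp (continuous_const.mul continuous_id))
    exact this.mul (Complex.continuous_ofReal.comp hhc)
  · intro y hy
    have : g ((2 : ℝ) ^ (n : ℤ) * y) = 0 := by
      apply hgR
      rw [zpow_natCast, abs_mul, abs_of_pos (by positivity : (0 : ℝ) < 2 ^ n)]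
      have h3 : (2 : ℝ) ^ n * (1 / 2) ≤ 2 ^ n * |y| := mul_le_mul_of_nonneg_left hy (by positivity)
      linarith
    simp only [Dl, this, mul_zero, zero_mul]

end Pool.Agent.Q85.SW.TaskTop
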