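import Pool.Agent.Q85.SW.Fin
import Pool.Agent.Q85.SW.TaskEta
import Pool.Agent.Q85.SW.TaskKapVal
import Pool.Agent.Q85.SW.TaskKapSmooth
import Pool.Agent.Q85.SW.TaskFlatGen
import Pool.Agent.Q85.SW.TaskKapZero
import Pool.Agent.Q85.SW.TaskMSmooth
import Pool.Agent.Q85.SW.TaskMPer
import Pool.Agent.Q85.SW.TaskMPos
import Pool.Agent.Q85.SW.TaskMZone
import Pool.Agent.Q85.SW.TaskMBd
import Pool.Agent.Q85.SW.TaskMDer
import Pool.Agent.Q85.SW.TaskFlat
import Pool.Agent.Q85.SW.TaskJMul
import Pool.Agent.Q85.SW.TaskJScale
import Pool.Agent.Q85.SW.TaskJProd
import Pool.Agent.Q85.SW.TaskDiffBd
import Pool.Agent.Q85.SW.TaskLim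
import Pool.Agent.Q85.SW.TaskSeq
import Pool.Agent.Q85.SW.TaskHSmooth
import Pool.Agent.Q85.SW.TaskHDecay
import Pool.Agent.Q85.SW.TaskHPos
import Pool.Agent.Q85.SW.TaskPInt
import Pool.Agent.Q85.SW.TaskHNorm
import Pool.Agent.Q85.SW.TaskGSchwartz
import Pool.Agent.Q85.SW.TaskGNorm
import Pool.Agent.Q85.SW.TaskGSupp
import Pool.Agent.Q85.SW.TaskStep
import Pool.Agent.Q85.SW.TaskTop
import Pool.Agent.Q85.SW.TaskBot
import Pool.Agent.Q85.SW.TaskTele
import Pool.Agent.Q85.SW.TaskFou
import Pool.Agent.Q85.SW.TaskCoef
import Pool.Agent.Q85.SW.TaskPars
import Pool.Agent.Q85.SW.TaskAbsH
import Pool.Agent.Q85.SW.TaskENorm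
import Pool.Agent.Q85.SW.TaskBasis
import Pool.Agent.Q85.SW.TaskFTcalc
import Pool.Agent.Q85.SW.TaskFT
import Pool.Agent.Q85.SW.RefB
import Pool.Agent.Q85.SW.Fract

/-! Assembly of the proof for MP_27eeb4_an. -/

set_option autoImplicit false

namespace Pool.Agent.Q85.SW.Top

open Pool.Agent.Q85.SW

theorem goal : Goal := by
  have hEta : TaskEta := by
    first | exact Pool.Agent.Q85.SW.TaskEta.main | exact Pool.Agent.Q85.SW.TaskEta.main (by assumption) | exact Pool.Agent.Q85.SW.TaskEta.main (by assumption) (by assumption) | exact Pool.Agent.Q85.SW.TaskEta.main (by assumption) (by assumption) (by assumption) | exact Pool.Agent.Q85.SW.TaskEta.main (by assumption) (by assumption) (by assumption) (by assumption) | exact Pool.Agent.Q85.SW.TaskEta.main (by assumption) (by assumption) (by assumption) (by assumption) (by assumption) | exact Pool.Agent.Q85.SW.TaskEta.main (by assumption) (by assumption) (by assumption) (by assumption) (by assumption) (by assumption) | exact Pool.Agent.Q85.SW.TaskEta.main (by assumption) (by assumption) (by assumption) (by assumption) (by assumption) (by assumption) (by assumption) | exact Pool.Agent.Q85.SW.TaskEta.main (by assumption) (by assumption) (by assumption) (by assumption) (by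 assumption) (by assumption) (by assumption) (by assumption)
  have hKapVal : TaskKapVal := by
    first | exact Pool.Agent.Q85.SW.TaskKapVal.main | exact Pool.Agent.Q85.SW.TaskKapVal.main (by assumption) | exact Pool.Agent.Q85.SW.TaskKapVal.main (by assumption) (by assumption) | exact Pool.Agent.Q85.SW.TaskKapVal.main (by assumption) (by assumption) (by assumption) | exact Pool.Agent.Q85.SW.TaskKapVal.main (by assumption) (by assumption) (by assumption) (by assumption) | exact Pool.Agent.Q85.SW.TaskKapVal.main (by assumption) (by assumption) (by assumption) (by assumption) (by assumption) | exact Pool.Agent.Q85.SW.TaskKapVal.main (by assumption) (by assumption) (by assumption) (by assumption) (by assumption) (by assumption) | exact Pool.Agent.Q85.SW.TaskKapVal.main (by assumption) (by assumption) (by assumption) (by assumption) (by assumption) (by assumption) (by assumption) | exact Pool.Agent.Q85.SW.TaskKapVal.main (by assumption) (by assumption) (by assumption) (by assumption) (by assumption) (by assumption) (by assumption) (by assumption)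
  have hKapSmooth : TaskKapSmooth := by
    first | exact Pool.Agent.Q85.SW.TaskKapSmooth.main | exact Pool.Agent.Q85.SW.TaskKapSmooth.main (by assumption) | exact Pool.Agent.Q85.SW.TaskKapSmooth.main (by assumption) (by assumption) | exact Pool.Agent.Q85.SW.TaskKapSmooth.main (by assumption) (by assumption) (by assumption) | exact Pool.Agent.Q85.SW.TaskKapSmooth.main (by assumption) (by assumption) (by assumption) (by assumption) | exact Pool.Agent.Q85.SW.TaskKapSmooth.main (by assumption) (by assumption) (by assumption) (by assumption) (by assumption) | exact Pool.Agent.Q85.SW.TaskKapSmooth.main (by assumption) (by assumption) (by assumption) (by assumption) (by assumption) (by assumption) | exact Pool.Agent.Q85.SW.TaskKapSmooth.main (by assumption) (by assumption) (by assumption) (by assumption) (by assumption) (by assumption) (by assumption) | exact Pool.Agent.Q85.SW.TaskKapSmooth.main (by assumption) (by assumption) (by assumption) (by assumption) (by assumption) (by assumption) (by assumption) (by assumption)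
  have hFlatGen : TaskFlatGen := by
    first | exact Pool.Agent.Q85.SW.TaskFlatGen.main | exact Pool.Agent.Q85.SW.TaskFlatGen.main (by assumption) | exact Pool.Agent.Q85.SW.TaskFlatGen.main (by assumption) (by assumption) | exact Pool.Agent.Q85.SW.TaskFlatGen.main (by assumption) (by assumption) (by assumption) | exact Pool.Agent.Q85.SW.TaskFlatGen.main (by assumption) (by assumption) (by assumption) (by assumption) | exact Pool.Agent.Q85.SW.TaskFlatGen.main (by assumption) (by assumption) (by assumption) (by assumption) (by assumption) | exact Pool.Agent.Q85.SW.TaskFlatGen.main (by assumption) (by assumption) (by assumption) (by assumption) (by assumption) (by assumption) | exact Pool.Agent.Q85.SW.TaskFlatGen.main (by assumption) (by assumption) (by assumption) (by assumption) (by assumption) (by assumption) (by assumption) | exact Pool.Agent.Q85.SW.TaskFlatGen.main (by assumption) (by assumption) (by assumption) (by assumption) (by assumption) (by assumption) (by assumption) (by assumption)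
  have hKapZero : TaskKapZero := by
    first | exact Pool.Agent.Q85.SW.TaskKapZero.main | exact Pool.Agent.Q85.SW.TaskKapZero.main (by assumption) | exact Pool.Agent.Q85.SW.TaskKapZero.main (by assumption) (by assumption) | exact Pool.Agent.Q85.SW.TaskKapZero.main (by assumption) (by assumption) (by assumption) | exact Pool.Agent.Q85.SW.TaskKapZero.main (by assumption) (by assumption) (by assumption) (by assumption) | exact Pool.Agent.Q85.SW.TaskKapZero.main (by assumption) (by assumption) (by assumption) (by assumption) (by assumption) | exact Pool.Agent.Q85.SW.TaskKapZero.main (by assumption) (by assumption) (by assumption) (by assumption) (by assumption) (by assumption) | exact Pool.Agent.Q85.SW.TaskKapZero.main (by assumption) (by assumption) (by assumption) (by assumption) (by assumption) (by assumption) (by assumption) | exact Pool.Agent.Q85.SW.TaskKapZero.main (by assumption) (by assumption) (by assumption) (by assumption) (by assumption) (by assumption) (by assumption) (by assumption)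
  have hFract : TaskFract := Pool.Agent.Q85.SW.taskFract
  have hMSmooth : TaskMSmooth := by
    first | exact Pool.Agent.Q85.SW.TaskMSmooth.main | exact Pool.Agent.Q85.SW.TaskMSmooth.main (by assumption) | exact Pool.Agent.Q85.SW.TaskMSmooth.main (by assumption) (by assumption) | exact Pool.Agent.Q85.SW.TaskMSmooth.main (by assumption) (by assumption) (by assumption) | exact Pool.Agent.Q85.SW.TaskMSmooth.main (by assumption) (by assumption) (by assumption) (by assumption) | exact Pool.Agent.Q85.SW.TaskMSmooth.main (by assumption) (by assumption) (by assumption) (by assumption) (by assumption) | exact Pool.Agent.Q85.SW.TaskMSmooth.main (by assumption) (by assumption) (by assumption) (by assumption) (by assumption) (by assumption) | exact Pool.Agent.Q85.SW.TaskMSmooth.main (by assumption) (by assumption) (by assumption) (by assumption) (by assumption) (by assumption) (by assumption) | exact Pool.Agent.Q85.SW.TaskMSmooth.main (by assumption) (by assumption) (by assumption) (by assumption) (by assumption) (by assumption) (by assumption) (by assumption)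
  have hMPer : TaskMPer := by
    first | exact Pool.Agent.Q85.SW.TaskMPer.main | exact Pool.Agent.Q85.SW.TaskMPer.main (by assumption) | exact Pool.Agent.Q85.SW.TaskMPer.main (by assumption) (by assumption) | exact Pool.Agent.Q85.SW.TaskMPer.main (by assumption) (by assumption) (by assumption) | exact Pool.Agent.Q85.SW.TaskMPer.main (by assumption) (by assumption) (by assumption) (by assumption) | exact Pool.Agent.Q85.SW.TaskMPer.main (by assumption) (by assumption) (by assumption) (by assumption) (by assumption) | exact Pool.Agent.Q85.SW.TaskMPer.main (by assumption) (by assumption) (by assumption) (by assumption) (by assumption) (by assumption) | exact Pool.Agent.Q85.SW.TaskMPer.main (by assumption) (by assumption) (by assumption) (by assumption) (by assumption) (by assumption) (by assumption) | exact Pool.Agent.Q85.SW.TaskMPer.main (by assumption) (by assumption) (by assumption) (by assumption) (by assumption) (by assumption) (by assumption) (by assumption)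
  have hMPos : TaskMPos := by
    first | exact Pool.Agent.Q85.SW.TaskMPos.main | exact Pool.Agent.Q85.SW.TaskMPos.main (by assumption) | exact Pool.Agent.Q85.SW.TaskMPos.main (by assumption) (by assumption) | exact Pool.Agent.Q85.SW.TaskMPos.main (by assumption) (by assumption) (by assumption) | exact Pool.Agent.Q85.SW.TaskMPos.main (by assumption) (by assumption) (by assumption) (by assumption) | exact Pool.Agent.Q85.SW.TaskMPos.main (by assumption) (by assumption) (by assumption) (by assumption) (by assumption) | exact Pool.Agent.Q85.SW.TaskMPos.main (by assumption) (by assumption) (by assumption) (by assumption) (by assumption) (by assumption) | exact Pool.Agent.Q85.SW.TaskMPos.main (by assumption) (by assumption) (by assumption) (by assumption) (by assumption) (by assumption) (by assumption) | exact Pool.Agent.Q85.SW.TaskMPos.main (by assumption) (by assumption) (by assumption) (by assumption) (by assumption) (by assumption) (by assumption) (by assumption)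
  have hMZone : TaskMZone := by
    first | exact Pool.Agent.Q85.SW.TaskMZone.main | exact Pool.Agent.Q85.SW.TaskMZone.main (by assumption) | exact Pool.Agent.Q85.SW.TaskMZone.main (by assumption) (by assumption) | exact Pool.Agent.Q85.SW.TaskMZone.main (by assumption) (by assumption) (by assumption) | exact Pool.Agent.Q85.SW.TaskMZone.main (by assumption) (by assumption) (by assumption) (by assumption) | exact Pool.Agent.Q85.SW.TaskMZone.main (by assumption) (by assumption) (by assumption) (by assumption) (by assumption) | exact Pool.Agent.Q85.SW.TaskMZone.main (by assumption) (by assumption) (by assumption) (by assumption) (by assumption) (by assumption) | exact Pool.Agent.Q85.SW.TaskMZone.main (by assumption) (by assumption) (by assumption) (by assumption) (by assumption) (by assumption) (by assumption) | exact Pool.Agent.Q85.SW.TaskMZone.main (by assumption) (by assumption) (by assumption) (by assumption) (by assumption) (by assumption) (by assumption) (by assumption)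
  have hMBd : TaskMBd := by
    first | exact Pool.Agent.Q85.SW.TaskMBd.main | exact Pool.Agent.Q85.SW.TaskMBd.main (by assumption) | exact Pool.Agent.Q85.SW.TaskMBd.main (by assumption) (by assumption) | exact Pool.Agent.Q85.SW.TaskMBd.main (by assumption) (by assumption) (by assumption) | exact Pool.Agent.Q85.SW.TaskMBd.main (by assumption) (by assumption) (by assumption) (by assumption) | exact Pool.Agent.Q85.SW.TaskMBd.main (by assumption) (by assumption) (by assumption) (by assumption) (by assumption) | exact Pool.Agent.Q85.SW.TaskMBd.main (by assumption) (by assumption) (by assumption) (by assumption) (by assumption) (by assumption) | exact Pool.Agent.Q85.SW.TaskMBd.main (by assumption) (by assumption) (by assumption) (by assumption) (by assumption) (by assumption) (by assumption) | exact Pool.Agent.Q85.SW.TaskMBd.main (by assumption) (by assumption) (by assumption) (by assumption) (by assumption) (by assumption) (by assumption) (by assumption)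
  have hMDer : TaskMDer := by
    first | exact Pool.Agent.Q85.SW.TaskMDer.main | exact Pool.Agent.Q85.SW.TaskMDer.main (by assumption) | exact Pool.Agent.Q85.SW.TaskMDer.main (by assumption) (by assumption) | exact Pool.Agent.Q85.SW.TaskMDer.main (by assumption) (by assumption) (by assumption) | exact Pool.Agent.Q85.SW.TaskMDer.main (by assumption) (by assumption) (by assumption) (by assumption) | exact Pool.Agent.Q85.SW.TaskMDer.main (by assumption) (by assumption) (by assumption) (by assumption) (by assumption) | exact Pool.Agent.Q85.SW.TaskMDer.main (by assumption) (by assumption) (by assumption) (by assumption) (by assumption) (by assumption) | exact Pool.Agent.Q85.SW.TaskMDer.main (by assumption) (by assumption) (by assumption) (by assumption) (by assumption) (by assumption) (by assumption) | exact Pool.Agent.Q85.SW.TaskMDer.main (by assumption) (by assumption) (by assumption) (by assumption) (by assumption) (by assumption) (by assumption) (by assumption)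
  have hFlat : TaskFlat := by
    first | exact Pool.Agent.Q85.SW.TaskFlat.main | exact Pool.Agent.Q85.SW.TaskFlat.main (by assumption) | exact Pool.Agent.Q85.SW.TaskFlat.main (by assumption) (by assumption) | exact Pool.Agent.Q85.SW.TaskFlat.main (by assumption) (by assumption) (by assumption) | exact Pool.Agent.Q85.SW.TaskFlat.main (by assumption) (by assumption) (by assumption) (by assumption) | exact Pool.Agent.Q85.SW.TaskFlat.main (by assumption) (by assumption) (by assumption) (by assumption) (by assumption) | exact Pool.Agent.Q85.SW.TaskFlat.main (by assumption) (by assumption) (by assumption) (by assumption) (by assumption) (by assumption) | exact Pool.Agent.Q85.SW.TaskFlat.main (by assumption) (by assumption) (by assumption) (by assumption) (by assumption) (by assumption) (by assumption) | exact Pool.Agent.Q85.SW.TaskFlat.main (by assumption) (by assumption) (by assumption) (by assumption) (by assumption) (by assumption) (by assumption) (by assumption)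
  have hJMul : TaskJMul := by
    first | exact Pool.Agent.Q85.SW.TaskJMul.main | exact Pool.Agent.Q85.SW.TaskJMul.main (by assumption) | exact Pool.Agent.Q85.SW.TaskJMul.main (by assumption) (by assumption) | exact Pool.Agent.Q85.SW.TaskJMul.main (by assumption) (by assumption) (by assumption) | exact Pool.Agent.Q85.SW.TaskJMul.main (by assumption) (by assumption) (by assumption) (by assumption) | exact Pool.Agent.Q85.SW.TaskJMul.main (by assumption) (by assumption) (by assumption) (by assumption) (by assumption) | exact Pool.Agent.Q85.SW.TaskJMul.main (by assumption) (by assumption) (by assumption) (by assumption) (by assumption) (by assumption) | exact Pool.Agent.Q85.SW.TaskJMul.main (by assumption) (by assumption) (by assumption) (by assumption) (by assumption) (by assumption) (by assumption) | exact Pool.Agent.Q85.SW.TaskJMul.main (by assumption) (by assumption) (by assumption) (by assumption) (by assumption) (by assumption) (by assumption) (by assumption)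
  have hJScale : TaskJScale := by
    first | exact Pool.Agent.Q85.SW.TaskJScale.main | exact Pool.Agent.Q85.SW.TaskJScale.main (by assumption) | exact Pool.Agent.Q85.SW.TaskJScale.main (by assumption) (by assumption) | exact Pool.Agent.Q85.SW.TaskJScale.main (by assumption) (by assumption) (by assumption) | exact Pool.Agent.Q85.SW.TaskJScale.main (by assumption) (by assumption) (by assumption) (by assumption) | exact Pool.Agent.Q85.SW.TaskJScale.main (by assumption) (by assumption) (by assumption) (by assumption) (by assumption) | exact Pool.Agent.Q85.SW.TaskJScale.main (by assumption) (by assumption) (by assumption) (by assumption) (by assumption) (by assumption) | exact Pool.Agent.Q85.SW.TaskJScale.main (by assumption) (by assumption) (by assumption) (by assumption) (by assumption) (by assumption) (by assumption) | exact Pool.Agent.Q85.SW.TaskJScale.main (by assumption) (by assumption) (by assumption) (by assumption) (by assumption) (by assumption) (by assumption) (by assumption)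
  have hJProd : TaskJProd := by
    first | exact Pool.Agent.Q85.SW.TaskJProd.main | exact Pool.Agent.Q85.SW.TaskJProd.main (by assumption) | exact Pool.Agent.Q85.SW.TaskJProd.main (by assumption) (by assumption) | exact Pool.Agent.Q85.SW.TaskJProd.main (by assumption) (by assumption) (by assumption) | exact Pool.Agent.Q85.SW.TaskJProd.main (by assumption) (by assumption) (by assumption) (by assumption) | exact Pool.Agent.Q85.SW.TaskJProd.main (by assumption) (by assumption) (by assumption) (by assumption) (by assumption) | exact Pool.Agent.Q85.SW.TaskJProd.main (by assumption) (by assumption) (by assumption) (by assumption) (by assumption) (by assumption) | exact Pool.Agent.Q85.SW.TaskJProd.main (by assumption) (by assumption) (by assumption) (by assumption) (by assumption) (by assumption) (by assumption) | exact Pool.Agent.Q85.SW.TaskJProd.main (by assumption) (by assumption) (by assumption) (by assumption) (by assumption) (by assumption) (by assumption) (by assumption)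
  have hDiffBd : TaskDiffBd := by
    first | exact Pool.Agent.Q85.SW.TaskDiffBd.main | exact Pool.Agent.Q85.SW.TaskDiffBd.main (by assumption) | exact Pool.Agent.Q85.SW.TaskDiffBd.main (by assumption) (by assumption) | exact Pool.Agent.Q85.SW.TaskDiffBd.main (by assumption) (by assumption) (by assumption) | exact Pool.Agent.Q85.SW.TaskDiffBd.main (by assumption) (by assumption) (by assumption) (by assumption) | exact Pool.Agent.Q85.SW.TaskDiffBd.main (by assumption) (by assumption) (by assumption) (by assumption) (by assumption) | exact Pool.Agent.Q85.SW.TaskDiffBd.main (by assumption) (by assumption) (by assumption) (by assumption) (by assumption) (by assumption) | exact Pool.Agent.Q85.SW.TaskDiffBd.main (by assumption) (by assumption) (by assumption) (by assumption) (by assumption) (by assumption) (by assumption) | exact Pool.Agent.Q85.SW.TaskDiffBd.main (by assumption) (by assumption) (by assumption) (by assumption) (by assumption) (by assumption) (by assumption) (by assumption)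
  have hLim : TaskLim := by
    first | exact Pool.Agent.Q85.SW.TaskLim.main | exact Pool.Agent.Q85.SW.TaskLim.main (by assumption) | exact Pool.Agent.Q85.SW.TaskLim.main (by assumption) (by assumption) | exact Pool.Agent.Q85.SW.TaskLim.main (by assumption) (by assumption) (by assumption) | exact Pool.Agent.Q85.SW.TaskLim.main (by assumption) (by assumption) (by assumption) (by assumption) | exact Pool.Agent.Q85.SW.TaskLim.main (by assumption) (by assumption) (by assumption) (by assumption) (by assumption) | exact Pool.Agent.Q85.SW.TaskLim.main (by assumption) (by assumption) (by assumption) (by assumption) (by assumption) (by assumption) | exact Pool.Agent.Q85.SW.TaskLim.main (by assumption) (by assumption) (by assumption) (by assumption) (by assumption) (by assumption) (by assumption) | exact Pool.Agent.Q85.SW.TaskLim.main (by assumption) (by assumption) (by assumption) (by assumption) (by assumption) (by assumption) (by assumption) (by assumption)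
  have hSeq : TaskSeq := by
    first | exact Pool.Agent.Q85.SW.TaskSeq.main | exact Pool.Agent.Q85.SW.TaskSeq.main (by assumption) | exact Pool.Agent.Q85.SW.TaskSeq.main (by assumption) (by assumption) | exact Pool.Agent.Q85.SW.TaskSeq.main (by assumption) (by assumption) (by assumption) | exact Pool.Agent.Q85.SW.TaskSeq.main (by assumption) (by assumption) (by assumption) (by assumption) | exact Pool.Agent.Q85.SW.TaskSeq.main (by assumption) (by assumption) (by assumption) (by assumption) (by assumption) | exact Pool.Agent.Q85.SW.TaskSeq.main (by assumption) (by assumption) (by assumption) (by assumption) (by assumption) (by assumption) | exact Pool.Agent.Q85.SW.TaskSeq.main (by assumption) (by assumption) (by assumption) (by assumption) (by assumption) (by assumption) (by assumption) | exact Pool.Agent.Q85.SW.TaskSeq.main (by assumption) (by assumption) (by assumption) (by assumption) (by assumption) (by assumption) (by assumption) (by assumption)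
  have hHSmooth : TaskHSmooth := by
    first | exact Pool.Agent.Q85.SW.TaskHSmooth.main | exact Pool.Agent.Q85.SW.TaskHSmooth.main (by assumption) | exact Pool.Agent.Q85.SW.TaskHSmooth.main (by assumption) (by assumption) | exact Pool.Agent.Q85.SW.TaskHSmooth.main (by assumption) (by assumption) (by assumption) | exact Pool.Agent.Q85.SW.TaskHSmooth.main (by assumption) (by assumption) (by assumption) (by assumption) | exact Pool.Agent.Q85.SW.TaskHSmooth.main (by assumption) (by assumption) (by assumption) (by assumption) (by assumption) | exact Pool.Agent.Q85.SW.TaskHSmooth.main (by assumption) (by assumption) (by assumption) (by assumption) (by assumption) (by assumption) | exact Pool.Agent.Q85.SW.TaskHSmooth.main (by assumption) (by assumption) (by assumption) (by assumption) (by assumption) (by assumption) (by assumption) | exact Pool.Agent.Q85.SW.TaskHSmooth.main (by assumption) (by assumption) (by assumption) (by assumption) (by assumption) (by assumption) (by assumption) (by assumption)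
  have hHDecay : TaskHDecay := by
    first | exact Pool.Agent.Q85.SW.TaskHDecay.main | exact Pool.Agent.Q85.SW.TaskHDecay.main (by assumption) | exact Pool.Agent.Q85.SW.TaskHDecay.main (by assumption) (by assumption) | exact Pool.Agent.Q85.SW.TaskHDecay.main (by assumption) (by assumption) (by assumption) | exact Pool.Agent.Q85.SW.TaskHDecay.main (by assumption) (by assumption) (by assumption) (by assumption) | exact Pool.Agent.Q85.SW.TaskHDecay.main (by assumption) (by assumption) (by assumption) (by assumption) (by assumption) | exact Pool.Agent.Q85.SW.TaskHDecay.main (by assumption) (by assumption) (by assumption) (by assumption) (by assumption) (by assumption) | exact Pool.Agent.Q85.SW.TaskHDecay.main (by assumption) (by assumption) (by assumption) (by assumption) (by assumption) (by assumption) (by assumption) | exact Pool.Agent.Q85.SW.TaskHDecay.main (by assumption) (by assumption) (by assumption) (by assumption) (by assumption) (by assumption) (by assumption) (by assumption)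
  have hRef : TaskRef := RefB.main hLim
  have hHPos : TaskHPos := by
    first | exact Pool.Agent.Q85.SW.TaskHPos.main | exact Pool.Agent.Q85.SW.TaskHPos.main (by assumption) | exact Pool.Agent.Q85.SW.TaskHPos.main (by assumption) (by assumption) | exact Pool.Agent.Q85.SW.TaskHPos.main (by assumption) (by assumption) (by assumption) | exact Pool.Agent.Q85.SW.TaskHPos.main (by assumption) (by assumption) (by assumption) (by assumption) | exact Pool.Agent.Q85.SW.TaskHPos.main (by assumption) (by assumption) (by assumption) (by assumption) (by assumption) | exact Pool.Agent.Q85.SW.TaskHPos.main (by assumption) (by assumption) (by assumption) (by assumption) (by assumption) (by assumption) | exact Pool.Agent.Q85.SW.TaskHPos.main (by assumption) (by assumption) (by assumption) (by assumption) (by assumption) (by assumption) (by assumption) | exact Pool.Agent.Q85.SW.TaskHPos.main (by assumption) (by assumption) (by assumption) (by assumption) (by assumption) (by assumption) (by assumption) (by assumption)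
  have hPInt : TaskPInt := by
    first | exact Pool.Agent.Q85.SW.TaskPInt.main | exact Pool.Agent.Q85.SW.TaskPInt.main (by assumption) | exact Pool.Agent.Q85.SW.TaskPInt.main (by assumption) (by assumption) | exact Pool.Agent.Q85.SW.TaskPInt.main (by assumption) (by assumption) (by assumption) | exact Pool.Agent.Q85.SW.TaskPInt.main (by assumption) (by assumption) (by assumption) (by assumption) | exact Pool.Agent.Q85.SW.TaskPInt.main (by assumption) (by assumption) (by assumption) (by assumption) (by assumption) | exact Pool.Agent.Q85.SW.TaskPInt.main (by assumption) (by assumption) (by assumption) (by assumption) (by assumption) (by assumption) | exact Pool.Agent.Q85.SW.TaskPInt.main (by assumption) (by assumption) (by assumption) (by assumption) (by assumption) (by assumption) (by assumption) | exact Pool.Agent.Q85.SW.TaskPInt.main (by assumption) (by assumption) (by assumption) (by assumption) (by assumption) (by assumption) (by assumption) (by assumption)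
  have hHNorm : TaskHNorm := by
    first | exact Pool.Agent.Q85.SW.TaskHNorm.main | exact Pool.Agent.Q85.SW.TaskHNorm.main (by assumption) | exact Pool.Agent.Q85.SW.TaskHNorm.main (by assumption) (by assumption) | exact Pool.Agent.Q85.SW.TaskHNorm.main (by assumption) (by assumption) (by assumption) | exact Pool.Agent.Q85.SW.TaskHNorm.main (by assumption) (by assumption) (by assumption) (by assumption) | exact Pool.Agent.Q85.SW.TaskHNorm.main (by assumption) (by assumption) (by assumption) (by assumption) (by assumption) | exact Pool.Agent.Q85.SW.TaskHNorm.main (by assumption) (by assumption) (by assumption) (by assumption) (by assumption) (by assumption) | exact Pool.Agent.Q85.SW.TaskHNorm.main (by assumption) (by assumption) (by assumption) (by assumption) (by assumption) (by assumption) (by assumption) | exact Pool.Agent.Q85.SW.TaskHNorm.main (by assumption) (by assumption) (by assumption) (by assumption) (by assumption) (by assumption) (by assumption) (by assumption)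
  have hGSchwartz : TaskGSchwartz := by
    first | exact Pool.Agent.Q85.SW.TaskGSchwartz.main | exact Pool.Agent.Q85.SW.TaskGSchwartz.main (by assumption) | exact Pool.Agent.Q85.SW.TaskGSchwartz.main (by assumption) (by assumption) | exact Pool.Agent.Q85.SW.TaskGSchwartz.main (by assumption) (by assumption) (by assumption) | exact Pool.Agent.Q85.SW.TaskGSchwartz.main (by assumption) (by assumption) (by assumption) (by assumption) | exact Pool.Agent.Q85.SW.TaskGSchwartz.main (by assumption) (by assumption) (by assumption) (by assumption) (by assumption) | exact Pool.Agent.Q85.SW.TaskGSchwartz.main (by assumption) (by assumption) (by assumption) (by assumption) (by assumption) (by assumption) | exact Pool.Agent.Q85.SW.TaskGSchwartz.main (by assumption) (by assumption) (by assumption) (by assumption) (by assumption) (by assumption) (by assumption) | exact Pool.Agent.Q85.SW.TaskGSchwartz.main (by assumption) (by assumption) (by assumption) (by assumption) (by assumption) (by assumption) (by assumption) (by assumption)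
  have hGNorm : TaskGNorm := by
    first | exact Pool.Agent.Q85.SW.TaskGNorm.main | exact Pool.Agent.Q85.SW.TaskGNorm.main (by assumption) | exact Pool.Agent.Q85.SW.TaskGNorm.main (by assumption) (by assumption) | exact Pool.Agent.Q85.SW.TaskGNorm.main (by assumption) (by assumption) (by assumption) | exact Pool.Agent.Q85.SW.TaskGNorm.main (by assumption) (by assumption) (by assumption) (by assumption) | exact Pool.Agent.Q85.SW.TaskGNorm.main (by assumption) (by assumption) (by assumption) (by assumption) (by assumption) | exact Pool.Agent.Q85.SW.TaskGNorm.main (by assumption) (by assumption) (by assumption) (by assumption) (by assumption) (by assumption) | exact Pool.Agent.Q85.SW.TaskGNorm.main (by assumption) (by assumption) (by assumption) (by assumption) (by assumption) (by assumption) (by assumption) | exact Pool.Agent.Q85.SW.TaskGNorm.main (by assumption) (by assumption) (by assumption) (by assumption) (by assumption) (by assumption) (by assumption) (by assumption)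
  have hGSupp : TaskGSupp := by
    first | exact Pool.Agent.Q85.SW.TaskGSupp.main | exact Pool.Agent.Q85.SW.TaskGSupp.main (by assumption) | exact Pool.Agent.Q85.SW.TaskGSupp.main (by assumption) (by assumption) | exact Pool.Agent.Q85.SW.TaskGSupp.main (by assumption) (by assumption) (by assumption) | exact Pool.Agent.Q85.SW.TaskGSupp.main (by assumption) (by assumption) (by assumption) (by assumption) | exact Pool.Agent.Q85.SW.TaskGSupp.main (by assumption) (by assumption) (by assumption) (by assumption) (by assumption) | exact Pool.Agent.Q85.SW.TaskGSupp.main (by assumption) (by assumption) (by assumption) (by assumption) (by assumption) (by assumption) | exact Pool.Agent.Q85.SW.TaskGSupp.main (by assumption) (by assumption) (by assumption) (by assumption) (by assumption) (by assumption) (by assumption) | exact Pool.Agent.Q85.SW.TaskGSupp.main (by assumption) (by assumption) (by assumption) (by assumption) (by assumption) (by assumption) (by assumption) (by assumption)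
  have hStep : TaskStep := by
    first | exact Pool.Agent.Q85.SW.TaskStep.main | exact Pool.Agent.Q85.SW.TaskStep.main (by assumption) | exact Pool.Agent.Q85.SW.TaskStep.main (by assumption) (by assumption) | exact Pool.Agent.Q85.SW.TaskStep.main (by assumption) (by assumption) (by assumption) | exact Pool.Agent.Q85.SW.TaskStep.main (by assumption) (by assumption) (by assumption) (by assumption) | exact Pool.Agent.Q85.SW.TaskStep.main (by assumption) (by assumption) (by assumption) (by assumption) (by assumption) | exact Pool.Agent.Q85.SW.TaskStep.main (by assumption) (by assumption) (by assumption) (by assumption) (by assumption) (by assumption) | exact Pool.Agent.Q85.SW.TaskStep.main (by assumption) (by assumption) (by assumption) (by assumption) (by assumption) (by assumption) (by assumption) | exact Pool.Agent.Q85.SW.TaskStep.main (by assumption) (by assumption) (by assumption) (by assumption) (by assumption) (by assumption) (by assumption) (by assumption)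
  have hTop : TaskTop := by
    first | exact Pool.Agent.Q85.SW.TaskTop.main | exact Pool.Agent.Q85.SW.TaskTop.main (by assumption) | exact Pool.Agent.Q85.SW.TaskTop.main (by assumption) (by assumption) | exact Pool.Agent.Q85.SW.TaskTop.main (by assumption) (by assumption) (by assumption) | exact Pool.Agent.Q85.SW.TaskTop.main (by assumption) (by assumption) (by assumption) (by assumption) | exact Pool.Agent.Q85.SW.TaskTop.main (by assumption) (by assumption) (by assumption) (by assumption) (by assumption) | exact Pool.Agent.Q85.SW.TaskTop.main (by assumption) (by assumption) (by assumption) (by assumption) (by assumption) (by assumption) | exact Pool.Agent.Q85.SW.TaskTop.main (by assumption) (by assumption) (by assumption) (by assumption) (by assumption) (by assumption) (by assumption) | exact Pool.Agent.Q85.SW.TaskTop.main (by assumption) (by assumption) (by assumption) (by assumption) (by assumption) (by assumption) (by assumption) (by assumption)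
  have hBot : TaskBot := by
    first | exact Pool.Agent.Q85.SW.TaskBot.main | exact Pool.Agent.Q85.SW.TaskBot.main (by assumption) | exact Pool.Agent.Q85.SW.TaskBot.main (by assumption) (by assumption) | exact Pool.Agent.Q85.SW.TaskBot.main (by assumption) (by assumption) (by assumption) | exact Pool.Agent.Q85.SW.TaskBot.main (by assumption) (by assumption) (by assumption) (by assumption) | exact Pool.Agent.Q85.SW.TaskBot.main (by assumption) (by assumption) (by assumption) (by assumption) (by assumption) | exact Pool.Agent.Q85.SW.TaskBot.main (by assumption) (by assumption) (by assumption) (by assumption) (by assumption) (by assumption) | exact Pool.Agent.Q85.SW.TaskBot.main (by assumption) (by assumption) (by assumption) (by assumption) (by assumption) (by assumption) (by assumption) | exact Pool.Agent.Q85.SW.TaskBot.main (by assumption) (by assumption) (by assumption) (by assumption) (by assumption) (by assumption) (by assumption) (by assumption)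
  have hTele : TaskTele := by
    first | exact Pool.Agent.Q85.SW.TaskTele.main | exact Pool.Agent.Q85.SW.TaskTele.main (by assumption) | exact Pool.Agent.Q85.SW.TaskTele.main (by assumption) (by assumption) | exact Pool.Agent.Q85.SW.TaskTele.main (by assumption) (by assumption) (by assumption) | exact Pool.Agent.Q85.SW.TaskTele.main (by assumption) (by assumption) (by assumption) (by assumption) | exact Pool.Agent.Q85.SW.TaskTele.main (by assumption) (by assumption) (by assumption) (by assumption) (by assumption) | exact Pool.Agent.Q85.SW.TaskTele.main (by assumption) (by assumption) (by assumption) (by assumption) (by assumption) (by assumption) | exact Pool.Agent.Q85.SW.TaskTele.main (by assumption) (by assumption) (by assumption) (by assumption) (by assumption) (by assumption) (by assumption) | exact Pool.Agent.Q85.SW.TaskTele.main (by assumption) (by assumption) (by assumption) (by assumption) (by assumption) (by assumption) (by assumption) (by assumption)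
  have hFou : TaskFou := by
    first | exact Pool.Agent.Q85.SW.TaskFou.main | exact Pool.Agent.Q85.SW.TaskFou.main (by assumption) | exact Pool.Agent.Q85.SW.TaskFou.main (by assumption) (by assumption) | exact Pool.Agent.Q85.SW.TaskFou.main (by assumption) (by assumption) (by assumption) | exact Pool.Agent.Q85.SW.TaskFou.main (by assumption) (by assumption) (by assumption) (by assumption) | exact Pool.Agent.Q85.SW.TaskFou.main (by assumption) (by assumption) (by assumption) (by assumption) (by assumption) | exact Pool.Agent.Q85.SW.TaskFou.main (by assumption) (by assumption) (by assumption) (by assumption) (by assumption) (by assumption) | exact Pool.Agent.Q85.SW.TaskFou.main (by assumption) (by assumption) (by assumption) (by assumption) (by assumption) (by assumption) (by assumption) | exact Pool.Agent.Q85.SW.TaskFou.main (by assumption) (by assumption) (by assumption) (by assumption) (by assumption) (by assumption) (by assumption) (by assumption)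
  have hCoef : TaskCoef := by
    first | exact Pool.Agent.Q85.SW.taskCoef | exact Pool.Agent.Q85.SW.taskCoef (by assumption) | exact Pool.Agent.Q85.SW.taskCoef (by assumption) (by assumption) | exact Pool.Agent.Q85.SW.taskCoef (by assumption) (by assumption) (by assumption) | exact Pool.Agent.Q85.SW.taskCoef (by assumption) (by assumption) (by assumption) (by assumption) | exact Pool.Agent.Q85.SW.taskCoef (by assumption) (by assumption) (by assumption) (by assumption) (by assumption) | exact Pool.Agent.Q85.SW.taskCoef (by assumption) (by assumption) (by assumption) (by assumption) (by assumption) (by assumption) | exact Pool.Agent.Q85.SW.taskCoef (by assumption) (by assumption) (by assumption) (by assumption) (by assumption) (by assumption) (by assumption) | exact Pool.Agent.Q85.SW.taskCoef (by assumption) (by assumption) (by assumption) (by assumption) (by assumption) (by assumption) (by assumption) (by assumption)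
  have hPars : TaskPars := by
    first | exact Pool.Agent.Q85.SW.TaskPars.main | exact Pool.Agent.Q85.SW.TaskPars.main (by assumption) | exact Pool.Agent.Q85.SW.TaskPars.main (by assumption) (by assumption) | exact Pool.Agent.Q85.SW.TaskPars.main (by assumption) (by assumption) (by assumption) | exact Pool.Agent.Q85.SW.TaskPars.main (by assumption) (by assumption) (by assumption) (by assumption) | exact Pool.Agent.Q85.SW.TaskPars.main (by assumption) (by assumption) (by assumption) (by assumption) (by assumption) | exact Pool.Agent.Q85.SW.TaskPars.main (by assumption) (by assumption) (by assumption) (by assumption) (by assumption) (by assumption) | exact Pool.Agent.Q85.SW.TaskPars.main (by assumption) (by assumption) (by assumption) (by assumption) (by assumption) (by assumption) (by assumption) | exact Pool.Agent.Q85.SW.TaskPars.main (by assumption) (by assumption) (by assumption) (by assumption) (by assumption) (by assumption) (by assumption) (by assumption)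
  have hAbsH : TaskAbsH := by
    first | exact Pool.Agent.Q85.SW.TaskAbsH.main | exact Pool.Agent.Q85.SW.TaskAbsH.main (by assumption) | exact Pool.Agent.Q85.SW.TaskAbsH.main (by assumption) (by assumption) | exact Pool.Agent.Q85.SW.TaskAbsH.main (by assumption) (by assumption) (by assumption) | exact Pool.Agent.Q85.SW.TaskAbsH.main (by assumption) (by assumption) (by assumption) (by assumption) | exact Pool.Agent.Q85.SW.TaskAbsH.main (by assumption) (by assumption) (by assumption) (by assumption) (by assumption) | exact Pool.Agent.Q85.SW.TaskAbsH.main (by assumption) (by assumption) (by assumption) (by assumption) (by assumption) (by assumption) | exact Pool.Agent.Q85.SW.TaskAbsH.main (by assumption) (by assumption) (by assumption) (by assumption) (by assumption) (by assumption) (by assumption) | exact Pool.Agent.Q85.SW.TaskAbsH.main (by assumption) (by assumption) (by assumption) (by assumption) (by assumption) (by assumption) (by assumption) (by assumption)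
  have hENorm : TaskENorm := by
    first | exact Pool.Agent.Q85.SW.TaskENorm.main | exact Pool.Agent.Q85.SW.TaskENorm.main (by assumption) | exact Pool.Agent.Q85.SW.TaskENorm.main (by assumption) (by assumption) | exact Pool.Agent.Q85.SW.TaskENorm.main (by assumption) (by assumption) (by assumption) | exact Pool.Agent.Q85.SW.TaskENorm.main (by assumption) (by assumption) (by assumption) (by assumption) | exact Pool.Agent.Q85.SW.TaskENorm.main (by assumption) (by assumption) (by assumption) (by assumption) (by assumption) | exact Pool.Agent.Q85.SW.TaskENorm.main (by assumption) (by assumption) (by assumption) (by assumption) (by assumption) (by assumption) | exact Pool.Agent.Q85.SW.TaskENorm.main (by assumption) (by assumption) (by assumption) (by assumption) (by assumption) (by assumption) (by assumption) | exact Pool.Agent.Q85.SW.TaskENorm.main (by assumption) (by assumption) (by assumption) (by assumption) (by assumption) (by assumption) (by assumption) (by assumption)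
  have hBasis : TaskBasis := by
    first | exact Pool.Agent.Q85.SW.TaskBasis.main | exact Pool.Agent.Q85.SW.TaskBasis.main (by assumption) | exact Pool.Agent.Q85.SW.TaskBasis.main (by assumption) (by assumption) | exact Pool.Agent.Q85.SW.TaskBasis.main (by assumption) (by assumption) (by assumption) | exact Pool.Agent.Q85.SW.TaskBasis.main (by assumption) (by assumption) (by assumption) (by assumption) | exact Pool.Agent.Q85.SW.TaskBasis.main (by assumption) (by assumption) (by assumption) (by assumption) (by assumption) | exact Pool.Agent.Q85.SW.TaskBasis.main (by assumption) (by assumption) (by assumption) (by assumption) (by assumption) (by assumption) | exact Pool.Agent.Q85.SW.TaskBasis.main (by assumption) (by assumption) (by assumption) (by assumption) (by assumption) (by assumption) (by assumption) | exact Pool.Agent.Q85.SW.TaskBasis.main (by assumption) (by assumption) (by assumption) (by assumption) (by assumption) (by assumption) (by assumption) (by assumption)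
  have hFTcalc : TaskFTcalc := by
    first | exact Pool.Agent.Q85.SW.TaskFTcalc.main | exact Pool.Agent.Q85.SW.TaskFTcalc.main (by assumption) | exact Pool.Agent.Q85.SW.TaskFTcalc.main (by assumption) (by assumption) | exact Pool.Agent.Q85.SW.TaskFTcalc.main (by assumption) (by assumption) (by assumption) | exact Pool.Agent.Q85.SW.TaskFTcalc.main (by assumption) (by assumption) (by assumption) (by assumption) | exact Pool.Agent.Q85.SW.TaskFTcalc.main (by assumption) (by assumption) (by assumption) (by assumption) (by assumption) | exact Pool.Agent.Q85.SW.TaskFTcalc.main (by assumption) (by assumption) (by assumption) (by assumption) (by assumption) (by assumption) | exact Pool.Agent.Q85.SW.TaskFTcalc.main (by assumption) (by assumption) (by assumption) (by assumption) (by assumption) (by assumption) (by assumption) | exact Pool.Agent.Q85.SW.TaskFTcalc.main (by assumption) (by assumption) (by assumption) (by assumption) (by assumption) (by assumption) (by assumption) (by assumption)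
  have hFT : TaskFT := by
    first | exact Pool.Agent.Q85.SW.TaskFT.main | exact Pool.Agent.Q85.SW.TaskFT.main (by assumption) | exact Pool.Agent.Q85.SW.TaskFT.main (by assumption) (by assumption) | exact Pool.Agent.Q85.SW.TaskFT.main (by assumption) (by assumption) (by assumption) | exact Pool.Agent.Q85.SW.TaskFT.main (by assumption) (by assumption) (by assumption) (by assumption) | exact Pool.Agent.Q85.SW.TaskFT.main (by assumption) (by assumption) (by assumption) (by assumption) (by assumption) | exact Pool.Agent.Q85.SW.TaskFT.main (by assumption) (by assumption) (by assumption) (by assumption) (by assumption) (by assumption) | exact Pool.Agent.Q85.SW.TaskFT.main (by assumption) (by assumption) (by assumption) (by assumption) (by assumption) (by assumption) (by assumption) | exact Pool.Agent.Q85.SW.TaskFT.main (by assumption) (by assumption) (by assumption) (by assumption) (by assumption) (by assumption) (by assumption) (by assumption)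
  exact Fin.main hGSchwartz hBasis hFT hGSupp

end Pool.Agent.Q85.SW.Top
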